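import Pool.Agent.Lib.gtFP.Rec

/-! Finiteness of the decay constant `CC`. -/

open scoped NNReal ENNReal

namespace gtFP

/-- the decay function, as a nonnegative real -/
private theorem decay_coe {M : ℕ} {t : ℝ} (ht : 0 < t) (k : ℕ) :
    (((1 + (k : ℝ≥0∞)) ^ M)⁻¹) ^ t = (((1 + (k : ℝ≥0)) ^ (-((M : ℝ) * t)) : ℝ≥0) : ℝ≥0∞) := by
  have hx : (1 + (k : ℝ≥0)) ≠ 0 := by positivity
  have e1 : (1 + (k : ℝ≥0∞)) = ((1 + (k : ℝ≥0) : ℝ≥0) : ℝ≥0∞) := by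
    rw [ENNReal.coe_add, ENNReal.coe_one, ENNReal.coe_natCast]
  rw [e1, ← ENNReal.coe_pow, ← ENNReal.coe_inv (pow_ne_zero _ hx),
    ← ENNReal.coe_rpow_of_nonneg _ ht.le]
  congr 1
  rw [NNReal.inv_rpow, NNReal.rpow_neg, NNReal.rpow_mul, NNReal.rpow_natCast]

private theorem decay_bound {d M : ℕ} {t : ℝ} (h : (d : ℝ) + 2 ≤ M * t) (k : ℕ) :
    ((2 * k + 1 : ℕ) : ℝ≥0) ^ d * (1 + (k : ℝ≥0)) ^ (-((M : ℝ) * t)) ≤
      2 ^ d * ((k + 1 : ℕ) : ℝ≥0) ^ (-2 : ℝ) := by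
  have hx : (1 + (k : ℝ≥0)) ≠ 0 := by positivity
  have hx1 : (1 : ℝ≥0) ≤ 1 + (k : ℝ≥0) := le_add_of_nonneg_right zero_le
  have e2 : ((k + 1 : ℕ) : ℝ≥0) = 1 + (k : ℝ≥0) := by push_cast; ring
  have h1 : ((2 * k + 1 : ℕ) : ℝ≥0) ≤ 2 * (1 + (k : ℝ≥0)) := by
    rw [← e2]
    exact_mod_cast (by omega : 2 * k + 1 ≤ 2 * (k + 1))
  rw [e2]
  calc ((2 * k + 1 : ℕ) : ℝ≥0) ^ d * (1 + (k : ℝ≥0)) ^ (-((M : ℝ) * t))
      ≤ (2 * (1 + (k : ℝ≥0))) ^ d * (1 + (k : ℝ≥0)) ^ (-((M : ℝ) * t)) :=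
        mul_le_mul_left (pow_le_pow_left' h1 d) _
    _ = 2 ^ d * ((1 + (k : ℝ≥0)) ^ ((d : ℝ) + -((M : ℝ) * t))) := by
        rw [mul_pow, mul_assoc, NNReal.rpow_add hx, NNReal.rpow_natCast]
    _ ≤ 2 ^ d * (1 + (k : ℝ≥0)) ^ (-2 : ℝ) := by
        refine mul_le_mul_right (NNReal.rpow_le_rpow_of_exponent_le hx1 ?_) _
        linarith

/-- `∑_{z ∈ ℤ^d} (1 + |z|)^{-M t} < ∞` if `d + 2 ≤ M t`.
Proof: sum over the spheres `nd z 0 = k`, which have at most `(2k+1)^d ≤ 2^d (1+k)^d` elements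
(they are contained in `Fintype.piFinset fun _ => Finset.Icc (-k) k`), so the sum is at most
`∑_k 2^d (1+k)^d (1+k)^{-M t} ≤ 2^d ∑_k (1+k)^{-2} < ∞`. (Or any other proof.) -/
theorem CC_lt_top {d M : ℕ} {t : ℝ} (ht : 0 < t) (h : (d : ℝ) + 2 ≤ M * t) : CC d M t < ⊤ := by
  classical
  unfold CC
  have e1 : ∀ z : Fin d → ℤ, (((1 + (nd z 0 : ℝ≥0∞)) ^ M)⁻¹) ^ t =
      ∑' k : ℕ, if nd z 0 = k then (((1 + (k : ℝ≥0∞)) ^ M)⁻¹) ^ t else 0 := by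
    intro z
    rw [tsum_eq_single (nd z 0) (fun k hk => if_neg fun h => hk h.symm), if_pos rfl]
  have e2 : ∀ k : ℕ, (∑' z : Fin d → ℤ, if nd z 0 = k then (((1 + (k : ℝ≥0∞)) ^ M)⁻¹) ^ t else 0) ≤
      ((2 ^ d * ((k + 1 : ℕ) : ℝ≥0) ^ (-2 : ℝ) : ℝ≥0) : ℝ≥0∞) := by
    intro k
    rw [decay_coe ht k]
    have h0 : ∀ z ∉ (Fintype.piFinset fun _ : Fin d => Finset.Icc (-(k : ℤ)) k),
        (if nd z 0 = k then (((1 + (k : ℝ≥0)) ^ (-((M : ℝ) * t)) : ℝ≥0) : ℝ≥0∞) else 0) = 0 := by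
      intro z hz
      refine if_neg fun hk => hz ?_
      rw [Fintype.mem_piFinset]
      intro i
      rw [Finset.mem_Icc]
      have h1 := (nd_le (a := z) (b := 0) (K := k)).1 hk.le i
      have e : (0 : Fin d → ℤ) i = 0 := rfl
      rw [e] at h1
      omega
    rw [tsum_eq_sum h0]
    refine (Finset.sum_le_card_nsmul _ _ (((1 + (k : ℝ≥0)) ^ (-((M : ℝ) * t)) : ℝ≥0) : ℝ≥0∞)
      fun z _ => ?_).trans ?_
    · split_ifs
      · exact le_rfl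
      · exact zero_le
    · have hc : (Fintype.piFinset fun _ : Fin d => Finset.Icc (-(k : ℤ)) k).card =
          (2 * k + 1) ^ d := by
        rw [Fintype.card_piFinset]
        rw [Finset.prod_congr rfl fun t _ => show (Finset.Icc (-(k : ℤ)) k).card = 2 * k + 1 by
          rw [Int.card_Icc]; omega]
        simp
      rw [hc, nsmul_eq_mul]
      have h3 := decay_bound h k
      have e4 : (((2 * k + 1) ^ d : ℕ) : ℝ≥0∞) = (((2 * k + 1 : ℕ) : ℝ≥0) ^ d : ℝ≥0) := by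
        push_cast
        rfl
      rw [e4, ← ENNReal.coe_mul]
      exact ENNReal.coe_le_coe.2 h3
  have hs : Summable fun k : ℕ => (2 ^ d * ((k + 1 : ℕ) : ℝ≥0) ^ (-2 : ℝ) : ℝ≥0) := by
    refine Summable.mul_left _ ?_
    exact (NNReal.summable_nat_add_iff 1 (f := fun n : ℕ => (n : ℝ≥0) ^ (-2 : ℝ))).2
      (NNReal.summable_rpow.2 (by norm_num))
  rw [tsum_congr e1, ENNReal.tsum_comm]
  refine lt_of_le_of_lt (ENNReal.tsum_le_tsum e2) ?_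
  exact (ENNReal.tsum_coe_ne_top_iff_summable.2 hs).lt_top

/-- The same sum centered at any point (`nd_comm`, translation invariance of `nd`,
`Equiv.tsum_eq` for `Equiv.subRight`/`Equiv.addRight`). -/
theorem tsum_decay {d M : ℕ} {t : ℝ} (c : Fin d → ℤ) :
    ∑' a : Fin d → ℤ, (((1 + (nd a c : ℝ≥0∞)) ^ M)⁻¹) ^ t = CC d M t := by
  unfold CC
  rw [← Equiv.tsum_eq (Equiv.addRight c)
    (fun a : Fin d → ℤ => (((1 + (nd a c : ℝ≥0∞)) ^ M)⁻¹) ^ t)]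
  refine tsum_congr fun a => ?_
  have e : nd (Equiv.addRight c a) c = nd a 0 := by
    refine le_antisymm (nd_le.2 fun i => ?_) (nd_le.2 fun i => ?_)
    · have h1 := (nd_le (a := a) (b := 0) (K := nd a 0)).1 le_rfl i
      have e0 : (0 : Fin d → ℤ) i = 0 := rfl
      have e2 : (Equiv.addRight c a) i = a i + c i := rfl
      rw [e0] at h1
      rw [e2]
      omega
    · have h1 := (nd_le (a := Equiv.addRight c a) (b := c) (K := nd (Equiv.addRight c a) c)).1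
        le_rfl i
      have e0 : (0 : Fin d → ℤ) i = 0 := rfl
      have e2 : (Equiv.addRight c a) i = a i + c i := rfl
      rw [e2] at h1
      rw [e0]
      omega
  show (((1 + (nd (Equiv.addRight c a) c : ℝ≥0∞)) ^ M)⁻¹) ^ t = _
  rw [e]

end gtFP
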