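import Pool.Agent.Lib.gtFP.Defs

/-! The converse: a set which is not totally disconnected has conformal Hausdorff dimension at least
one. -/

open MeasureTheory Filter Topology
open scoped NNReal ENNReal

namespace gtFP

/-- A metric space with a preconnected subset with two distinct points has Hausdorff dimension at
least one. -/
theorem one_le_dimH {Y : Type} [MetricSpace Y] {t : Set Y} (ht : IsPreconnected t) {x y : Y}
    (hx : x ∈ t) (hy : y ∈ t) (hxy : x ≠ y) : 1 ≤ dimH (Set.univ : Set Y) := by
  have hlip : LipschitzWith 1 (fun z : Y => dist x z) := LipschitzWith.dist_right x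
  have himg : IsPreconnected ((fun z : Y => dist x z) '' t) :=
    ht.image _ hlip.continuous.continuousOn
  have h0 : (0 : ℝ) ∈ (fun z : Y => dist x z) '' t := ⟨x, hx, dist_self x⟩
  have h1 : dist x y ∈ (fun z : Y => dist x z) '' t := ⟨y, hy, rfl⟩
  have hsub : Set.Icc 0 (dist x y) ⊆ (fun z : Y => dist x z) '' t :=
    himg.Icc_subset h0 h1
  have hpos : 0 < dist x y := dist_pos.2 hxy
  have hdim : dimH (Set.Icc (0 : ℝ) (dist x y)) = 1 := by
    have := Real.dimH_of_nonempty_interior (s := Set.Icc (0 : ℝ) (dist x y)) (by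
      rw [interior_Icc]
      exact Set.nonempty_Ioo.2 hpos)
    rw [this]
    simp
  calc (1 : ℝ≥0∞) = dimH (Set.Icc (0 : ℝ) (dist x y)) := hdim.symm
    _ ≤ dimH ((fun z : Y => dist x z) '' t) := dimH_mono hsub
    _ ≤ dimH t := hlip.dimH_image_le t
    _ ≤ dimH (Set.univ : Set Y) := dimH_mono (Set.subset_univ _)

theorem one_le_confDimH {X : Type} [MetricSpace X] (h : ¬ TotallyDisconnectedSpace X) :
    1 ≤ confDimH X := by
  have h' : ¬ IsTotallyDisconnected (Set.univ : Set X) := fun hc => h ⟨hc⟩
  simp only [IsTotallyDisconnected, not_forall] at h'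
  obtain ⟨t, _, ht, hns⟩ := h'
  rw [Set.not_subsingleton_iff] at hns
  obtain ⟨x, hx, y, hy, hxy⟩ := hns
  refine le_iInf fun Y => le_iInf fun mY => le_iInf fun hY => ?_
  obtain ⟨f, _⟩ := hY
  exact one_le_dimH (ht.image f f.continuous.continuousOn) ⟨x, hx, rfl⟩ ⟨y, hy, rfl⟩
    (fun hc => hxy (f.injective hc))

theorem one_le_confDimH_perc {d n : ℕ} {ω : Cfg d} (h : ¬ IsTotallyDisconnected (perc n ω)) :
    1 ≤ confDimH (perc n ω) := by
  apply one_le_confDimH
  rwa [totallyDisconnectedSpace_subtype_iff]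

end gtFP
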