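import Mathlib

/-!
Fractal (Mandelbrot) percolation, quasisymmetric maps and conformal dimensions (MP_09fff0_gt).
-/

open MeasureTheory Filter Topology
open scoped NNReal ENNReal

namespace gtFP

/-! ### Quasisymmetric maps and conformal dimensions -/

/-- A homeomorphism `f : X → Y` of metric spaces is quasisymmetric if there is a homeomorphism
`η : [0,∞) → [0,∞)` such that `d(x,a) ≤ t d(x,b)` implies `d(f x, f a) ≤ η(t) d(f x, f b)`. -/
def IsQuasisymmetric {X Y : Type} [MetricSpace X] [MetricSpace Y] (f : X ≃ₜ Y) : Prop :=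
  ∃ η : ℝ≥0 ≃ₜ ℝ≥0, ∀ (x a b : X) (t : ℝ≥0),
    nndist x a ≤ t * nndist x b → nndist (f x) (f a) ≤ η t * nndist (f x) (f b)

/-- Quasisymmetric equivalence of metric spaces. -/
def QSEquiv (X Y : Type) [MetricSpace X] [MetricSpace Y] : Prop :=
  ∃ f : X ≃ₜ Y, IsQuasisymmetric f

/-- The smallest number of closed balls of radius `r` covering `Y` (`Y` is compact in all
applications, so that the set of such numbers is not empty for `r > 0`). -/
noncomputable def coverNum (Y : Type) [MetricSpace Y] (r : ℝ) : ℕ :=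
  sInf {k | ∃ s : Finset Y, s.card = k ∧ ∀ y, ∃ x ∈ s, dist y x ≤ r}

/-- Upper box-counting dimension `limsup_{r → 0} log N(r) / log (1/r)`. -/
noncomputable def upperBoxDim (Y : Type) [MetricSpace Y] : ℝ≥0∞ :=
  limsup (fun r : ℝ => ENNReal.ofReal (Real.log (coverNum Y r) / Real.log (1 / r))) (𝓝[>] 0)

/-- Conformal Hausdorff dimension: infimum of `dim_H Y` over all metric spaces `Y`
quasisymmetrically equivalent to `X`. -/
noncomputable def confDimH (X : Type) [MetricSpace X] : ℝ≥0∞ :=
  ⨅ (Y : Type) (_ : MetricSpace Y) (_ : QSEquiv X Y), dimH (Set.univ : Set Y)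

/-- Conformal upper box dimension: infimum of the upper box dimension of `Y` over all metric
spaces `Y` quasisymmetrically equivalent to `X`. -/
noncomputable def confDimB (X : Type) [MetricSpace X] : ℝ≥0∞ :=
  ⨅ (Y : Type) (_ : MetricSpace Y) (_ : QSEquiv X Y), upperBoxDim Y

/-! ### Fractal percolation -/

variable {d : ℕ}

/-- A configuration: `ω (i, a) = true` says that the cube of level `i` with index `a` is kept when
it is examined. (Only the cubes in `[0,1]^d` of level `i ≥ 1` matter.) -/
abbrev Cfg (d : ℕ) : Type := ℕ × (Fin d → ℤ) → Bool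

/-- The closed cube of level `k` with index `a`: `∏ₜ [aₜ / n^k, (aₜ + 1) / n^k]`. -/
def cube (n k : ℕ) (a : Fin d → ℤ) : Set (EuclideanSpace ℝ (Fin d)) :=
  {x | ∀ t, (a t : ℝ) / (n : ℝ) ^ k ≤ x t ∧ x t ≤ ((a t : ℝ) + 1) / (n : ℝ) ^ k}

/-- Index of the ancestor, `s` levels up, of the cube with index `a`. -/
def anc (n s : ℕ) (a : Fin d → ℤ) : Fin d → ℤ := fun t => a t / (n : ℤ) ^ s

/-- The cube of level `k` with index `a` lies in `[0,1]^d`. -/
def InBox (K : ℕ) (a : Fin d → ℤ) : Prop := ∀ t, 0 ≤ a t ∧ a t < (K : ℤ)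

/-- The cube `a` of level `k` and all its ancestors of level at least one are kept. -/
def Kept (n k : ℕ) (ω : Cfg d) (a : Fin d → ℤ) : Prop :=
  ∀ i, 1 ≤ i → i ≤ k → ω (i, anc n (k - i) a) = true

/-- `F_k`: the union of the cubes kept at step `k`. -/
def percStep (n k : ℕ) (ω : Cfg d) : Set (EuclideanSpace ℝ (Fin d)) :=
  {x | ∃ a : Fin d → ℤ, InBox (n ^ k) a ∧ Kept n k ω a ∧ x ∈ cube n k a}

/-- The sample `F = ⋂ₖ F_k` of Mandelbrot percolation. -/
def perc (n : ℕ) (ω : Cfg d) : Set (EuclideanSpace ℝ (Fin d)) := ⋂ k, percStep n k ω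

/-- The law of the configuration: every cube is kept with probability `p`, independently. -/
noncomputable def percLaw (d : ℕ) (p : unitInterval) : Measure (Cfg d) :=
  Measure.infinitePi (fun _ : ℕ × (Fin d → ℤ) => ProbabilityTheory.bernoulliMeasure true false p)

end gtFP
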