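import Pool.Agent.Lib.gtFP.Defs

/-! Dimensions from covering numbers. -/

open MeasureTheory Filter Topology
open scoped NNReal ENNReal

namespace gtFP

/-- If `Y` can be covered by at most `C r^{-t}` balls of radius `r` for every `r ∈ (0,1)` then the
upper box dimension is at most `t`: `log N(r) / log (1/r) ≤ (log C + t log (1/r)) / log (1/r) → t`
(if `N(r) = 0` then `Y` is empty and `log 0 = 0`; WLOG `C ≥ 1`). Use
`Filter.limsup_le_of_le`/`le_of_forall_gt` or compare with a function converging to `t`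
(`Tendsto.limsup_eq`, `limsup_le_limsup`). -/
theorem upperBoxDim_le {Y : Type} [MetricSpace Y] {C t : ℝ} (ht : 0 < t) (hC : 0 ≤ C)
    (h : ∀ r : ℝ, 0 < r → r < 1 → ∃ A : Finset Y, (A.card : ℝ) ≤ C * r ^ (-t) ∧
      ∀ y, ∃ x ∈ A, dist y x ≤ r) :
    upperBoxDim Y ≤ ENNReal.ofReal t := by
  have hC' : (1 : ℝ) ≤ max C 1 := le_max_right _ _
  have hC0 : (0 : ℝ) < max C 1 := lt_of_lt_of_le one_pos hC'
  have h1 : Tendsto (fun r : ℝ => Real.log (1 / r)) (𝓝[>] 0) atTop := by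
    have h0 : Tendsto (fun r : ℝ => r⁻¹) (𝓝[>] 0) atTop := tendsto_inv_nhdsGT_zero
    simpa [one_div, Function.comp_def] using Real.tendsto_log_atTop.comp h0
  have h2 : Tendsto (fun r : ℝ => Real.log (max C 1) / Real.log (1 / r) + t) (𝓝[>] 0)
      (𝓝 t) := by
    simpa using (h1.const_div_atTop (Real.log (max C 1))).add_const t
  have h3 : Tendsto (fun r : ℝ => ENNReal.ofReal
      (Real.log (max C 1) / Real.log (1 / r) + t)) (𝓝[>] 0) (𝓝 (ENNReal.ofReal t)) :=
    ENNReal.tendsto_ofReal h2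
  rw [upperBoxDim, ← h3.limsup_eq]
  refine limsup_le_limsup ?_
  have h4 : Set.Ioo (0 : ℝ) 1 ∈ 𝓝[>] (0 : ℝ) := Ioo_mem_nhdsGT one_pos
  filter_upwards [h4] with r hr
  obtain ⟨hr0, hr1⟩ := hr
  refine ENNReal.ofReal_le_ofReal ?_
  have hlog : 0 < Real.log (1 / r) := Real.log_pos (by rw [lt_div_iff₀ hr0]; linarith)
  rw [div_add' _ _ _ hlog.ne']
  refine div_le_div_of_nonneg_right ?_ hlog.le
  obtain ⟨A, hA, hcov⟩ := h r hr0 hr1
  have hN : coverNum Y r ≤ A.card := Nat.sInf_le ⟨A, rfl, hcov⟩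
  have hN' : (coverNum Y r : ℝ) ≤ max C 1 * r ^ (-t) := by
    calc (coverNum Y r : ℝ) ≤ (A.card : ℝ) := by exact_mod_cast hN
      _ ≤ C * r ^ (-t) := hA
      _ ≤ max C 1 * r ^ (-t) :=
        mul_le_mul_of_nonneg_right (le_max_left _ _) (Real.rpow_nonneg hr0.le _)
  have hlr : Real.log (max C 1 * r ^ (-t)) = Real.log (max C 1) + t * Real.log (1 / r) := by
    rw [Real.log_mul hC0.ne' (Real.rpow_pos_of_pos hr0 _).ne', Real.log_rpow hr0, one_div,
      Real.log_inv]
    ring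
  rw [← hlr]
  rcases Nat.eq_zero_or_pos (coverNum Y r) with h0 | h0
  · rw [h0, Nat.cast_zero, Real.log_zero, hlr]
    have := Real.log_nonneg hC'
    positivity
  · exact Real.log_le_log (by exact_mod_cast h0) hN'

end gtFP
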