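import Pool.Agent.Lib.gtFP.Defs

/-! Hausdorff dimension from covering numbers. -/

open MeasureTheory ProbabilityTheory Filter Topology
open scoped NNReal ENNReal

namespace gtFP

variable {d : ℕ}

/-- The same for the Hausdorff dimension: the Hausdorff measure of dimension `t` is
at most `liminf C r^{-t} (2r)^{t} = C 2^t` (`hausdorffMeasure_le_liminf_sum` with the covers by the
balls of radius `r = 1/(k+2)`), so `dimH ≤ t` (`dimH_le_of_hausdorffMeasure_ne_top`). -/
theorem dimH_le {Y : Type} [MetricSpace Y] {C t : ℝ} (ht : 0 < t) (hC : 0 ≤ C)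
    (h : ∀ r : ℝ, 0 < r → r < 1 → ∃ A : Finset Y, (A.card : ℝ) ≤ C * r ^ (-t) ∧
      ∀ y, ∃ x ∈ A, dist y x ≤ r) :
    dimH (Set.univ : Set Y) ≤ ENNReal.ofReal t := by
  borelize Y
  have hr : ∀ k : ℕ, (0 : ℝ) < 1 / ((k : ℝ) + 2) ∧ 1 / ((k : ℝ) + 2) < 1 := by
    intro k
    have : (0 : ℝ) ≤ k := Nat.cast_nonneg k
    refine ⟨by positivity, ?_⟩
    rw [div_lt_one (by positivity)]
    linarith
  choose A hA hcov using fun k : ℕ => h (1 / ((k : ℝ) + 2)) (hr k).1 (hr k).2
  have hrad : Tendsto (fun k : ℕ => (1 : ℝ) / ((k : ℝ) + 2)) atTop (𝓝 0) := by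
    have := tendsto_one_div_add_atTop_nhds_zero_nat (𝕜 := ℝ)
    refine squeeze_zero (fun k => (hr k).1.le) (fun k => ?_) this
    exact one_div_le_one_div_of_le (by positivity) (by linarith)
  have hdiam : ∀ (k : ℕ) (x : Y), Metric.ediam (Metric.closedBall (x : Y) (1 / ((k : ℝ) + 2))) ≤
      ENNReal.ofReal (2 * (1 / ((k : ℝ) + 2))) := by
    intro k x
    refine Metric.ediam_le fun a ha b hb => ?_
    rw [edist_dist]
    refine ENNReal.ofReal_le_ofReal ?_
    rw [Metric.mem_closedBall] at ha hb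
    calc dist a b ≤ dist a x + dist b x := dist_triangle_right _ _ _
      _ ≤ _ := by linarith
  have key : μH[t] (Set.univ : Set Y) ≤ ENNReal.ofReal (C * 2 ^ t) := by
    have h2 : Tendsto (fun k : ℕ => ENNReal.ofReal (2 * (1 / ((k : ℝ) + 2)))) atTop (𝓝 0) := by
      have := ENNReal.tendsto_ofReal (hrad.const_mul 2)
      simpa using this
    refine (Measure.hausdorffMeasure_le_liminf_sum (ι := fun k : ℕ => (A k)) t
      (Set.univ : Set Y) (fun k => ENNReal.ofReal (2 * (1 / ((k : ℝ) + 2)))) h2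
      (fun k x => Metric.closedBall (x : Y) (1 / ((k : ℝ) + 2))) ?_ ?_).trans ?_
    · exact Eventually.of_forall fun k x => hdiam k x
    · refine Eventually.of_forall fun k y _ => ?_
      obtain ⟨x, hx, hxy⟩ := hcov k y
      exact Set.mem_iUnion.2 ⟨⟨x, hx⟩, hxy⟩
    · refine liminf_le_of_frequently_le' (Frequently.of_forall fun k => ?_)
      have hrk := hr k
      calc ∑ i : A k, Metric.ediam (Metric.closedBall (i : Y) (1 / ((k : ℝ) + 2))) ^ t
          ≤ ∑ _i : A k, ENNReal.ofReal (2 * (1 / ((k : ℝ) + 2))) ^ t :=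
            Finset.sum_le_sum fun i _ => ENNReal.rpow_le_rpow (hdiam k i) ht.le
        _ = ((A k).card : ℝ≥0∞) * ENNReal.ofReal (2 * (1 / ((k : ℝ) + 2))) ^ t := by
            rw [Finset.sum_const, nsmul_eq_mul]
            simp
        _ = ENNReal.ofReal (((A k).card : ℝ) * (2 * (1 / ((k : ℝ) + 2))) ^ t) := by
            rw [ENNReal.ofReal_mul (Nat.cast_nonneg _), ENNReal.ofReal_natCast,
              ENNReal.ofReal_rpow_of_nonneg (by have := hrk.1; positivity) ht.le]
        _ ≤ ENNReal.ofReal (C * 2 ^ t) := by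
            refine ENNReal.ofReal_le_ofReal ?_
            have h3 : (0 : ℝ) ≤ (2 * (1 / ((k : ℝ) + 2))) ^ t := by positivity
            calc ((A k).card : ℝ) * (2 * (1 / ((k : ℝ) + 2))) ^ t
                ≤ (C * (1 / ((k : ℝ) + 2)) ^ (-t)) * (2 * (1 / ((k : ℝ) + 2))) ^ t :=
                  mul_le_mul_of_nonneg_right (hA k) h3
              _ = C * 2 ^ t * ((1 / ((k : ℝ) + 2)) ^ (-t) * (1 / ((k : ℝ) + 2)) ^ t) := by
                  rw [Real.mul_rpow (by norm_num) hrk.1.le]
                  ring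
              _ = C * 2 ^ t := by
                  rw [← Real.rpow_add hrk.1, neg_add_cancel, Real.rpow_zero, mul_one]
  have h5 : μH[((t.toNNReal : ℝ≥0) : ℝ)] (Set.univ : Set Y) ≠ ⊤ := by
    rw [Real.coe_toNNReal _ ht.le]
    exact ne_top_of_le_ne_top ENNReal.ofReal_ne_top key
  exact dimH_le_of_hausdorffMeasure_ne_top h5

end gtFP
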