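import Pool.Agent.Lib.gtFP.Shift

/-! The event that all cubes are kept; monotonicity of `Bad`. -/

open MeasureTheory ProbabilityTheory Filter Topology
open scoped NNReal ENNReal

namespace gtFP

variable {d : ℕ}

/-- `Bad` decreases with the depth (same chain, replace the cubes by their parents; `nd_anc_ge`,
`nd_anc_mul`, `nd_anc_le`). -/
theorem bad_succ {n m k : ℕ} (hn : 1 ≤ n) {ω : Cfg d} {z : Fin d → ℤ} (h : Bad n (m + 1) k ω z) :
    Bad n m k ω z := by
  obtain ⟨r, f, h0, h1, h2, h3, h4⟩ := h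
  refine ⟨r, fun i => anc n 1 (f i), ?_, fun i hi j hj1 hjm => ?_, fun i hi => ?_, fun i hi => ?_, ?_⟩
  · rw [anc_anc]
    exact h0
  · have h5 := h1 i hi j hj1 (by omega)
    rw [anc_anc]
    rwa [show m - j + 1 = m + 1 - j by omega]
  · exact (nd_anc_le hn _ _).trans (h2 i hi)
  · refine nd_anc_mul hn ?_
    rw [pow_one]
    refine (h3 i hi).trans (le_of_eq ?_)
    rw [pow_succ]
    ring
  · refine nd_anc_ge hn ?_
    rw [pow_one]
    refine (le_of_eq ?_).trans h4
    rw [pow_succ]
    ring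

/-- the event that all cubes of the levels `1, …, k` in `[0,1]^d` are kept -/
def allKept (d n k : ℕ) : Set (Cfg d) :=
  {ω | ∀ i, 1 ≤ i → i ≤ k → ∀ a, InBox (n ^ i) a → ω (i, a) = true}

/-- The event `allKept` is a finite intersection of coordinate events, measurable for
`sg (Lv d 0 k)`; by independence its probability is a power of `p`, positive for `p > 0`
(`infinitePi_pi` with a finset of coordinates, `bernoulliMeasure_apply`). -/
theorem allKept_meas (n k : ℕ) : MeasurableSet[sg (Lv d 0 k)] (allKept d n k) := by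
  have h1 : allKept d n k = ⋂ i ∈ Finset.Icc 1 k, ⋂ a ∈ boxF d (n ^ i), {ω : Cfg d | ω (i, a) = true} := by
    ext ω
    simp only [allKept, Set.mem_ofPred_eq, Set.mem_iInter, Finset.mem_Icc, mem_boxF]
    exact ⟨fun h i hi a ha => h i hi.1 hi.2 a ha, fun h i hi1 hi2 a ha => h i ⟨hi1, hi2⟩ a ha⟩
  rw [h1]
  refine Finset.measurableSet_biInter _ fun i hi => ?_
  refine Finset.measurableSet_biInter _ fun a _ => ?_
  have h2 := Finset.mem_Icc.1 hi
  refine meas_coord (I := Lv d 0 k) ⟨?_, ?_⟩ true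
  · show 0 < i
    omega
  · show i ≤ 0 + k
    omega

theorem allKept_pos (n k : ℕ) {p : unitInterval} (hp : 0 < p) :
    0 < percLaw d p (allKept d n k) := by
  classical
  have h1 : allKept d n k = Set.pi
      (((Finset.Icc 1 k).biUnion fun i => (boxF d (n ^ i)).image fun a => (i, a) :
        Finset (ℕ × (Fin d → ℤ))) : Set (ℕ × (Fin d → ℤ))) (fun _ => {true}) := by
    ext ω
    simp only [allKept, Set.mem_ofPred_eq, Set.mem_pi, Finset.mem_coe, Finset.mem_biUnion,
      Finset.mem_Icc, Finset.mem_image, mem_boxF, Set.mem_singleton_iff]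
    constructor
    · rintro h _ ⟨i, hi, a, ha, rfl⟩
      exact h i hi.1 hi.2 a ha
    · intro h i hi1 hi2 a ha
      exact h (i, a) ⟨i, ⟨hi1, hi2⟩, a, ha, rfl⟩
  rw [h1, percLaw, Measure.infinitePi_pi _ (fun _ _ => MeasurableSet.of_discrete)]
  refine pos_iff_ne_zero.2 (Finset.prod_ne_zero_iff.2 fun i _ => ?_)
  rw [bernoulliMeasure_apply_of_mem_of_notMem p MeasurableSet.of_discrete (by simp) (by simp)]
  have h2 : (0 : ℝ) < (p : ℝ) := hp
  refine (ENNReal.coe_pos.2 ?_).ne'
  exact h2

end gtFP
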