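import Pool.Agent.Lib.gtFP.Defs

/-! Topology: limits of connected sets. -/

open MeasureTheory ProbabilityTheory Filter Topology
open scoped NNReal ENNReal

namespace gtFP

variable {d : ℕ}

/-- Let `F k` be a decreasing sequence of compact sets and suppose that for every `k` there is a
preconnected `K k ⊆ F k` with two points at distance at least `η`. Then `⋂ F k` is not totally
disconnected. Proof: a subsequence of `(x k, y k)` converges to `(x, y)` with `x, y ∈ F := ⋂ F k`,
`dist x y ≥ η`. If `F` is totally disconnected (as a set; as a subtype it is a compact totally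
disconnected Hausdorff space) there is a clopen subset of `F` containing `x` and not `y`, so
`F = A ∪ B` with `A, B` compact and disjoint, `x ∈ A`, `y ∈ B`; separate by disjoint open `U ⊇ A`,
`V ⊇ B`. By compactness `F k ⊆ U ∪ V` for large `k`
(`IsCompact.nonempty_iInter_of_directed_nonempty_isCompact_isClosed` or
`exists_subset_nhds_of_isCompact`). For large `k` in the subsequence `x k ∈ U`, `y k ∈ V`, so `K k`
is not preconnected. -/
theorem not_totallyDisconnected_iInter {E : Type} [MetricSpace E] {F : ℕ → Set E}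
    (hF : ∀ k, IsCompact (F k)) (hdec : ∀ k, F (k + 1) ⊆ F k) {η : ℝ} (hη : 0 < η)
    (h : ∀ k, ∃ K : Set E, IsPreconnected K ∧ K ⊆ F k ∧ ∃ x ∈ K, ∃ y ∈ K, η ≤ dist x y) :
    ¬ IsTotallyDisconnected (⋂ k, F k) := by
  intro htd
  have hanti : Antitone F := antitone_nat_of_succ_le hdec
  choose K hK1 hK2 x hx y hy hxy using h
  -- a convergent subsequence
  have hmem : ∀ k, (x k, y k) ∈ F 0 ×ˢ F 0 := fun k =>
    ⟨hanti (Nat.zero_le k) (hK2 k (hx k)), hanti (Nat.zero_le k) (hK2 k (hy k))⟩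
  obtain ⟨⟨a, b⟩, _, φ, hφ, hlim⟩ := ((hF 0).prod (hF 0)).tendsto_subseq hmem
  have hla : Tendsto (fun n => x (φ n)) atTop (𝓝 a) := (continuous_fst.tendsto _).comp hlim
  have hlb : Tendsto (fun n => y (φ n)) atTop (𝓝 b) := (continuous_snd.tendsto _).comp hlim
  have haF : a ∈ ⋂ k, F k := by
    refine Set.mem_iInter.2 fun k => (hF k).isClosed.mem_of_tendsto hla ?_
    filter_upwards [eventually_ge_atTop k] with n hn
    exact hanti (hn.trans (hφ.id_le n)) (hK2 _ (hx _))
  have hbF : b ∈ ⋂ k, F k := by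
    refine Set.mem_iInter.2 fun k => (hF k).isClosed.mem_of_tendsto hlb ?_
    filter_upwards [eventually_ge_atTop k] with n hn
    exact hanti (hn.trans (hφ.id_le n)) (hK2 _ (hy _))
  have hab : η ≤ dist a b := ge_of_tendsto' (hla.dist hlb) fun n => hxy (φ n)
  have hne : a ≠ b := by
    intro h
    rw [h, dist_self] at hab
    exact absurd hη (not_lt.2 hab)
  -- the clopen set
  have hc : IsCompact (⋂ k, F k) :=
    (hF 0).of_isClosed_subset (isClosed_iInter fun k => (hF k).isClosed) (Set.iInter_subset _ 0)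
  have hcs : CompactSpace (⋂ k, F k : Set E) := isCompact_iff_compactSpace.1 hc
  have htds : TotallyDisconnectedSpace (⋂ k, F k : Set E) :=
    totallyDisconnectedSpace_subtype_iff.2 htd
  have htss : TotallySeparatedSpace (⋂ k, F k : Set E) := inferInstance
  have hne' : (⟨a, haF⟩ : (⋂ k, F k : Set E)) ≠ ⟨b, hbF⟩ := fun h => hne (congrArg Subtype.val h)
  obtain ⟨U, hU, haU, hbU⟩ := exists_isClopen_of_totally_separated hne'
  have hA : IsCompact ((Subtype.val : (⋂ k, F k : Set E) → E) '' U) :=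
    hU.isClosed.isCompact.image continuous_subtype_val
  have hB : IsCompact ((Subtype.val : (⋂ k, F k : Set E) → E) '' Uᶜ) :=
    hU.compl.isClosed.isCompact.image continuous_subtype_val
  have hdis : Disjoint ((Subtype.val : (⋂ k, F k : Set E) → E) '' U)
      ((Subtype.val : (⋂ k, F k : Set E) → E) '' Uᶜ) := by
    rw [Set.disjoint_image_iff Subtype.val_injective]
    exact disjoint_compl_right
  obtain ⟨U', V', hU', hV', hAU, hBV, hUV⟩ := SeparatedNhds.of_isCompact_isCompact hA hB hdis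
  obtain ⟨N, hN⟩ : ∃ N, F N ⊆ U' ∪ V' := by
    refine exists_subset_nhds_of_isCompact hanti.directed_ge hF fun z hz => ?_
    refine (hU'.union hV').mem_nhds ?_
    by_cases hzU : (⟨z, hz⟩ : (⋂ k, F k : Set E)) ∈ U
    · exact Or.inl (hAU ⟨_, hzU, rfl⟩)
    · exact Or.inr (hBV ⟨_, hzU, rfl⟩)
  have h1 : ∀ᶠ n in atTop, x (φ n) ∈ U' := hla (hU'.mem_nhds (hAU ⟨_, haU, rfl⟩))
  have h2 : ∀ᶠ n in atTop, y (φ n) ∈ V' := hlb (hV'.mem_nhds (hBV ⟨_, hbU, rfl⟩))
  obtain ⟨n, hn1, hn2, hn3⟩ := (h1.and (h2.and (eventually_ge_atTop N))).exists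
  have hsub : K (φ n) ⊆ U' ∪ V' :=
    ((hK2 _).trans (hanti (hn3.trans (hφ.id_le n)))).trans hN
  obtain ⟨z, _, hz1, hz2⟩ := hK1 (φ n) U' V' hU' hV' hsub ⟨_, hx _, hn1⟩ ⟨_, hy _, hn2⟩
  exact Set.disjoint_left.1 hUV hz1 hz2

end gtFP
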