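import Pool.Agent.Lib.gtFP.Rec

/-! The sets `F_k`. -/

open MeasureTheory ProbabilityTheory Filter Topology
open scoped NNReal ENNReal

namespace gtFP

variable {d : ℕ}

private theorem topB_isCompact_cube (n k : ℕ) (a : Fin d → ℤ) : IsCompact (cube n k a) := by
  have h1 : cube n k a = (EuclideanSpace.equiv (Fin d) ℝ) ⁻¹'
      (Set.pi Set.univ fun t => Set.Icc ((a t : ℝ) / (n : ℝ) ^ k) (((a t : ℝ) + 1) / (n : ℝ) ^ k)) := by
    ext x
    exact ⟨fun h t _ => h t, fun h t => h t trivial⟩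
  rw [h1]
  exact (EuclideanSpace.equiv (Fin d) ℝ).toHomeomorph.isCompact_preimage.2
    (isCompact_univ_pi fun t => isCompact_Icc)

/-- `F_k` is compact (finite union of compact cubes) and decreasing (`kept_add` with `m = 1`,
`inBox_anc`; the cube of level `k+1` lies in the cube of its parent). -/
theorem isCompact_percStep {n : ℕ} (hn : 1 ≤ n) (k : ℕ) (ω : Cfg d) :
    IsCompact (percStep n k ω) := by
  have h1 : percStep n k ω = ⋃ a ∈ {a : Fin d → ℤ | InBox (n ^ k) a ∧ Kept n k ω a}, cube n k a := by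
    ext x
    simp only [percStep, Set.mem_ofPred_eq, Set.mem_iUnion, exists_prop, and_assoc]
  rw [h1]
  refine Set.Finite.isCompact_biUnion ?_ fun a _ => topB_isCompact_cube n k a
  refine Set.Finite.subset (Set.Finite.pi' (ι := Fin d) (t := fun _ => Set.Ico (0 : ℤ) ((n ^ k : ℕ) : ℤ))
    fun t => Set.finite_Ico _ _) ?_
  rintro a ⟨ha, -⟩ t
  exact ⟨(ha t).1, (ha t).2⟩

theorem percStep_succ_subset {n : ℕ} (hn : 1 ≤ n) (k : ℕ) (ω : Cfg d) :
    percStep n (k + 1) ω ⊆ percStep n k ω := by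
  rintro x ⟨a, ha1, ha2, hx⟩
  have hnpos : (0 : ℤ) < (n : ℤ) := by exact_mod_cast hn
  have hnR : (0 : ℝ) < (n : ℝ) := by exact_mod_cast hn
  refine ⟨anc n 1 a, ?_, ?_, ?_⟩
  · intro t
    obtain ⟨h1, h2⟩ := ha1 t
    simp only [anc, pow_one]
    refine ⟨Int.ediv_nonneg h1 hnpos.le, ?_⟩
    rw [Int.ediv_lt_iff_lt_mul hnpos]
    push_cast at h2 ⊢
    rw [pow_succ] at h2
    exact h2
  · intro i hi1 hik
    rw [anc_anc, show k - i + 1 = k + 1 - i by omega]
    exact ha2 i hi1 (by omega)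
  · intro t
    obtain ⟨h1, h2⟩ := hx t
    have hp : (0 : ℝ) < (n : ℝ) ^ k := by positivity
    have e1 := Int.emod_add_mul_ediv (a t) (n : ℤ)
    have e2 := Int.emod_nonneg (a t) hnpos.ne'
    have e3 := Int.emod_lt_of_pos (a t) hnpos
    have hq : anc n 1 a t = a t / (n : ℤ) := by simp [anc]
    rw [hq]
    generalize hQ : a t / (n : ℤ) = q at *
    generalize a t % (n : ℤ) = rr at *
    have g1 : (n : ℝ) * (q : ℝ) ≤ (a t : ℝ) := by
      have : (n : ℤ) * q ≤ a t := by linarith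
      exact_mod_cast this
    have g2 : (a t : ℝ) + 1 ≤ (n : ℝ) * ((q : ℝ) + 1) := by
      have : a t + 1 ≤ (n : ℤ) * (q + 1) := by
        have : (n : ℤ) * (q + 1) = n * q + n := by ring
        omega
      exact_mod_cast this
    rw [pow_succ] at h1 h2
    constructor
    · refine le_trans ?_ h1
      rw [div_le_div_iff₀ hp (by positivity)]
      nlinarith
    · refine le_trans h2 ?_
      rw [div_le_div_iff₀ (by positivity) hp]
      nlinarith

end gtFP
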