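import Pool.Agent.Lib.gtFP.Rec

/-! Chains of cubes. -/

open MeasureTheory ProbabilityTheory Filter Topology
open scoped NNReal ENNReal

namespace gtFP

variable {d : ℕ}

private theorem convex_cube (n k : ℕ) (a : Fin d → ℤ) : Convex ℝ (cube n k a) := by
  intro x hx y hy s t hs ht hst i
  have h1 := hx i
  have h2 := hy i
  have e : (s • x + t • y) i = s * x i + t * y i := by
    simp
  rw [e]
  constructor
  · calc (a i : ℝ) / (n : ℝ) ^ k = s * ((a i : ℝ) / (n : ℝ) ^ k) + t * ((a i : ℝ) / (n : ℝ) ^ k) := by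
          rw [← add_mul, hst, one_mul]
      _ ≤ _ := add_le_add (mul_le_mul_of_nonneg_left h1.1 hs) (mul_le_mul_of_nonneg_left h2.1 ht)
  · calc s * x i + t * y i ≤ s * (((a i : ℝ) + 1) / (n : ℝ) ^ k) + t * (((a i : ℝ) + 1) / (n : ℝ) ^ k) :=
          add_le_add (mul_le_mul_of_nonneg_left h1.2 hs) (mul_le_mul_of_nonneg_left h2.2 ht)
      _ = ((a i : ℝ) + 1) / (n : ℝ) ^ k := by rw [← add_mul, hst, one_mul]

private theorem cube_inter {n k : ℕ} {a b : Fin d → ℤ} (h : nd a b ≤ 1) :
    ∃ x, x ∈ cube n k a ∧ x ∈ cube n k b := by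
  refine ⟨WithLp.toLp 2 (fun t => ((max (a t) (b t) : ℤ) : ℝ) / (n : ℝ) ^ k), fun t => ?_,
    fun t => ?_⟩
  · have h1 := nd_le.1 h t
    have h2 : (a t : ℝ) ≤ ((max (a t) (b t) : ℤ) : ℝ) := by exact_mod_cast le_max_left _ _
    have h3 : ((max (a t) (b t) : ℤ) : ℝ) ≤ (a t : ℝ) + 1 := by
      have : max (a t) (b t) ≤ a t + 1 := by omega
      exact_mod_cast this
    exact ⟨div_le_div_of_nonneg_right h2 (by positivity),
      div_le_div_of_nonneg_right h3 (by positivity)⟩
  · have h1 := nd_le.1 h t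
    have h2 : (b t : ℝ) ≤ ((max (a t) (b t) : ℤ) : ℝ) := by exact_mod_cast le_max_right _ _
    have h3 : ((max (a t) (b t) : ℤ) : ℝ) ≤ (b t : ℝ) + 1 := by
      have : max (a t) (b t) ≤ b t + 1 := by omega
      exact_mod_cast this
    exact ⟨div_le_div_of_nonneg_right h2 (by positivity),
      div_le_div_of_nonneg_right h3 (by positivity)⟩

private theorem corner_mem (n k : ℕ) (a : Fin d → ℤ) :
    (WithLp.toLp 2 (fun t => (a t : ℝ) / (n : ℝ) ^ k) : EuclideanSpace ℝ (Fin d)) ∈ cube n k a := by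
  intro t
  refine ⟨le_refl _, ?_⟩
  exact div_le_div_of_nonneg_right (by linarith) (by positivity)

private theorem abs_coord_le_dist (x y : EuclideanSpace ℝ (Fin d)) (t : Fin d) :
    |x t - y t| ≤ dist x y := by
  rw [dist_eq_norm, ← Real.norm_eq_abs]
  exact PiLp.norm_apply_le (x - y) t

/-- The union of the closed cubes of a touching chain is preconnected: cubes are convex, and two
cubes with `nd ≤ 1` intersect; induction on `r` (`IsPreconnected.union`). -/
theorem isPreconnected_chain {n k : ℕ} (hn : 1 ≤ n) (r : ℕ) (f : ℕ → Fin d → ℤ)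
    (h : ∀ i < r, nd (f i) (f (i + 1)) ≤ 1) :
    IsPreconnected (⋃ i ∈ Finset.range (r + 1), cube n k (f i)) := by
  induction r with
  | zero =>
    have e : (⋃ i ∈ Finset.range (0 + 1), cube n k (f i)) = cube n k (f 0) := by
      simp
    rw [e]
    exact (convex_cube n k (f 0)).isPreconnected
  | succ r ih =>
    rw [Finset.range_add_one, Finset.set_biUnion_insert, Set.union_comm]
    obtain ⟨x, hx1, hx2⟩ := cube_inter (n := n) (k := k) (h r (Nat.lt_succ_self r))
    refine IsPreconnected.union x ?_ hx2 (ih fun i hi => h i (Nat.lt_succ_of_lt hi))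
      (convex_cube n k (f (r + 1))).isPreconnected
    exact Set.mem_iUnion₂.2 ⟨r, Finset.mem_range.2 (Nat.lt_succ_self r), hx1⟩

/-- If `z` is a cube of level `k` with `2 ≤ z_t < n^k - 2` for all `t`, all cubes of the levels
`1, …, k` in `[0,1]^d` are kept and `z` is bad for the depth `m`, then `F_{k+m}` contains a
preconnected set with two points at distance at least `n^{-k}`: the union of the cubes of the chain
(all cubes of the chain have their ancestors of level `k` at distance at most 2 from `z`, hence lie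
in the box, and are kept by `kept_add`); the corners of the first and the last cube have
sup-distance at least `(2 n^m) / n^(k+m)`, and the Euclidean distance is at least the
sup-distance. -/
theorem exists_connected_of_bad {n k m : ℕ} (hn : 1 ≤ n) {ω : Cfg d} {z : Fin d → ℤ}
    (hz : ∀ t, 2 ≤ z t ∧ z t + 2 < (n : ℤ) ^ k)
    (hall : ∀ i, 1 ≤ i → i ≤ k → ∀ a, InBox (n ^ i) a → ω (i, a) = true)
    (hb : Bad n m k ω z) :
    ∃ K : Set (EuclideanSpace ℝ (Fin d)), IsPreconnected K ∧ K ⊆ percStep n (k + m) ω ∧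
      ∃ x ∈ K, ∃ y ∈ K, 1 / (n : ℝ) ^ k ≤ dist x y := by
  obtain ⟨r, f, h0, hloc, hadj, hball, hfar⟩ := hb
  refine ⟨⋃ i ∈ Finset.range (r + 1), cube n (k + m) (f i),
    isPreconnected_chain hn r f hadj, ?_, ?_⟩
  · intro x hx
    obtain ⟨i, hi, hxi⟩ := Set.mem_iUnion₂.1 hx
    have hir : i ≤ r := Nat.lt_succ_iff.1 (Finset.mem_range.1 hi)
    have hA : nd z (anc n m (f i)) ≤ 2 := by
      have := nd_anc_mul hn (hball i hir)
      rwa [h0] at this
    have hB : InBox (n ^ k) (anc n m (f i)) := by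
      intro t
      have h1 := nd_le.1 hA t
      have h2 := hz t
      push_cast
      constructor <;> omega
    have hposm : (0 : ℤ) < (n : ℤ) ^ m := by positivity
    refine ⟨f i, fun t => ?_, kept_add.2 ⟨fun j hj1 hjk => ?_, hloc i hir⟩, hxi⟩
    · obtain ⟨h1, h2⟩ := hB t
      simp only [anc] at h1 h2
      push_cast at h2 ⊢
      constructor
      · by_contra hc
        push Not at hc
        have := Int.ediv_neg_of_neg_of_pos hc hposm
        omega
      · rw [Int.ediv_lt_iff_lt_mul hposm] at h2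
        rw [pow_add]
        exact h2
    · refine hall j hj1 hjk _ (inBox_anc hn ?_)
      rw [show j + (k - j) = k by omega]
      exact hB
  · have hK : 1 ≤ 2 * n ^ m := by
      have : 1 ≤ n ^ m := Nat.one_le_pow _ _ hn
      omega
    obtain ⟨t, ht⟩ := exists_of_le_nd hK hfar
    refine ⟨_, Set.mem_iUnion₂.2 ⟨0, Finset.mem_range.2 (Nat.succ_pos r), corner_mem n (k + m) (f 0)⟩,
      _, Set.mem_iUnion₂.2 ⟨r, Finset.mem_range.2 (Nat.lt_succ_self r),
        corner_mem n (k + m) (f r)⟩, ?_⟩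
    refine le_trans ?_ (abs_coord_le_dist _ _ t)
    have hn' : (0 : ℝ) < (n : ℝ) := by exact_mod_cast hn
    have hpk : (0 : ℝ) < (n : ℝ) ^ k := by positivity
    have hpm : (0 : ℝ) < (n : ℝ) ^ m := by positivity
    have hpkm : (0 : ℝ) < (n : ℝ) ^ (k + m) := by positivity
    have h1 : (2 : ℝ) * (n : ℝ) ^ m ≤ |(f 0 t : ℝ) - (f r t : ℝ)| := by
      have h2 : ((2 * n ^ m : ℕ) : ℤ) ≤ |f 0 t - f r t| := by
        have : ((2 * n ^ m : ℕ) : ℤ) ≤ ((f 0 t - f r t).natAbs : ℤ) := by exact_mod_cast ht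
        simpa using this
      have h3 : (((2 * n ^ m : ℕ) : ℤ) : ℝ) ≤ ((|f 0 t - f r t| : ℤ) : ℝ) := by exact_mod_cast h2
      push_cast at h3
      exact h3
    show 1 / (n : ℝ) ^ k ≤ |(f 0 t : ℝ) / (n : ℝ) ^ (k + m) - (f r t : ℝ) / (n : ℝ) ^ (k + m)|
    rw [← sub_div, abs_div, abs_of_pos hpkm, le_div_iff₀ hpkm, pow_add, ← mul_assoc,
      one_div, inv_mul_cancel₀ hpk.ne', one_mul]
    linarith

end gtFP
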