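import Pool.Agent.Lib.gtFP.DiscA
import Pool.Agent.Lib.gtFP.TopA
import Pool.Agent.Lib.gtFP.TopB
import Pool.Agent.Lib.gtFP.TopC

/-! If `F` is almost surely totally disconnected then `qq m → 0`. -/

open MeasureTheory ProbabilityTheory Filter Topology
open scoped NNReal ENNReal

namespace gtFP

variable {d : ℕ}

private theorem qq_one_zero (n : ℕ) : qq d n 1 0 = 0 := by
  have h1 : {ω : Cfg d | Bad n 1 0 ω 0} ⊆ ⋃ a : Fin d → ℤ, {ω : Cfg d | ω (1, a) = true} := by
    rintro ω ⟨r, f, h0, h1, -⟩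
    have h2 := h1 0 (Nat.zero_le r) 1 le_rfl le_rfl
    exact Set.mem_iUnion.2 ⟨anc n (1 - 1) (f 0), h2⟩
  refine measure_mono_null h1 (measure_iUnion_null fun a => ?_)
  have h2 : {ω : Cfg d | ω (1, a) = true} = Set.pi
      (({(1, a)} : Finset (ℕ × (Fin d → ℤ))) : Set (ℕ × (Fin d → ℤ))) (fun _ => {true}) := by
    ext ω
    simp
  rw [h2, percLaw, Measure.infinitePi_pi _ (fun _ _ => MeasurableSet.of_discrete)]
  rw [Finset.prod_singleton,
    bernoulliMeasure_apply_of_mem_of_notMem 0 MeasurableSet.of_discrete (by simp) (by simp)]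
  simp

private theorem prob_inter {n m k : ℕ} (hn : 1 ≤ n) (z : Fin d → ℤ) (p : unitInterval) :
    percLaw d p (allKept d n k ∩ {ω | Bad n m k ω z}) = percLaw d p (allKept d n k) * qq d n m p := by
  have h1 : Disjoint (Lv d 0 k) (Lv d k m) := by
    refine Set.disjoint_left.2 fun i hi hj => ?_
    have h2 : i.1 ≤ 0 + k := hi.2
    have h3 : k < i.1 := hj.1
    omega
  rw [(Indep_iff _ _ _).1 (sg_indep (p := p) h1) _ _ (allKept_meas n k) (meas_bad' hn z),
    prob_bad hn z p]

/-- Choose `k` with `n^k ≥ 5`, `z = (2, …, 2)`. On `allKept k ∩ ⋂_m {Bad n m k ω z}` the set `F` is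
not totally disconnected (`exists_connected_of_bad`, `not_totallyDisconnected_iInter` applied to
`F_{k+m}`), so the outer measure of this event is `0`. By independence
`P(allKept k ∩ Bad n m k z) = P(allKept k) qq m` (`sg_indep` for `Lv d 0 k` and `Lv d k m`,
`prob_bad`), the events decrease with `m` (`bad_succ`), continuity from above. For `p = 0` the
probability `qq m` is zero for `m ≥ 1`. -/
theorem qq_tendsto {n : ℕ} (hn : 2 ≤ n) (hd : 1 ≤ d) (p : unitInterval)
    (h : ∀ᵐ ω ∂(percLaw d p), IsTotallyDisconnected (perc n ω)) (ε : ℝ≥0∞) (hε : 0 < ε) :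
    ∃ m, qq d n m p ≤ ε := by
  have hn1 : 1 ≤ n := by omega
  rcases eq_or_lt_of_le (unitInterval.nonneg' (t := p)) with hp | hp
  · refine ⟨1, ?_⟩
    rw [← hp, qq_one_zero]
    exact zero_le
  by_contra hc
  push Not at hc
  have : IsProbabilityMeasure (percLaw d p) := by
    unfold percLaw
    infer_instance
  set z : Fin d → ℤ := fun _ => 2 with hz
  set A : ℕ → Set (Cfg d) := fun m => allKept d n 3 ∩ {ω | Bad n m 3 ω z} with hA
  have hanti : Antitone A := by
    refine antitone_nat_of_succ_le fun m ω hω => ⟨hω.1, bad_succ hn1 hω.2⟩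
  have hmeas : ∀ m, MeasurableSet (A m) := fun m =>
    (sg_le _ _ (allKept_meas n 3)).inter (sg_le _ _ (meas_bad' hn1 z))
  have hn3 : 4 < n ^ 3 := by
    calc 4 < 2 ^ 3 := by norm_num
      _ ≤ n ^ 3 := Nat.pow_le_pow_left hn 3
  have hsub : (⋂ m, A m) ⊆ {ω | ¬ IsTotallyDisconnected (perc n ω)} := by
    intro ω hω
    have h1 : ∀ m, ω ∈ A m := fun m => Set.mem_iInter.1 hω m
    have h2 : (⋂ m, percStep n (3 + m) ω) = perc n ω := by
      have hdec : Antitone fun k => percStep n k ω :=
        antitone_nat_of_succ_le fun k => percStep_succ_subset hn1 k ω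
      refine Set.Subset.antisymm (fun x hx => ?_) (fun x hx => ?_)
      · refine Set.mem_iInter.2 fun k => ?_
        exact hdec (by omega : k ≤ 3 + k) (Set.mem_iInter.1 hx k)
      · exact Set.mem_iInter.2 fun m => Set.mem_iInter.1 hx (3 + m)
    show ¬ IsTotallyDisconnected (perc n ω)
    rw [← h2]
    have hpos : (0 : ℝ) < 1 / (n : ℝ) ^ 3 := by
      have : (0 : ℝ) < n := by exact_mod_cast (by omega : 0 < n)
      positivity
    refine not_totallyDisconnected_iInter (F := fun m => percStep n (3 + m) ω)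
      (fun m => isCompact_percStep hn1 (3 + m) ω)
      (fun m => percStep_succ_subset hn1 (3 + m) ω) hpos fun m => ?_
    refine exists_connected_of_bad hn1 (z := z) (fun t => ⟨le_rfl, ?_⟩) (h1 m).1 (h1 m).2
    show (2 : ℤ) + 2 < (n : ℤ) ^ 3
    exact_mod_cast hn3
  have hnull : percLaw d p (⋂ m, A m) = 0 :=
    measure_mono_null hsub (ae_iff.1 h)
  have hlim : Tendsto (fun m => percLaw d p (A m)) atTop (𝓝 (percLaw d p (⋂ m, A m))) :=
    tendsto_measure_iInter_atTop (fun m => (hmeas m).nullMeasurableSet) hanti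
      ⟨0, measure_ne_top _ _⟩
  rw [hnull] at hlim
  have hpos : 0 < percLaw d p (allKept d n 3) * ε :=
    ENNReal.mul_pos (allKept_pos n 3 hp).ne' hε.ne'
  have hge : ∀ m, percLaw d p (allKept d n 3) * ε ≤ percLaw d p (A m) := by
    intro m
    rw [hA]
    simp only
    rw [prob_inter hn1 z p]
    exact mul_le_mul_right (hc m).le _
  have := ge_of_tendsto' hlim hge
  exact absurd hpos (not_lt.2 this)

end gtFP
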