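import Pool.Agent.Lib.gtFP.Meas

/-! Measurability of the weights. -/

open MeasureTheory ProbabilityTheory
open scoped NNReal ENNReal

namespace gtFP

variable {d : ℕ}

private theorem meas_nb {n m : ℕ} (hn : 1 ≤ n) (j : ℕ) (Q : Fin d → ℤ) :
    MeasurableSet[sg (Lv d (m * j) m)] {ω : Cfg d | Nb n m j ω Q} := by
  have h1 : {ω : Cfg d | Nb n m j ω Q} =
      ⋃ z ∈ {z : Fin d → ℤ | nd Q z ≤ 3}, {ω : Cfg d | Bad n m (m * j) ω z} := by
    ext ω
    simp only [Nb, Set.mem_ofPred_eq, Set.mem_iUnion, exists_prop]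
  rw [h1]
  exact @MeasurableSet.biUnion _ _ (sg (Lv d (m * j) m)) _ _ (Set.to_countable _)
    fun z _ => meas_bad' hn z

private theorem meas_wt {n m : ℕ} (hn : 1 ≤ n) (j : ℕ) (δ : ℝ≥0) (Q : Fin d → ℤ) :
    @Measurable _ _ (sg (Lv d 0 (m * (j + 1)))) _ (fun ω : Cfg d => wt n m j δ ω Q) := by
  classical
  have hsub : Lv d (m * j) m ⊆ Lv d 0 (m * (j + 1)) := by
    rintro i ⟨h1, h2⟩
    exact ⟨by omega, by rw [Nat.mul_add, mul_one]; omega⟩
  have h := sg_mono hsub _ (meas_nb hn j Q)
  exact Measurable.ite h measurable_const measurable_const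

private theorem meas_fin_sup (m0 : MeasurableSpace (Cfg d)) (s : Finset (Fin d → ℤ))
    (f : (Fin d → ℤ) → Cfg d → ℝ≥0) (h : ∀ c, @Measurable _ _ m0 _ (f c)) :
    @Measurable _ _ m0 _ (fun ω => s.sup fun c => f c ω) := by
  classical
  induction s using Finset.induction_on with
  | empty =>
    simp only [Finset.sup_empty]
    exact @measurable_const _ _ _ m0 _
  | insert a s ha ih =>
    simp only [Finset.sup_insert]
    exact Measurable.sup (h a) ih

/-- By induction on `j`: `LL (j+1) a` is a finite supremum over `c ∈ boxF d (n^(m*(j+1)))` of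
`(if Kept c then wt * LL j * const else 0)`; `wt` is measurable because `Nb` is a countable union of
events `Bad` (levels in `(m*j, m*j+m]`). -/
theorem meas_LL {n m M : ℕ} (hn : 1 ≤ n) {δ : ℝ≥0} (j : ℕ) (a : Fin d → ℤ) :
    @Measurable _ _ (sg (Lv d 0 (m * j))) _ (fun ω : Cfg d => LL n m M δ ω j a) := by
  classical
  induction j generalizing a with
  | zero => exact @measurable_const _ _ _ (sg (Lv d 0 (m * 0))) _
  | succ j ih =>
    have hsub : Lv d 0 (m * j) ⊆ Lv d 0 (m * (j + 1)) := by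
      rintro i ⟨h1, h2⟩
      exact ⟨h1, by rw [Nat.mul_add, mul_one]; omega⟩
    have h1 : (fun ω : Cfg d => LL n m M δ ω (j + 1) a) = fun ω =>
        (boxF d (n ^ (m * (j + 1)))).sup fun c => if Kept n (m * (j + 1)) ω c then
          wt n m j δ ω (anc n m c) * LL n m M δ ω j (anc n m c) * ((1 + (nd a c : ℝ≥0)) ^ M)⁻¹
          else 0 := by
      funext ω
      show ((Rf n m (j + 1) ω).sup fun c =>
        wt n m j δ ω (anc n m c) * LL n m M δ ω j (anc n m c) * ((1 + (nd a c : ℝ≥0)) ^ M)⁻¹) = _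
      refine le_antisymm (Finset.sup_le fun c hc => ?_) (Finset.sup_le fun c hc => ?_)
      · have hc' := mem_Rf.1 hc
        have h2 := Finset.le_sup (f := fun c => if Kept n (m * (j + 1)) ω c then
          wt n m j δ ω (anc n m c) * LL n m M δ ω j (anc n m c) * ((1 + (nd a c : ℝ≥0)) ^ M)⁻¹
          else 0) (mem_boxF.2 hc'.1)
        simp only [if_pos hc'.2] at h2
        exact h2
      · by_cases hk : Kept n (m * (j + 1)) ω c
        · rw [if_pos hk]
          exact Finset.le_sup (f := fun c =>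
            wt n m j δ ω (anc n m c) * LL n m M δ ω j (anc n m c) * ((1 + (nd a c : ℝ≥0)) ^ M)⁻¹)
            (mem_Rf.2 ⟨mem_boxF.1 hc, hk⟩)
        · rw [if_neg hk]
          exact bot_le
    rw [h1]
    refine meas_fin_sup (sg (Lv d 0 (m * (j + 1)))) _ _ fun c => ?_
    refine Measurable.ite (meas_kept c) ?_ measurable_const
    have h2 : @Measurable _ _ (sg (Lv d 0 (m * (j + 1)))) _
        (fun ω : Cfg d => LL n m M δ ω j (anc n m c)) :=
      (ih (anc n m c)).mono (sg_mono hsub) le_rfl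
    exact ((meas_wt hn j δ (anc n m c)).mul h2).mul_const _

/-- measurability of the sums `YY` -/
theorem meas_YY {n m M : ℕ} (hn : 1 ≤ n) {δ : ℝ≥0} {t : ℝ} (j : ℕ) :
    Measurable (fun ω : Cfg d => YY n m M δ t j ω) := by
  classical
  have h1 : (fun ω : Cfg d => YY n m M δ t j ω) = fun ω =>
      ∑ c ∈ boxF d (n ^ (m * j)), if Kept n (m * j) ω c then (LL n m M δ ω j c : ℝ≥0∞) ^ t
        else 0 := by
    funext ω
    simp only [YY, Rf]
    rw [Finset.sum_filter]
  rw [h1]
  refine Finset.measurable_sum _ fun c _ => ?_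
  refine Measurable.ite (sg_le _ _ (meas_kept c)) ?_ measurable_const
  have h2 : Measurable (fun ω : Cfg d => LL n m M δ ω j c) :=
    (meas_LL hn j c).mono (sg_le _) le_rfl
  exact (h2.coe_nnreal_ennreal).pow_const t

end gtFP
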