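import Pool.Agent.Lib.gtFP.Meas

/-! Invariance of the law under re-indexing: the probability that a cube is bad. -/

open MeasureTheory ProbabilityTheory
open scoped NNReal ENNReal

namespace gtFP

variable {d : ℕ}

/-- Re-indexing: the configuration seen from the cube `z` of level `k`. -/
def shiftCfg (n k : ℕ) (z : Fin d → ℤ) (ω : Cfg d) : Cfg d :=
  fun i => ω (k + i.1, fun t => (n : ℤ) ^ i.1 * z t + i.2 t)

/-- `Measure.map_infinitePi_infinitePi_of_inj` for the injection
`(i, a) ↦ (k + i, n^i z + a)`. -/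
theorem map_shiftCfg (n k : ℕ) (z : Fin d → ℤ) (p : unitInterval) :
    (percLaw d p).map (shiftCfg n k z) = percLaw d p := by
  have hinj : Function.Injective (fun i : ℕ × (Fin d → ℤ) =>
      ((k + i.1, fun t => (n : ℤ) ^ i.1 * z t + i.2 t) : ℕ × (Fin d → ℤ))) := by
    rintro ⟨i, a⟩ ⟨j, b⟩ h
    simp only [Prod.mk.injEq, Nat.add_left_cancel_iff] at h
    obtain ⟨h1, h2⟩ := h
    subst h1
    have h3 : a = b := by
      funext t
      have := congrFun h2 t
      linarith
    rw [h3]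
  exact Measure.map_infinitePi_infinitePi_of_inj
    (P := fun _ : ℕ × (Fin d → ℤ) => ProbabilityTheory.bernoulliMeasure true false p) hinj

private theorem loc_shift {n m k : ℕ} (hn : 1 ≤ n) (z : Fin d → ℤ) (ω : Cfg d) (a : Fin d → ℤ) :
    Loc n m k ω (fun t => (n : ℤ) ^ m * z t + a t) ↔ Loc n m 0 (shiftCfg n k z ω) a := by
  unfold Loc
  refine forall_congr' fun i => forall_congr' fun h1 => forall_congr' fun h2 => ?_
  have e : anc n (m - i) (fun t => (n : ℤ) ^ m * z t + a t) =
      fun t => (n : ℤ) ^ i * z t + anc n (m - i) a t := by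
    have h := anc_add_mul (n := n) (s := m - i) hn a (fun t => (n : ℤ) ^ i * z t)
    rw [← h]
    congr 1
    funext t
    have : (n : ℤ) ^ m = (n : ℤ) ^ (m - i) * (n : ℤ) ^ i := by
      rw [← pow_add, Nat.sub_add_cancel h2]
    rw [this]
    ring
  rw [e]
  simp [shiftCfg]

private theorem nd_shift (w a b : Fin d → ℤ) :
    nd (fun t => w t + a t) (fun t => w t + b t) = nd a b := by
  unfold nd
  congr 1
  funext t
  congr 1
  ring

/-- A chain `f` for `z` at level `k` corresponds to the chain `f - n^m z` for `0` at level `0`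
(`anc_add_mul`; `nd` is translation invariant). -/
theorem bad_shift {n m k : ℕ} (hn : 1 ≤ n) (z : Fin d → ℤ) (ω : Cfg d) :
    Bad n m k ω z ↔ Bad n m 0 (shiftCfg n k z ω) 0 := by
  have key : ∀ (f : ℕ → Fin d → ℤ) (r : ℕ),
      (anc n m (fun t => (n : ℤ) ^ m * z t + f 0 t) = z ∧
        (∀ i ≤ r, Loc n m k ω (fun t => (n : ℤ) ^ m * z t + f i t)) ∧
        (∀ i < r, nd (fun t => (n : ℤ) ^ m * z t + f i t)
          (fun t => (n : ℤ) ^ m * z t + f (i + 1) t) ≤ 1) ∧
        (∀ i ≤ r, nd (fun t => (n : ℤ) ^ m * z t + f 0 t)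
          (fun t => (n : ℤ) ^ m * z t + f i t) ≤ 2 * n ^ m) ∧
        2 * n ^ m ≤ nd (fun t => (n : ℤ) ^ m * z t + f 0 t)
          (fun t => (n : ℤ) ^ m * z t + f r t)) ↔
      (anc n m (f 0) = 0 ∧ (∀ i ≤ r, Loc n m 0 (shiftCfg n k z ω) (f i)) ∧
        (∀ i < r, nd (f i) (f (i + 1)) ≤ 1) ∧ (∀ i ≤ r, nd (f 0) (f i) ≤ 2 * n ^ m) ∧
        2 * n ^ m ≤ nd (f 0) (f r)) := by
    intro f r
    simp only [nd_shift (fun t => (n : ℤ) ^ m * z t), loc_shift hn, anc_add_mul hn]
    refine and_congr ?_ Iff.rfl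
    constructor
    · intro h
      funext t
      have := congrFun h t
      simp only [Pi.zero_apply]
      linarith
    · intro h
      rw [h]
      funext t
      simp
  constructor
  · rintro ⟨r, f, h⟩
    refine ⟨r, fun i t => f i t - (n : ℤ) ^ m * z t, ?_⟩
    have h2 := (key (fun i t => f i t - (n : ℤ) ^ m * z t) r).1
    simp only [add_sub_cancel] at h2
    exact h2 h
  · rintro ⟨r, f, h⟩
    exact ⟨r, fun i t => (n : ℤ) ^ m * z t + f i t, (key f r).2 h⟩

theorem prob_bad {n m k : ℕ} (hn : 1 ≤ n) (z : Fin d → ℤ) (p : unitInterval) :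
    percLaw d p {ω | Bad n m k ω z} = qq d n m p := by
  have hmeas : Measurable (shiftCfg (d := d) n k z) :=
    measurable_pi_lambda _ fun i => measurable_pi_apply _
  have h1 : {ω | Bad n m k ω z} = shiftCfg n k z ⁻¹' {ω | Bad n m 0 ω 0} := by
    ext ω
    exact bad_shift hn z ω
  rw [h1, ← Measure.map_apply hmeas (sg_le _ _ (meas_bad hn 0)), map_shiftCfg]
  rfl

end gtFP
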