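import Pool.Agent.Lib.gtFP.SumB
import Pool.Agent.Lib.gtFP.Shift
import Pool.Agent.Lib.gtFP.MeasB

/-! The expectation of the sums `YY` decays geometrically. -/

open MeasureTheory ProbabilityTheory
open scoped NNReal ENNReal

namespace gtFP

variable {d : ℕ}

/-- Independence of the past and the event that a cube is bad. -/
private theorem lint_past_bad {n m : ℕ} (hn : 1 ≤ n)
    (p : unitInterval) (j : ℕ) (z : Fin d → ℤ) (f : Cfg d → ℝ≥0∞)
    (hf : @Measurable _ _ (sg (Lv d 0 (m * j))) _ f) :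
    ∫⁻ ω, f ω * (open Classical in if Bad n m (m * j) ω z then (1 : ℝ≥0∞) else 0) ∂(percLaw d p) =
      (∫⁻ ω, f ω ∂(percLaw d p)) * qq d n m p := by
  classical
  have hdis : Disjoint (Lv d 0 (m * j)) (Lv d (m * j) m) := by
    rw [Set.disjoint_left]
    rintro i ⟨_, h2⟩ ⟨h3, _⟩
    omega
  have hind : Indep (sg (Lv d 0 (m * j))) (sg (Lv d (m * j) m)) (percLaw d p) := sg_indep hdis
  have hg : @Measurable _ _ (sg (Lv d (m * j) m)) _
      (fun ω : Cfg d => if Bad n m (m * j) ω z then (1 : ℝ≥0∞) else 0) :=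
    Measurable.ite (meas_bad' hn z) measurable_const measurable_const
  have h := lintegral_mul_eq_lintegral_mul_lintegral_of_independent_measurableSpace
    (sg_le _) (sg_le _) hind hf hg
  have h2 : ∫⁻ ω, (if Bad n m (m * j) ω z then (1 : ℝ≥0∞) else 0) ∂(percLaw d p) = qq d n m p := by
    rw [← prob_bad (n := n) (m := m) (k := m * j) hn z p]
    have h3 : (fun ω : Cfg d => if Bad n m (m * j) ω z then (1 : ℝ≥0∞) else 0) =
        Set.indicator {ω | Bad n m (m * j) ω z} 1 := by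
      funext ω
      simp [Set.indicator_apply]
    rw [h3, lintegral_indicator_one (sg_le _ _ (meas_bad' hn z))]
  rw [← h2, ← h]

/-- Take expectations in `YY_succ_le'`: the function
`ω ↦ if Kept n (m*j) ω Q then LL j Q ^ t else 0` is measurable with respect to `sg (Lv d 0 (m*j))`,
the event `{Bad n m (m*j) ω z}` belongs to `sg (Lv d (m*j) m)`, the two σ-algebras are independent
(`sg_indep`; the two sets of coordinates are disjoint), so that
`lintegral_mul_indicator_eq_lintegral_mul_lintegral_indicator` (or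
`lintegral_mul_eq_lintegral_mul_lintegral_of_independent_measurableSpace`) applies;
`prob_bad`, `card_nbF`. Finally `∑_{Q ∈ boxF} (if Kept ..) = YY j` pointwise. -/
theorem lintegral_YY_succ {n m M : ℕ} (hn : 1 ≤ n) {δ : ℝ≥0} {t : ℝ} (ht : 0 < t)
    (p : unitInterval) (j : ℕ) :
    ∫⁻ ω, YY n m M δ t (j + 1) ω ∂(percLaw d p) ≤
      (CC d M t * (((n ^ m) ^ d : ℕ) * ((δ : ℝ≥0∞) ^ t + (7 ^ d : ℕ) * qq d n m p))) *
        ∫⁻ ω, YY n m M δ t j ω ∂(percLaw d p) := by
  classical
  set μ := percLaw d p with hμ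
  have hfm : ∀ Q : Fin d → ℤ, @Measurable _ _ (sg (Lv d 0 (m * j))) _
      (fun ω : Cfg d => if Kept n (m * j) ω Q then (LL n m M δ ω j Q : ℝ≥0∞) ^ t else 0) := by
    intro Q
    refine Measurable.ite (meas_kept Q) ?_ measurable_const
    exact (measurable_coe_nnreal_ennreal.comp (meas_LL hn j Q)).pow_const t
  have hfm' : ∀ Q : Fin d → ℤ, Measurable
      (fun ω : Cfg d => if Kept n (m * j) ω Q then (LL n m M δ ω j Q : ℝ≥0∞) ^ t else 0) :=
    fun Q => (hfm Q).mono (sg_le _) le_rfl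
  have hbm : ∀ z : Fin d → ℤ, Measurable
      (fun ω : Cfg d => if Bad n m (m * j) ω z then (1 : ℝ≥0∞) else 0) := fun z =>
    Measurable.ite (sg_le _ _ (meas_bad' hn z)) measurable_const measurable_const
  have hYY : ∀ ω : Cfg d, YY n m M δ t j ω = ∑ Q ∈ boxF d (n ^ (m * j)),
      (if Kept n (m * j) ω Q then (LL n m M δ ω j Q : ℝ≥0∞) ^ t else 0) := by
    intro ω
    simp only [YY, Rf]
    rw [Finset.sum_filter]
  calc ∫⁻ ω, YY n m M δ t (j + 1) ω ∂μ
      ≤ ∫⁻ ω, CC d M t * (((n ^ m) ^ d : ℕ) *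
          ∑ Q ∈ boxF d (n ^ (m * j)),
            (if Kept n (m * j) ω Q then (LL n m M δ ω j Q : ℝ≥0∞) ^ t else 0) *
            ((δ : ℝ≥0∞) ^ t + ∑ z ∈ nbF Q, if Bad n m (m * j) ω z then 1 else 0)) ∂μ :=
        lintegral_mono fun ω => YY_succ_le' hn ht j ω
    _ ≤ CC d M t * (((n ^ m) ^ d : ℕ) * ∑ Q ∈ boxF d (n ^ (m * j)),
          ∫⁻ ω, (if Kept n (m * j) ω Q then (LL n m M δ ω j Q : ℝ≥0∞) ^ t else 0) *
            ((δ : ℝ≥0∞) ^ t + ∑ z ∈ nbF Q, if Bad n m (m * j) ω z then 1 else 0) ∂μ) := by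
        have hm1 : ∀ Q : Fin d → ℤ, Measurable (fun ω : Cfg d =>
            (if Kept n (m * j) ω Q then (LL n m M δ ω j Q : ℝ≥0∞) ^ t else 0) *
            ((δ : ℝ≥0∞) ^ t + ∑ z ∈ nbF Q, if Bad n m (m * j) ω z then 1 else 0)) := fun Q =>
          (hfm' Q).mul (measurable_const.add (Finset.measurable_fun_sum _ fun z _ => hbm z))
        have hm2 : Measurable (fun ω : Cfg d => ∑ Q ∈ boxF d (n ^ (m * j)),
            (if Kept n (m * j) ω Q then (LL n m M δ ω j Q : ℝ≥0∞) ^ t else 0) *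
            ((δ : ℝ≥0∞) ^ t + ∑ z ∈ nbF Q, if Bad n m (m * j) ω z then 1 else 0)) :=
          Finset.measurable_fun_sum _ fun Q _ => hm1 Q
        rw [lintegral_const_mul _ (hm2.const_mul _), lintegral_const_mul _ hm2,
          lintegral_finsetSum _ fun Q _ => hm1 Q]
    _ = CC d M t * (((n ^ m) ^ d : ℕ) * ∑ Q ∈ boxF d (n ^ (m * j)),
          (∫⁻ ω, (if Kept n (m * j) ω Q then (LL n m M δ ω j Q : ℝ≥0∞) ^ t else 0) ∂μ) *
            ((δ : ℝ≥0∞) ^ t + (7 ^ d : ℕ) * qq d n m p)) := by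
        congr 2
        refine Finset.sum_congr rfl fun Q _ => ?_
        simp_rw [mul_add, Finset.mul_sum]
        have hsum : ∫⁻ ω, ∑ z ∈ nbF Q,
            (if Kept n (m * j) ω Q then (LL n m M δ ω j Q : ℝ≥0∞) ^ t else 0) *
              (if Bad n m (m * j) ω z then (1 : ℝ≥0∞) else 0) ∂μ =
            ∑ z ∈ nbF Q, ∫⁻ ω,
            (if Kept n (m * j) ω Q then (LL n m M δ ω j Q : ℝ≥0∞) ^ t else 0) *
              (if Bad n m (m * j) ω z then (1 : ℝ≥0∞) else 0) ∂μ :=
          lintegral_finsetSum _ fun z _ => (hfm' Q).mul (hbm z)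
        rw [lintegral_add_left ((hfm' Q).mul_const _), lintegral_mul_const _ (hfm' Q), hsum]
        congr 1
        rw [Finset.sum_congr rfl fun z _ => lint_past_bad hn p j z _ (hfm Q)]
        rw [Finset.sum_const, card_nbF, nsmul_eq_mul]
        ring
    _ = _ := by
        rw [← Finset.sum_mul]
        simp_rw [hYY]
        rw [lintegral_finsetSum _ fun Q _ => hfm' Q]
        ring

/-- `YY 0 = 1` pointwise (only the cube `0`, `LL 0 = 1`), so the expectations are at most `κ^j` and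
the expectation of the sum is finite; `ae_lt_top`, `lintegral_tsum`. -/
theorem ae_tsum_YY_lt_top {n m M : ℕ} (hn : 1 ≤ n) {δ : ℝ≥0} {t : ℝ} (ht : 0 < t)
    (p : unitInterval)
    (hκ : CC d M t * (((n ^ m) ^ d : ℕ) * ((δ : ℝ≥0∞) ^ t + (7 ^ d : ℕ) * qq d n m p)) < 1) :
    ∀ᵐ ω ∂(percLaw d p), ∑' j, YY n m M δ t j ω < ⊤ := by
  classical
  set κ := CC d M t * (((n ^ m) ^ d : ℕ) * ((δ : ℝ≥0∞) ^ t + (7 ^ d : ℕ) * qq d n m p)) with hκd
  have h0 : ∫⁻ ω, YY n m M δ t 0 ω ∂(percLaw d p) ≤ 1 := by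
    have hp : IsProbabilityMeasure (percLaw d p) := by unfold percLaw; infer_instance
    calc ∫⁻ ω, YY n m M δ t 0 ω ∂(percLaw d p) ≤ ∫⁻ _, 1 ∂(percLaw d p) := by
          refine lintegral_mono fun ω => ?_
          simp only [YY]
          calc ∑ c ∈ Rf n m 0 ω, (LL n m M δ ω 0 c : ℝ≥0∞) ^ t
              = ∑ c ∈ Rf n m 0 ω, 1 := by
                refine Finset.sum_congr rfl fun c _ => ?_
                simp [LL]
            _ ≤ ∑ c ∈ ({0} : Finset (Fin d → ℤ)), (1 : ℝ≥0∞) := by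
                refine Finset.sum_le_sum_of_subset fun c hc => ?_
                rw [mem_Rf] at hc
                rw [Finset.mem_singleton]
                funext t
                have := hc.1 t
                simp only [mul_zero, pow_zero, Nat.cast_one] at this
                simp only [Pi.zero_apply]
                omega
            _ = 1 := by simp
      _ = 1 := by simp
  have h1 : ∀ j, ∫⁻ ω, YY n m M δ t j ω ∂(percLaw d p) ≤ κ ^ j := by
    intro j
    induction j with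
    | zero => simpa using h0
    | succ j ih =>
      refine (lintegral_YY_succ hn ht p j).trans ?_
      rw [pow_succ, mul_comm]
      exact mul_le_mul' ih le_rfl
  have h2 : ∫⁻ ω, ∑' j, YY n m M δ t j ω ∂(percLaw d p) < ⊤ := by
    rw [lintegral_tsum fun j => (meas_YY hn j).aemeasurable]
    refine (ENNReal.tsum_le_tsum h1).trans_lt ?_
    rw [ENNReal.tsum_geometric]
    exact ENNReal.inv_lt_top.2 (tsub_pos_of_lt hκ)
  exact ae_lt_top (Measurable.ennreal_tsum fun j => meas_YY hn j) h2.ne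

end gtFP
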