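import Pool.Agent.Lib.gtFP.LLb

/-! The sum condition. -/

open MeasureTheory ProbabilityTheory Filter Topology
open scoped NNReal ENNReal

namespace gtFP

variable {d : ℕ}

/-- the cubes at index distance at most 1 from `c` -/
private noncomputable def finA_nb (c : Fin d → ℤ) : Finset (Fin d → ℤ) :=
  Fintype.piFinset fun t => Finset.Icc (c t - 1) (c t + 1)

private theorem finA_mem_nb {Q c : Fin d → ℤ} : Q ∈ finA_nb c ↔ nd Q c ≤ 1 := by
  simp only [finA_nb, Fintype.mem_piFinset, Finset.mem_Icc, nd_le]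
  refine forall_congr' fun t => ?_
  omega

private theorem finA_card_nb (c : Fin d → ℤ) : (finA_nb c).card = 3 ^ d := by
  simp only [finA_nb, Fintype.card_piFinset, Int.card_Icc]
  rw [Finset.prod_congr rfl fun t _ => show (c t + 1 + 1 - (c t - 1)).toNat = 3 by
    rw [show c t + 1 + 1 - (c t - 1) = 3 by ring]; rfl]
  simp

private theorem finA_sum_biUnion_le {α β : Type*} [DecidableEq β] (s : Finset α) (g : α → Finset β)
    (f : β → ℝ≥0) : ∑ Q ∈ s.biUnion g, f Q ≤ ∑ c ∈ s, ∑ Q ∈ g c, f Q := by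
  classical
  induction s using Finset.induction_on with
  | empty => simp
  | insert a s ha ih =>
    rw [Finset.biUnion_insert, Finset.sum_insert ha]
    have h1 : ∑ Q ∈ g a ∪ s.biUnion g, f Q ≤ ∑ Q ∈ g a, f Q + ∑ Q ∈ s.biUnion g, f Q := by
      rw [← Finset.sum_union_inter]
      exact le_self_add
    exact h1.trans (by gcongr)

/-- The sum condition of `exists_cover` for `T j =` the cubes at index distance at most 1 from a kept
cube of block level `j`: for such `Q` near `c`, `LL j Q ^ t ≤ (2^M)^t LL j c ^ t` (`LL_har`), and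
there are `3^d` such `Q` for each `c`; so the sum over `T j` is at most `3^d 2^(M t) YY j`. -/
theorem exists_sum_bound {n m M : ℕ} {δ : ℝ≥0} {t : ℝ} (ht : 0 < t) {ω : Cfg d}
    (h : ∑' j, YY n m M δ t j ω < ⊤) :
    ∃ (T : ℕ → Finset (Fin d → ℤ)) (S : ℝ),
      (∀ j Q, (∃ c ∈ Rf n m j ω, nd Q c ≤ 1) → Q ∈ T j) ∧
      ∀ J, ∑ j ∈ Finset.range J, ∑ Q ∈ T j, (LL n m M δ ω j Q : ℝ) ^ t ≤ S := by
  classical
  let y : ℕ → ℝ≥0 := fun j => ∑ c ∈ Rf n m j ω, (LL n m M δ ω j c) ^ t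
  have hY : ∀ j, YY n m M δ t j ω = (y j : ℝ≥0∞) := by
    intro j
    simp only [YY, y]
    rw [ENNReal.ofNNReal_finsetSum]
    refine Finset.sum_congr rfl fun c _ => ?_
    exact (ENNReal.coe_rpow_of_nonneg _ ht.le).symm
  let K : ℝ≥0 := (3 : ℝ≥0) ^ d * ((2 : ℝ≥0) ^ M) ^ t
  refine ⟨fun j => (Rf n m j ω).biUnion finA_nb, (K * (∑' j, YY n m M δ t j ω).toNNReal : ℝ≥0),
    fun j Q hQ => ?_, fun J => ?_⟩
  · obtain ⟨c, hc, hQc⟩ := hQ
    exact Finset.mem_biUnion.2 ⟨c, hc, finA_mem_nb.2 hQc⟩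
  have h1 : ∀ j, ∑ Q ∈ (Rf n m j ω).biUnion finA_nb, (LL n m M δ ω j Q) ^ t ≤ K * y j := by
    intro j
    calc ∑ Q ∈ (Rf n m j ω).biUnion finA_nb, (LL n m M δ ω j Q) ^ t
        ≤ ∑ c ∈ Rf n m j ω, ∑ Q ∈ finA_nb c, (LL n m M δ ω j Q) ^ t :=
          finA_sum_biUnion_le _ _ _
      _ ≤ ∑ c ∈ Rf n m j ω, (3 : ℝ≥0) ^ d * (((2 : ℝ≥0) ^ M) ^ t * (LL n m M δ ω j c) ^ t) := by
          refine Finset.sum_le_sum fun c _ => ?_
          have h2 : ∀ Q ∈ finA_nb c, (LL n m M δ ω j Q) ^ t ≤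
              ((2 : ℝ≥0) ^ M) ^ t * (LL n m M δ ω j c) ^ t := by
            intro Q hQ
            rw [← NNReal.mul_rpow]
            refine NNReal.rpow_le_rpow ?_ ht.le
            refine (LL_har j Q c).trans (mul_le_mul_left ?_ _)
            refine pow_le_pow_left₀ bot_le ?_ M
            have h3 : (nd Q c : ℝ≥0) ≤ 1 := by exact_mod_cast finA_mem_nb.1 hQ
            calc (1 : ℝ≥0) + (nd Q c : ℝ≥0) ≤ 1 + 1 := by gcongr
              _ = 2 := by norm_num
          refine (Finset.sum_le_card_nsmul _ _ _ h2).trans (le_of_eq ?_)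
          rw [finA_card_nb, nsmul_eq_mul]
          push_cast
          ring
      _ = K * y j := by
          simp only [K, y, Finset.mul_sum]
          refine Finset.sum_congr rfl fun c _ => ?_
          ring
  have h4 : ∑ j ∈ Finset.range J, y j ≤ (∑' j, YY n m M δ t j ω).toNNReal := by
    rw [← ENNReal.coe_le_coe, ENNReal.coe_toNNReal h.ne, ENNReal.ofNNReal_finsetSum]
    calc ∑ j ∈ Finset.range J, (y j : ℝ≥0∞) = ∑ j ∈ Finset.range J, YY n m M δ t j ω :=
          Finset.sum_congr rfl fun j _ => (hY j).symm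
      _ ≤ _ := ENNReal.sum_le_tsum _
  have h5 : ∑ j ∈ Finset.range J, ∑ Q ∈ (Rf n m j ω).biUnion finA_nb, (LL n m M δ ω j Q) ^ t ≤
      K * (∑' j, YY n m M δ t j ω).toNNReal := by
    calc ∑ j ∈ Finset.range J, ∑ Q ∈ (Rf n m j ω).biUnion finA_nb, (LL n m M δ ω j Q) ^ t
        ≤ ∑ j ∈ Finset.range J, K * y j := Finset.sum_le_sum fun j _ => h1 j
      _ = K * ∑ j ∈ Finset.range J, y j := (Finset.mul_sum _ _ _).symm
      _ ≤ _ := by gcongr
  have h6 := NNReal.coe_le_coe.2 h5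
  push_cast at h6 ⊢
  exact h6

end gtFP
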