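import Pool.Agent.Lib.gtFP.Rec

/-! Basic properties of the weights `LL`. -/

open scoped NNReal ENNReal

namespace gtFP

variable {d : ℕ}

/-- (P3) Lower bound by any term of the supremum (`Finset.le_sup`). -/
theorem LL_low {n m M j : ℕ} {δ : ℝ≥0} {ω : Cfg d} {a c : Fin d → ℤ} (hc : c ∈ Rf n m (j + 1) ω) :
    wt n m j δ ω (anc n m c) * LL n m M δ ω j (anc n m c) * ((1 + (nd a c : ℝ≥0)) ^ M)⁻¹ ≤
      LL n m M δ ω (j + 1) a :=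
  Finset.le_sup (f := fun c => wt n m j δ ω (anc n m c) * LL n m M δ ω j (anc n m c) *
    ((1 + (nd a c : ℝ≥0)) ^ M)⁻¹) hc

private theorem inv_har {a b c : Fin d → ℤ} {M : ℕ} :
    ((1 + (nd a c : ℝ≥0)) ^ M)⁻¹ ≤ (1 + (nd a b : ℝ≥0)) ^ M * ((1 + (nd b c : ℝ≥0)) ^ M)⁻¹ := by
  have h1 : (1 + (nd b c : ℝ≥0)) ≤ (1 + (nd a b : ℝ≥0)) * (1 + (nd a c : ℝ≥0)) := by
    have h2 := nd_tri b a c
    rw [nd_comm b a] at h2
    have h3 : (nd b c : ℝ≥0) ≤ (nd a b : ℝ≥0) + (nd a c : ℝ≥0) := by exact_mod_cast h2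
    calc (1 + (nd b c : ℝ≥0)) ≤ 1 + ((nd a b : ℝ≥0) + (nd a c : ℝ≥0)) := by gcongr
      _ ≤ 1 + ((nd a b : ℝ≥0) + (nd a c : ℝ≥0)) + (nd a b : ℝ≥0) * (nd a c : ℝ≥0) :=
          le_self_add
      _ = _ := by ring
  have h2 : (1 + (nd b c : ℝ≥0)) ^ M ≤ (1 + (nd a b : ℝ≥0)) ^ M * (1 + (nd a c : ℝ≥0)) ^ M := by
    rw [← mul_pow]
    exact pow_le_pow_left₀ bot_le h1 M
  have hx : (1 + (nd a c : ℝ≥0)) ^ M ≠ 0 := by positivity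
  have hz : (1 + (nd b c : ℝ≥0)) ^ M ≠ 0 := by positivity
  calc ((1 + (nd a c : ℝ≥0)) ^ M)⁻¹ =
        (1 + (nd b c : ℝ≥0)) ^ M * (((1 + (nd b c : ℝ≥0)) ^ M)⁻¹ * ((1 + (nd a c : ℝ≥0)) ^ M)⁻¹) := by
          rw [← mul_assoc, mul_inv_cancel₀ hz, one_mul]
    _ ≤ ((1 + (nd a b : ℝ≥0)) ^ M * (1 + (nd a c : ℝ≥0)) ^ M) *
        (((1 + (nd b c : ℝ≥0)) ^ M)⁻¹ * ((1 + (nd a c : ℝ≥0)) ^ M)⁻¹) := by gcongr
    _ = (1 + (nd a b : ℝ≥0)) ^ M * ((1 + (nd b c : ℝ≥0)) ^ M)⁻¹ *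
        ((1 + (nd a c : ℝ≥0)) ^ M * ((1 + (nd a c : ℝ≥0)) ^ M)⁻¹) := by ring
    _ = _ := by rw [mul_inv_cancel₀ hx, mul_one]

/-- (P1) Polynomial Harnack inequality. For `j = 0` trivial. For `j + 1`: every term of the supremum
for `a` is at most `(1 + nd a b)^M` times the corresponding term for `b`, since
`1 + nd b c ≤ (1 + nd a b) (1 + nd a c)` (`nd_tri`, `nd_comm`). -/
theorem LL_har {n m M : ℕ} {δ : ℝ≥0} {ω : Cfg d} (j : ℕ) (a b : Fin d → ℤ) :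
    LL n m M δ ω j a ≤ (1 + (nd a b : ℝ≥0)) ^ M * LL n m M δ ω j b := by
  cases j with
  | zero =>
    show (1 : ℝ≥0) ≤ (1 + (nd a b : ℝ≥0)) ^ M * 1
    rw [mul_one]
    exact one_le_pow₀ le_self_add
  | succ j =>
    show ((Rf n m (j + 1) ω).sup fun c =>
      wt n m j δ ω (anc n m c) * LL n m M δ ω j (anc n m c) * ((1 + (nd a c : ℝ≥0)) ^ M)⁻¹) ≤ _
    refine Finset.sup_le fun c hc => ?_
    calc wt n m j δ ω (anc n m c) * LL n m M δ ω j (anc n m c) * ((1 + (nd a c : ℝ≥0)) ^ M)⁻¹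
        ≤ wt n m j δ ω (anc n m c) * LL n m M δ ω j (anc n m c) *
          ((1 + (nd a b : ℝ≥0)) ^ M * ((1 + (nd b c : ℝ≥0)) ^ M)⁻¹) :=
          mul_le_mul_right inv_har _
      _ = (1 + (nd a b : ℝ≥0)) ^ M * (wt n m j δ ω (anc n m c) * LL n m M δ ω j (anc n m c) *
          ((1 + (nd b c : ℝ≥0)) ^ M)⁻¹) := by ring
      _ ≤ _ := mul_le_mul_right (LL_low hc) _

private theorem wt_le {n m j : ℕ} {δ : ℝ≥0} (hδ : δ ≤ 1 / 2) {ω : Cfg d} {Q : Fin d → ℤ} :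
    wt n m j δ ω Q ≤ 1 / 2 := by
  unfold wt
  split_ifs
  · exact le_rfl
  · exact hδ

/-- (P2) The term of `c` in the supremum for `a` is
`wt(..) * LL j (anc c) * (1 + nd a c)^{-M} ≤ 1/2 * (1 + nd (anc c) (anc a))^M * LL j (anc a) *
(1 + nd a c)^{-M} ≤ 1/2 * LL j (anc a)` by `LL_har` and `nd_anc_le`; `wt ≤ 1/2`. -/
theorem LL_dec {n m M : ℕ} (hn : 1 ≤ n) {δ : ℝ≥0} (hδ : δ ≤ 1 / 2) {ω : Cfg d} (j : ℕ)
    (a : Fin d → ℤ) :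
    LL n m M δ ω (j + 1) a ≤ 1 / 2 * LL n m M δ ω j (anc n m a) := by
  show ((Rf n m (j + 1) ω).sup fun c =>
    wt n m j δ ω (anc n m c) * LL n m M δ ω j (anc n m c) * ((1 + (nd a c : ℝ≥0)) ^ M)⁻¹) ≤ _
  refine Finset.sup_le fun c hc => ?_
  have h1 : (nd (anc n m c) (anc n m a) : ℝ≥0) ≤ (nd a c : ℝ≥0) := by
    have := nd_anc_le (s := m) hn c a
    rw [nd_comm c a] at this
    exact_mod_cast this
  have h2 : (1 + (nd (anc n m c) (anc n m a) : ℝ≥0)) ^ M ≤ (1 + (nd a c : ℝ≥0)) ^ M := by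
    gcongr
  have h3 : LL n m M δ ω j (anc n m c) ≤ (1 + (nd a c : ℝ≥0)) ^ M * LL n m M δ ω j (anc n m a) :=
    (LL_har j _ _).trans (by gcongr)
  have hx : (1 + (nd a c : ℝ≥0)) ^ M ≠ 0 := by positivity
  calc wt n m j δ ω (anc n m c) * LL n m M δ ω j (anc n m c) * ((1 + (nd a c : ℝ≥0)) ^ M)⁻¹
      ≤ 1 / 2 * ((1 + (nd a c : ℝ≥0)) ^ M * LL n m M δ ω j (anc n m a)) *
        ((1 + (nd a c : ℝ≥0)) ^ M)⁻¹ := by
          refine mul_le_mul_left ?_ _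
          exact mul_le_mul' (wt_le hδ) h3
    _ = 1 / 2 * LL n m M δ ω j (anc n m a) *
        ((1 + (nd a c : ℝ≥0)) ^ M * ((1 + (nd a c : ℝ≥0)) ^ M)⁻¹) := by ring
    _ = _ := by rw [mul_inv_cancel₀ hx, mul_one]

theorem LL_le_one {n m M : ℕ} (hn : 1 ≤ n) {δ : ℝ≥0} (hδ : δ ≤ 1 / 2) {ω : Cfg d} (j : ℕ)
    (a : Fin d → ℤ) : LL n m M δ ω j a ≤ 1 := by
  induction j generalizing a with
  | zero => exact le_rfl
  | succ j ih =>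
    calc LL n m M δ ω (j + 1) a ≤ 1 / 2 * LL n m M δ ω j (anc n m a) := LL_dec hn hδ j a
      _ ≤ 1 * 1 := mul_le_mul' (by rw [one_div]; exact inv_le_one_of_one_le₀ one_le_two) (ih _)
      _ = 1 := mul_one _

theorem le_wt {n m j : ℕ} {δ : ℝ≥0} (hδ : δ ≤ 1 / 2) {ω : Cfg d} {Q : Fin d → ℤ} :
    δ ≤ wt n m j δ ω Q := by
  unfold wt
  split_ifs
  · exact hδ
  · exact le_rfl

/-- Positivity: by induction on `j` from `LL_low` with a kept cube `c`. -/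
theorem LL_pos {n m M : ℕ} {δ : ℝ≥0} (hδ0 : 0 < δ) (hδ : δ ≤ 1 / 2) {ω : Cfg d}
    (hne : ∀ j, (Rf n m j ω).Nonempty) (j : ℕ) (a : Fin d → ℤ) : 0 < LL n m M δ ω j a := by
  induction j generalizing a with
  | zero => exact one_pos
  | succ j ih =>
    obtain ⟨c, hc⟩ := hne (j + 1)
    refine lt_of_lt_of_le ?_ (LL_low (a := a) hc)
    have h1 : 0 < wt n m j δ ω (anc n m c) := lt_of_lt_of_le hδ0 (le_wt hδ)
    have h2 := ih (anc n m c)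
    have h3 : 0 < ((1 + (nd a c : ℝ≥0)) ^ M)⁻¹ := by positivity
    exact mul_pos (mul_pos h1 h2) h3

end gtFP
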