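import Pool.Agent.Lib.gtFP.LamP
import Pool.Agent.Lib.gtFP.LLb

/-! The lower bound of the weights. -/

open MeasureTheory ProbabilityTheory Filter Topology
open scoped NNReal ENNReal

namespace gtFP

variable {d : ℕ}

/-- Lower bound `δ 4^{-M} Λ_j(x) ≤ Λ_{j+1}(x)` for `x ∈ F`: kept cube `c ∋ x` of block level `j+1`,
`LL_low`, `le_wt`, `nd (fl x) c ≤ 1`, `LL_har` for `fl n (m*j) x = anc n m (fl x)` and
`anc n m c` (distance at most 1). -/
theorem low_perc {n m M : ℕ} (hn : 1 ≤ n) {δ : ℝ≥0} (hδ : δ ≤ 1 / 2) {ω : Cfg d} (j : ℕ)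
    {x : EuclideanSpace ℝ (Fin d)} (hx : x ∈ perc n ω) :
    (δ : ℝ) / 4 ^ M * LamP n m M δ ω j x ≤ LamP n m M δ ω (j + 1) x := by
  obtain ⟨c, hc, hxc⟩ := exists_Rf (n := n) (m := m) (j := j + 1) hx
  have hmj : m * (j + 1) = m * j + m := by ring
  have hnd1 : nd (fl n (m * (j + 1)) x) c ≤ 1 := nd_fl_cube hn hxc
  have hnd2 : nd (fl n (m * j) x) (anc n m c) ≤ 1 := by
    rw [← anc_fl (m := m) hn x, ← hmj]
    exact (nd_anc_le hn _ _).trans hnd1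
  have hlow := LL_low (M := M) (δ := δ) (a := fl n (m * (j + 1)) x) hc
  have hhar := LL_har (M := M) (δ := δ) (ω := ω) (n := n) (m := m) j (fl n (m * j) x)
    (anc n m c)
  have hw : δ ≤ wt n m j δ ω (anc n m c) := le_wt hδ
  unfold LamP
  generalize LL n m M δ ω (j + 1) (fl n (m * (j + 1)) x) = A at hlow ⊢
  generalize LL n m M δ ω j (fl n (m * j) x) = B at hhar ⊢
  generalize LL n m M δ ω j (anc n m c) = L at hlow hhar
  generalize wt n m j δ ω (anc n m c) = W at hlow hw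
  have hL : (0 : ℝ) ≤ (L : ℝ) := L.2
  have hδ0 : (0 : ℝ) ≤ (δ : ℝ) := δ.2
  have hWr : (δ : ℝ) ≤ (W : ℝ) := by exact_mod_cast hw
  have hB : (B : ℝ) ≤ 2 ^ M * (L : ℝ) := by
    have h7 : (B : ℝ) ≤ (1 + (nd (fl n (m * j) x) (anc n m c) : ℝ)) ^ M * (L : ℝ) := by
      exact_mod_cast hhar
    refine h7.trans (mul_le_mul_of_nonneg_right ?_ hL)
    refine pow_le_pow_left₀ (by positivity) ?_ _
    have : (nd (fl n (m * j) x) (anc n m c) : ℝ) ≤ 1 := by exact_mod_cast hnd2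
    linarith
  have hA : (δ : ℝ) * (L : ℝ) * ((2 : ℝ) ^ M)⁻¹ ≤ (A : ℝ) := by
    have h8 : (W : ℝ) * (L : ℝ) * ((1 + (nd (fl n (m * (j + 1)) x) c : ℝ)) ^ M)⁻¹ ≤ (A : ℝ) := by
      exact_mod_cast hlow
    refine le_trans ?_ h8
    refine mul_le_mul (mul_le_mul_of_nonneg_right hWr hL) ?_ (by positivity)
      (mul_nonneg (hδ0.trans hWr) hL)
    refine inv_anti₀ (by positivity) ?_
    refine pow_le_pow_left₀ (by positivity) ?_ _
    have : (nd (fl n (m * (j + 1)) x) c : ℝ) ≤ 1 := by exact_mod_cast hnd1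
    linarith
  have h4 : (4 : ℝ) ^ M = 2 ^ M * 2 ^ M := by
    rw [← mul_pow]
    norm_num
  calc (δ : ℝ) / 4 ^ M * (B : ℝ) ≤ (δ : ℝ) / 4 ^ M * (2 ^ M * (L : ℝ)) := by gcongr
    _ = (δ : ℝ) * (L : ℝ) * ((2 : ℝ) ^ M)⁻¹ := by
        rw [h4]
        field_simp
    _ ≤ (A : ℝ) := hA

end gtFP
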