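import Mathlib

/-! The abstract metric construction, part 1: chains. -/

open scoped NNReal ENNReal

namespace gtFP

/-- A system of weights `Λ k x` on a space `X` with an auxiliary distance `s ≤ 1`. -/
structure LamSys {X : Type} (s : X → X → ℝ) (N : ℕ) (Λ : ℕ → X → ℝ) (δ H : ℝ) : Prop where
  hN : 4 ≤ N
  s_self : ∀ x, s x x = 0
  s_symm : ∀ x y, s x y = s y x
  s_tri : ∀ x y z, s x z ≤ s x y + s y z
  s_pos : ∀ x y, x ≠ y → 0 < s x y
  s_le : ∀ x y, s x y ≤ 1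
  pos : ∀ k x, 0 < Λ k x
  zero : ∀ x, Λ 0 x ≤ 1
  dec : ∀ k x, Λ (k + 1) x ≤ 1 / 2 * Λ k x
  low : ∀ k x, δ * Λ k x ≤ Λ (k + 1) x
  δpos : 0 < δ
  H1 : 1 ≤ H
  har : ∀ k x y, s x y ≤ 3 / (N : ℝ) ^ k → Λ k x ≤ H * Λ k y
  cross : ∀ (j : ℕ) (f : ℕ → X) (r : ℕ),
    (∀ i < r, s (f i) (f (i + 1)) < 1 / (N : ℝ) ^ (j + 1)) →
    (∀ i < r, s (f 0) (f i) < 3 / (N : ℝ) ^ j) → 3 / (N : ℝ) ^ j ≤ s (f 0) (f r) →
    ∀ i < r, 2 * Λ j (f 0) ≤ N * Λ (j + 1) (f i)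

variable {X : Type} {s : X → X → ℝ} {N : ℕ} {Λ : ℕ → X → ℝ} {δ H : ℝ}

open Classical in
/-- The scale of a pair: the least `k` with `N^{-(k+1)} < s x y` (and `0` if there is none). -/
noncomputable def kk (s : X → X → ℝ) (N : ℕ) (x y : X) : ℕ :=
  if h : ∃ k : ℕ, 1 / (N : ℝ) ^ (k + 1) < s x y then Nat.find h else 0

open Classical in
/-- The quasi-distance `Λ_k(x) + Λ_k(y)`, `k = kk x y`. -/
noncomputable def qd (s : X → X → ℝ) (N : ℕ) (Λ : ℕ → X → ℝ) (x y : X) : ℝ :=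
  if x = y then 0 else Λ (kk s N x y) x + Λ (kk s N x y) y

theorem LamSys.exists_kk (h : LamSys s N Λ δ H) {x y : X} (hxy : x ≠ y) :
    ∃ k : ℕ, 1 / (N : ℝ) ^ (k + 1) < s x y := by
  have hN : (4 : ℝ) ≤ N := by exact_mod_cast h.hN
  have hN0 : (0 : ℝ) < N := by linarith
  have h1 : (1 / (N : ℝ)) < 1 := by
    rw [div_lt_one hN0]; linarith
  have h0 : (0 : ℝ) ≤ 1 / (N : ℝ) := by positivity
  obtain ⟨k, hk⟩ := exists_pow_lt_of_lt_one (h.s_pos x y hxy) h1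
  refine ⟨k, lt_of_le_of_lt ?_ hk⟩
  rw [← one_div_pow]
  exact pow_le_pow_of_le_one h0 h1.le (Nat.le_succ k)

/-- `N^{-(k+1)} < s x y ≤ N^{-k}` for `k = kk x y`, `x ≠ y`. -/
theorem LamSys.kk_lt (h : LamSys s N Λ δ H) {x y : X} (hxy : x ≠ y) :
    1 / (N : ℝ) ^ (kk s N x y + 1) < s x y := by
  classical
  have he := h.exists_kk hxy
  unfold kk
  rw [dif_pos he]
  exact Nat.find_spec he

theorem LamSys.kk_le (h : LamSys s N Λ δ H) {x y : X} (hxy : x ≠ y) :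
    s x y ≤ 1 / (N : ℝ) ^ (kk s N x y) := by
  classical
  have he := h.exists_kk hxy
  unfold kk
  rw [dif_pos he]
  rcases Nat.eq_zero_or_pos (Nat.find he) with h0 | h0
  · rw [h0]
    simpa using h.s_le x y
  · have h1 := Nat.find_min he (m := Nat.find he - 1) (by omega)
    rw [not_lt, Nat.sub_add_cancel h0] at h1
    exact h1

theorem LamSys.kk_le_of (h : LamSys s N Λ δ H) {x y : X} {k : ℕ}
    (hk : 1 / (N : ℝ) ^ (k + 1) < s x y) : kk s N x y ≤ k := by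
  classical
  have he : ∃ k : ℕ, 1 / (N : ℝ) ^ (k + 1) < s x y := ⟨k, hk⟩
  unfold kk
  rw [dif_pos he]
  exact Nat.find_min' he hk

theorem LamSys.qd_nonneg (h : LamSys s N Λ δ H) (x y : X) : 0 ≤ qd s N Λ x y := by
  unfold qd
  split_ifs
  · exact le_refl _
  · exact add_nonneg (h.pos _ _).le (h.pos _ _).le

theorem LamSys.qd_symm (h : LamSys s N Λ δ H) (x y : X) : qd s N Λ x y = qd s N Λ y x := by
  have hk : kk s N x y = kk s N y x := by
    by_cases hxy : x = y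
    · rw [hxy]
    · refine le_antisymm (h.kk_le_of ?_) (h.kk_le_of ?_)
      · rw [h.s_symm x y]; exact h.kk_lt (Ne.symm hxy)
      · rw [h.s_symm y x]; exact h.kk_lt hxy
  unfold qd
  by_cases hxy : x = y
  · rw [if_pos hxy, if_pos hxy.symm]
  · rw [if_neg hxy, if_neg (Ne.symm hxy), hk, add_comm]

/-- `Λ` is decreasing in `k`. -/
theorem LamSys.anti (h : LamSys s N Λ δ H) (x : X) {k l : ℕ} (hkl : k ≤ l) : Λ l x ≤ Λ k x := by
  refine antitone_nat_of_succ_le (f := fun k => Λ k x) (fun k => ?_) hkl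
  have h1 := h.dec k x
  have h2 := h.pos k x
  show Λ (k + 1) x ≤ Λ k x
  linarith

/-- A jump of size at least `N^{-(j+1)}` from `x` costs at least `Λ_{j+1}(x)`; a jump larger than
`N^{-(j+1)}` costs at least `Λ_j(x)`. -/
theorem LamSys.jump (h : LamSys s N Λ δ H) {x y : X} {j : ℕ} (hxy : x ≠ y)
    (hj : 1 / (N : ℝ) ^ (j + 1) < s x y) : Λ j x ≤ qd s N Λ x y := by
  have h1 := h.kk_le_of hj
  have h2 := h.anti x h1
  have h3 := h.pos (kk s N x y) y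
  unfold qd
  rw [if_neg hxy]
  linarith

end gtFP
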