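import Pool.Agent.Lib.gtFP.GeoD
import Pool.Agent.Lib.gtFP.GeoE
import Pool.Agent.Lib.gtFP.MetA

/-! The weights form a `LamSys`. -/

open MeasureTheory ProbabilityTheory Filter Topology
open scoped NNReal ENNReal

namespace gtFP

variable {d : ℕ}

/-- All together: the weights form a `LamSys` on `F` with `N = n^m`, `δ' = δ / 4^M`, `H = 4^M`
(`nd_fl_le` with `K = 3` gives `1 + nd ≤ 4`). -/
theorem lamSys_perc {n m M : ℕ} (hn : 1 ≤ n) {δ : ℝ≥0} (hδ0 : 0 < δ) (hδ : δ ≤ 1 / 2)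
    {ω : Cfg d} (hN : 4 * 10 ^ M ≤ n ^ m) :
    LamSys (X := perc n ω) (fun x y => sd x.1 y.1) (n ^ m) (fun j x => LamP n m M δ ω j x.1)
      ((δ : ℝ) / 4 ^ M) (4 ^ M) := by
  have h10 : 1 ≤ 10 ^ M := Nat.one_le_pow _ _ (by norm_num)
  have hfl : ∀ (k : ℕ) (x : EuclideanSpace ℝ (Fin d)),
      anc n m (fl n (m * (k + 1)) x) = fl n (m * k) x := by
    intro k x
    rw [show m * (k + 1) = m * k + m by ring]
    exact anc_fl hn x
  have hne : ∀ x : perc n ω, ∀ j, (Rf n m j ω).Nonempty := by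
    intro x j
    obtain ⟨c, hc, _⟩ := exists_Rf (n := n) (m := m) (j := j) (ω := ω) x.2
    exact ⟨c, hc⟩
  refine
    { hN := by omega
      s_self := fun x => sd_self _
      s_symm := fun x y => sd_comm _ _
      s_tri := fun x y z => sd_tri _ _ _
      s_pos := fun x y hxy => sd_pos fun h => hxy (Subtype.ext h)
      s_le := ?_
      pos := ?_
      zero := ?_
      dec := ?_
      low := fun k x => low_perc hn hδ k x.2
      δpos := div_pos (by exact_mod_cast hδ0) (by positivity)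
      H1 := one_le_pow₀ (by norm_num)
      har := ?_
      cross := ?_ }
  · intro x y
    refine (sd_le_iff zero_le_one).2 fun t => ?_
    obtain ⟨h1, h2⟩ := perc_mem x.2 t
    obtain ⟨h3, h4⟩ := perc_mem y.2 t
    rw [abs_le]
    constructor <;> linarith
  · intro k x
    show (0 : ℝ) < ((LL n m M δ ω k (fl n (m * k) x.1) : ℝ≥0) : ℝ)
    exact_mod_cast LL_pos hδ0 hδ (hne x) k _
  · intro x
    show ((LL n m M δ ω 0 (fl n (m * 0) x.1) : ℝ≥0) : ℝ) ≤ 1
    exact_mod_cast LL_le_one hn hδ 0 _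
  · intro k x
    show ((LL n m M δ ω (k + 1) (fl n (m * (k + 1)) x.1) : ℝ≥0) : ℝ) ≤
      1 / 2 * ((LL n m M δ ω k (fl n (m * k) x.1) : ℝ≥0) : ℝ)
    have h := LL_dec (M := M) hn hδ (ω := ω) (m := m) k (fl n (m * (k + 1)) x.1)
    rw [hfl k x.1] at h
    have h' : ((LL n m M δ ω (k + 1) (fl n (m * (k + 1)) x.1) : ℝ≥0) : ℝ) ≤
      ((1 / 2 * LL n m M δ ω k (fl n (m * k) x.1) : ℝ≥0) : ℝ) := NNReal.coe_le_coe.2 h
    simpa using h'
  · intro k x y hxy
    show ((LL n m M δ ω k (fl n (m * k) x.1) : ℝ≥0) : ℝ) ≤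
      4 ^ M * ((LL n m M δ ω k (fl n (m * k) y.1) : ℝ≥0) : ℝ)
    have hn0 : (0 : ℝ) < (n : ℝ) ^ (m * k) := by
      have : (0 : ℝ) < (n : ℝ) := by exact_mod_cast hn
      positivity
    have hnd : nd (fl n (m * k) x.1) (fl n (m * k) y.1) ≤ 3 := by
      apply nd_fl_le
      have h1 : sd x.1 y.1 ≤ 3 / (n : ℝ) ^ (m * k) := by
        have : (((n ^ m : ℕ) : ℝ)) ^ k = (n : ℝ) ^ (m * k) := by
          push_cast
          rw [pow_mul]
        rw [← this]
        exact hxy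
      rw [le_div_iff₀ hn0] at h1
      push_cast
      linarith
    have h := LL_har (M := M) (δ := δ) (ω := ω) (n := n) (m := m) k (fl n (m * k) x.1)
      (fl n (m * k) y.1)
    have h2 : (1 + (nd (fl n (m * k) x.1) (fl n (m * k) y.1) : ℝ≥0)) ^ M ≤ 4 ^ M := by
      apply pow_le_pow_left₀ (zero_le)
      have : ((nd (fl n (m * k) x.1) (fl n (m * k) y.1) : ℕ) : ℝ≥0) ≤ ((3 : ℕ) : ℝ≥0) := by
        exact_mod_cast hnd
      calc 1 + (nd (fl n (m * k) x.1) (fl n (m * k) y.1) : ℝ≥0) ≤ 1 + ((3 : ℕ) : ℝ≥0) := by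
            gcongr
        _ = 4 := by norm_num
    have h3 : LL n m M δ ω k (fl n (m * k) x.1) ≤ 4 ^ M * LL n m M δ ω k (fl n (m * k) y.1) :=
      h.trans (mul_le_mul_left h2 _)
    have h4 := NNReal.coe_le_coe.2 h3
    simpa using h4
  · intro j f r h1 h2 h3
    exact cross_perc hn hN j (fun i => (f i).1) r (fun i _ => (f i).2) h1 h2 h3

end gtFP
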