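import Mathlib

/-! Power homeomorphisms of `[0,∞)`. -/

open scoped NNReal ENNReal

namespace gtFP

/-- `t ↦ C (t^α + t^β)` is a homeomorphism of `[0,∞)` (strictly monotone, continuous, onto;
`StrictMono.orderIsoOfSurjective`, `OrderIso.toHomeomorph`). -/
theorem exists_homeo {C α β : ℝ} (hC : 0 < C) (hα : 0 < α) (hβ : 0 < β) :
    ∃ η : ℝ≥0 ≃ₜ ℝ≥0, ∀ t : ℝ≥0, (η t : ℝ) = C * ((t : ℝ) ^ α + (t : ℝ) ^ β) := by
  obtain ⟨c, rfl⟩ : ∃ c : ℝ≥0, (c : ℝ) = C := ⟨⟨C, hC.le⟩, rfl⟩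
  have hc : 0 < c := by exact_mod_cast hC
  set f : ℝ≥0 → ℝ≥0 := fun t => c * (t ^ α + t ^ β) with hf
  have hmono : StrictMono f := by
    intro s t hst
    exact mul_lt_mul_of_pos_left
      (add_lt_add (NNReal.rpow_lt_rpow hst hα) (NNReal.rpow_lt_rpow hst hβ)) hc
  have hcont : Continuous f :=
    continuous_const.mul ((NNReal.continuous_rpow_const hα.le).add
      (NNReal.continuous_rpow_const hβ.le))
  have hsurj : Function.Surjective f := by
    intro y
    refine mem_range_of_exists_le_of_exists_ge hcont ⟨0, ?_⟩ ⟨(y / c) ^ (1 / α), ?_⟩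
    · simp [hf, NNReal.zero_rpow hα.ne', NNReal.zero_rpow hβ.ne']
    · calc y = c * (y / c) := by rw [mul_div_cancel₀ _ hc.ne']
        _ = c * ((y / c) ^ (1 / α)) ^ α := by
            rw [← NNReal.rpow_mul, one_div_mul_cancel hα.ne', NNReal.rpow_one]
        _ ≤ f ((y / c) ^ (1 / α)) := by
            show c * ((y / c) ^ (1 / α)) ^ α ≤
              c * (((y / c) ^ (1 / α)) ^ α + ((y / c) ^ (1 / α)) ^ β)
            exact mul_le_mul_right (le_add_of_nonneg_right zero_le) c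
  refine ⟨(hmono.orderIsoOfSurjective f hsurj).toHomeomorph, fun t => ?_⟩
  show ((f t : ℝ≥0) : ℝ) = _
  simp [hf]

end gtFP
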