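import Pool.Agent.Lib.gtFP.FinA
import Pool.Agent.Lib.gtFP.GeoF
import Pool.Agent.Lib.gtFP.MetE
import Pool.Agent.Lib.gtFP.Cov
import Pool.Agent.Lib.gtFP.DimB
import Pool.Agent.Lib.gtFP.DimH
import Pool.Agent.Lib.gtFP.TopB

/-! Both conformal dimensions from the sums. -/

open MeasureTheory ProbabilityTheory Filter Topology
open scoped NNReal ENNReal

namespace gtFP

variable {d : ℕ}

/-- `F` is compact. (`isCompact_percStep`, closed subset of `F_0`.) -/
theorem isCompact_perc {n : ℕ} (hn : 1 ≤ n) (ω : Cfg d) : IsCompact (perc n ω) :=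
  (isCompact_percStep hn 0 ω).of_isClosed_subset
    (isClosed_iInter fun k => (isCompact_percStep hn k ω).isClosed) (Set.iInter_subset _ 0)

/-- If the sum of the `YY` is finite then both conformal dimensions are at most `t`: `lamSys_perc`,
`LamSys.exists_QS` (with `sd_le_dist`, `dist_le_sd`), `LamSys.exists_cover` (with
`φ j x = fl n (m*j) x.1`, `exists_sum_bound`, `exists_Rf`, `nd_fl_cube`, `sd_of_fl_eq`,
`(n^m)^j = n^(m*j)`), `upperBoxDim_le`, `dimH_le`. -/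
theorem confDim_le_of_sum {n m M : ℕ} (hn : 1 ≤ n) {δ : ℝ≥0} (hδ0 : 0 < δ) (hδ : δ ≤ 1 / 2)
    {t : ℝ} (ht : 0 < t) {ω : Cfg d} (hN : 4 * 10 ^ M ≤ n ^ m)
    (h : ∑' j, YY n m M δ t j ω < ⊤) :
    confDimB (perc n ω) ≤ ENNReal.ofReal t ∧ confDimH (perc n ω) ≤ ENNReal.ofReal t := by
  classical
  haveI hcomp : CompactSpace (perc n ω) := isCompact_iff_compactSpace.1 (isCompact_perc hn ω)
  have hL := lamSys_perc (M := M) hn hδ0 hδ (ω := ω) hN
  obtain ⟨mY, hQS, hdist⟩ := hL.exists_QS (Real.sqrt d) (fun x y => sd_le_dist x.1 y.1)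
    (fun x y => dist_le_sd x.1 y.1)
  obtain ⟨T, S, hT, hS⟩ := exists_sum_bound ht h
  obtain ⟨C, hC, hcov⟩ := hL.exists_cover (V := Fin d → ℤ) (fun j x => fl n (m * j) x.1)
    (fun j Q => (LL n m M δ ω j Q : ℝ)) (fun k x => rfl) (fun k Q => NNReal.coe_nonneg _)
    (by
      intro k x y hxy
      have h1 := sd_of_fl_eq (k := m * k) hn hxy
      have h2 : (((n ^ m : ℕ) : ℝ)) ^ k = (n : ℝ) ^ (m * k) := by
        rw [Nat.cast_pow, ← pow_mul]
      rw [h2]
      exact h1)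
    T
    (by
      intro k x
      obtain ⟨c, hc, hxc⟩ := exists_Rf (m := m) (j := k) x.2
      exact hT k _ ⟨c, hc, nd_fl_cube hn hxc⟩)
    ht hS
  have hcov' : ∀ r : ℝ, 0 < r → r < 1 → ∃ A : Finset (Cpy (perc n ω)),
      (A.card : ℝ) ≤ C * r ^ (-t) ∧ ∀ y, ∃ x ∈ A, dist y x ≤ r := by
    intro r hr hr1
    obtain ⟨A, hA, hA2⟩ := hcov r hr hr1
    refine ⟨A.map (cpyEquiv (perc n ω)).toEmbedding, ?_, ?_⟩
    · rw [Finset.card_map]
      exact hA
    · rintro ⟨y⟩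
      obtain ⟨x, hx, hxy⟩ := hA2 y
      exact ⟨Cpy.mk x, Finset.mem_map_of_mem _ hx, (hdist y x).trans hxy⟩
  constructor
  · exact (iInf_le_of_le (Cpy (perc n ω)) (iInf_le_of_le mY (iInf_le_of_le hQS le_rfl))).trans
      (upperBoxDim_le ht hC hcov')
  · exact (iInf_le_of_le (Cpy (perc n ω)) (iInf_le_of_le mY (iInf_le_of_le hQS le_rfl))).trans
      (dimH_le ht hC hcov')

end gtFP
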