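import Pool.Agent.Lib.gtFP.FinB
import Pool.Agent.Lib.gtFP.Expc

/-! Choice of the parameters. -/

open MeasureTheory ProbabilityTheory Filter Topology
open scoped NNReal ENNReal

namespace gtFP

variable {d : ℕ}

private theorem finc_first {K d u : ℕ} {t : ℝ} (hK : 1 ≤ K) (hu : 2 * (d : ℝ) ≤ u * t) :
    ((K ^ d : ℕ) : ℝ≥0∞) * (((((K : ℝ≥0) ^ u)⁻¹ : ℝ≥0) : ℝ≥0∞) ^ t) ≤ ((K ^ d : ℕ) : ℝ≥0∞)⁻¹ := by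
  have hK0 : (K : ℝ≥0) ≠ 0 := by
    have : K ≠ 0 := by omega
    exact_mod_cast this
  have h1 : ((((K : ℝ≥0) ^ u)⁻¹ : ℝ≥0) : ℝ≥0∞) = ((K : ℝ≥0∞) ^ (u : ℝ))⁻¹ := by
    rw [ENNReal.coe_inv (pow_ne_zero _ hK0), ENNReal.rpow_natCast]
    push_cast
    rfl
  have hK1 : (1 : ℝ≥0∞) ≤ (K : ℝ≥0∞) := by exact_mod_cast hK
  have hKt : (K : ℝ≥0∞) ≠ ⊤ := ENNReal.natCast_ne_top K
  have hKz : (K : ℝ≥0∞) ≠ 0 := (lt_of_lt_of_le one_pos hK1).ne'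
  have h2 : (((((K : ℝ≥0) ^ u)⁻¹ : ℝ≥0) : ℝ≥0∞) ^ t) ≤
      (((K ^ d : ℕ) : ℝ≥0∞) * ((K ^ d : ℕ) : ℝ≥0∞))⁻¹ := by
    rw [h1, ENNReal.inv_rpow, ← ENNReal.rpow_mul]
    refine ENNReal.inv_le_inv.2 ?_
    have h3 : ((K ^ d : ℕ) : ℝ≥0∞) * ((K ^ d : ℕ) : ℝ≥0∞) = (K : ℝ≥0∞) ^ (2 * (d : ℝ)) := by
      have h4 : (2 * (d : ℝ)) = ((d + d : ℕ) : ℝ) := by push_cast; ring
      rw [h4, ENNReal.rpow_natCast, pow_add]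
      push_cast
      rfl
    rw [h3]
    exact ENNReal.rpow_le_rpow_of_exponent_le hK1 hu
  have hz : ((K ^ d : ℕ) : ℝ≥0∞) ≠ 0 := by
    push_cast
    exact pow_ne_zero _ hKz
  have ht : ((K ^ d : ℕ) : ℝ≥0∞) ≠ ⊤ := ENNReal.natCast_ne_top _
  calc ((K ^ d : ℕ) : ℝ≥0∞) * (((((K : ℝ≥0) ^ u)⁻¹ : ℝ≥0) : ℝ≥0∞) ^ t)
      ≤ ((K ^ d : ℕ) : ℝ≥0∞) * (((K ^ d : ℕ) : ℝ≥0∞) * ((K ^ d : ℕ) : ℝ≥0∞))⁻¹ :=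
        mul_le_mul_right h2 _
    _ = ((K ^ d : ℕ) : ℝ≥0∞)⁻¹ := by
        rw [ENNReal.mul_inv (Or.inl hz) (Or.inl ht), ← mul_assoc, ENNReal.mul_inv_cancel hz ht,
          one_mul]

/-- Choice of the parameters. Given `t > 0` choose `M` with `M t ≥ d + 2`, `u` with `u t ≥ 2 d`,
`N = n^m` with `m` large, `δ = N^{-u}` (so `(N^d) δ^t ≤ N^{-d}`), and `(N^d) 7^d qq m` small
(hypothesis), so that the constant of `ae_tsum_YY_lt_top` is less than one (`CC_lt_top`). -/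
theorem ae_confDim_le {n : ℕ} (hn : 2 ≤ n) (hd : 1 ≤ d) (p : unitInterval)
    (hq : ∀ ε : ℝ≥0∞, 0 < ε → ∀ m₁, ∃ m, m₁ ≤ m ∧ (((n ^ m) ^ d : ℕ) : ℝ≥0∞) * qq d n m p ≤ ε)
    {t : ℝ} (ht : 0 < t) :
    ∀ᵐ ω ∂(percLaw d p),
      confDimB (perc n ω) ≤ ENNReal.ofReal t ∧ confDimH (perc n ω) ≤ ENNReal.ofReal t := by
  obtain ⟨M, hM⟩ := exists_nat_ge (((d : ℝ) + 2) / t)
  have hM' : (d : ℝ) + 2 ≤ M * t := by rwa [div_le_iff₀ ht] at hM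
  have hC : CC d M t < ⊤ := CC_lt_top ht hM'
  obtain ⟨u₀, hu₀⟩ := exists_nat_ge (2 * (d : ℝ) / t)
  have hu : 2 * (d : ℝ) ≤ ((u₀ + 1 : ℕ) : ℝ) * t := by
    rw [div_le_iff₀ ht] at hu₀
    push_cast
    nlinarith
  obtain ⟨c₀, hc₀⟩ := ENNReal.exists_nat_gt hC.ne
  have hc₁ : (0 : ℝ≥0∞) < c₀ := lt_of_le_of_lt zero_le hc₀
  have hct : (c₀ : ℝ≥0∞) ≠ ⊤ := ENNReal.natCast_ne_top _
  have h7t : ((7 ^ d : ℕ) : ℝ≥0∞) ≠ ⊤ := ENNReal.natCast_ne_top _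
  have h7z : ((7 ^ d : ℕ) : ℝ≥0∞) ≠ 0 := by
    have : (7 ^ d : ℕ) ≠ 0 := by positivity
    exact_mod_cast this
  have hden : (2 * ((c₀ : ℝ≥0∞) * ((7 ^ d : ℕ) : ℝ≥0∞))) ≠ ⊤ :=
    ENNReal.mul_ne_top (by norm_num) (ENNReal.mul_ne_top hct h7t)
  obtain ⟨m, hm, hmq⟩ := hq (2 * ((c₀ : ℝ≥0∞) * ((7 ^ d : ℕ) : ℝ≥0∞)))⁻¹
    (ENNReal.inv_pos.2 hden) (4 * 10 ^ M + 2 * c₀ + 2)
  have hK : m < n ^ m := lt_of_lt_of_le Nat.lt_two_pow_self (Nat.pow_le_pow_left hn m)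
  have hKd : n ^ m ≤ (n ^ m) ^ d := Nat.le_self_pow (by omega) _
  have hKu : n ^ m ≤ (n ^ m) ^ (u₀ + 1) := Nat.le_self_pow (by omega) _
  have hδ0 : (0 : ℝ≥0) < (((n ^ m : ℕ) : ℝ≥0) ^ (u₀ + 1))⁻¹ := by
    have h0 : (0 : ℝ≥0) < ((n ^ m : ℕ) : ℝ≥0) := by
      have : 0 < n ^ m := by omega
      exact_mod_cast this
    positivity
  have hδ : (((n ^ m : ℕ) : ℝ≥0) ^ (u₀ + 1))⁻¹ ≤ 1 / 2 := by
    rw [one_div]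
    refine inv_anti₀ (by norm_num) ?_
    have : 2 ≤ (n ^ m) ^ (u₀ + 1) := by omega
    exact_mod_cast this
  have hA : CC d M t * ((((n ^ m) ^ d : ℕ) : ℝ≥0∞) *
      (((((((n ^ m : ℕ) : ℝ≥0)) ^ (u₀ + 1))⁻¹ : ℝ≥0) : ℝ≥0∞) ^ t)) < 2⁻¹ := by
    refine lt_of_le_of_lt (mul_le_mul_right (finc_first (by omega) hu) _) ?_
    rw [← div_eq_mul_inv]
    refine ENNReal.div_lt_of_lt_mul (lt_of_lt_of_le hc₀ ?_)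
    have h1 : ((2 * c₀ : ℕ) : ℝ≥0∞) ≤ (((n ^ m) ^ d : ℕ) : ℝ≥0∞) := by
      have : 2 * c₀ ≤ (n ^ m) ^ d := by omega
      exact_mod_cast this
    calc (c₀ : ℝ≥0∞) = 2⁻¹ * ((2 * c₀ : ℕ) : ℝ≥0∞) := by
          push_cast
          rw [← mul_assoc, ENNReal.inv_mul_cancel (by norm_num) (by norm_num), one_mul]
      _ ≤ 2⁻¹ * (((n ^ m) ^ d : ℕ) : ℝ≥0∞) := mul_le_mul_right h1 _
  have hB : CC d M t * ((((n ^ m) ^ d : ℕ) : ℝ≥0∞) * (((7 ^ d : ℕ) : ℝ≥0∞) * qq d n m p)) ≤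
      2⁻¹ := by
    have h1 : (((n ^ m) ^ d : ℕ) : ℝ≥0∞) * (((7 ^ d : ℕ) : ℝ≥0∞) * qq d n m p) =
        ((7 ^ d : ℕ) : ℝ≥0∞) * ((((n ^ m) ^ d : ℕ) : ℝ≥0∞) * qq d n m p) := by ring
    have hz : (c₀ : ℝ≥0∞) * ((7 ^ d : ℕ) : ℝ≥0∞) ≠ 0 := mul_ne_zero hc₁.ne' h7z
    have htop : (c₀ : ℝ≥0∞) * ((7 ^ d : ℕ) : ℝ≥0∞) ≠ ⊤ := ENNReal.mul_ne_top hct h7t
    calc CC d M t * ((((n ^ m) ^ d : ℕ) : ℝ≥0∞) * (((7 ^ d : ℕ) : ℝ≥0∞) * qq d n m p))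
        ≤ (c₀ : ℝ≥0∞) * (((7 ^ d : ℕ) : ℝ≥0∞) *
            (2 * ((c₀ : ℝ≥0∞) * ((7 ^ d : ℕ) : ℝ≥0∞)))⁻¹) := by
          rw [h1]
          exact mul_le_mul' hc₀.le (mul_le_mul_right hmq _)
      _ = 2⁻¹ := by
          rw [← mul_assoc, ENNReal.mul_inv (Or.inl (by norm_num)) (Or.inl (by norm_num)),
            mul_comm (2⁻¹ : ℝ≥0∞), ← mul_assoc, ENNReal.mul_inv_cancel hz htop, one_mul]
  have hκ : CC d M t * ((((n ^ m) ^ d : ℕ) : ℝ≥0∞) *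
      (((((((n ^ m : ℕ) : ℝ≥0)) ^ (u₀ + 1))⁻¹ : ℝ≥0) : ℝ≥0∞) ^ t +
        ((7 ^ d : ℕ) : ℝ≥0∞) * qq d n m p)) < 1 := by
    rw [mul_add, mul_add]
    calc _ < 2⁻¹ + 2⁻¹ := ENNReal.add_lt_add_of_lt_of_le
          (ne_top_of_le_ne_top (by norm_num) hB) hA hB
      _ = 1 := ENNReal.inv_two_add_inv_two
  filter_upwards [ae_tsum_YY_lt_top (n := n) (m := m) (M := M) (by omega) ht p hκ] with ω hω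
  exact confDim_le_of_sum (by omega) hδ0 hδ ht (by omega) hω

/-- All `t = 1/(i+1)`. -/
theorem ae_confDim_eq {n : ℕ} (hn : 2 ≤ n) (hd : 1 ≤ d) (p : unitInterval)
    (hq : ∀ ε : ℝ≥0∞, 0 < ε → ∀ m₁, ∃ m, m₁ ≤ m ∧ (((n ^ m) ^ d : ℕ) : ℝ≥0∞) * qq d n m p ≤ ε) :
    ∀ᵐ ω ∂(percLaw d p), confDimB (perc n ω) = 0 ∧ confDimH (perc n ω) = 0 := by
  have h1 : ∀ᵐ ω ∂(percLaw d p), ∀ i : ℕ,
      confDimB (perc n ω) ≤ ENNReal.ofReal (1 / ((i : ℝ) + 1)) ∧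
        confDimH (perc n ω) ≤ ENNReal.ofReal (1 / ((i : ℝ) + 1)) :=
    ae_all_iff.2 fun i => ae_confDim_le hn hd p hq (by positivity)
  have h2 : Tendsto (fun i : ℕ => ENNReal.ofReal (1 / ((i : ℝ) + 1))) atTop (𝓝 0) := by
    have h3 := ENNReal.tendsto_ofReal (tendsto_one_div_add_atTop_nhds_zero_nat (𝕜 := ℝ))
    rwa [ENNReal.ofReal_zero] at h3
  filter_upwards [h1] with ω hω
  exact ⟨le_antisymm (ge_of_tendsto' h2 fun i => (hω i).1) zero_le,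
    le_antisymm (ge_of_tendsto' h2 fun i => (hω i).2) zero_le⟩

end gtFP
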