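import Pool.Agent.Lib.gtFP.Rec

/-! Geometry of the cubes: indices of points. -/

open MeasureTheory Filter Topology
open scoped NNReal ENNReal

namespace gtFP

variable {d : ℕ}

/-- the sup-distance on `ℝ^d` -/
noncomputable def sd (x y : EuclideanSpace ℝ (Fin d)) : ℝ := dist x.ofLp y.ofLp

/-- the index of the (half open) cube of level `k` containing `x` -/
noncomputable def fl (n k : ℕ) (x : EuclideanSpace ℝ (Fin d)) : Fin d → ℤ :=
  fun t => ⌊(n : ℝ) ^ k * x t⌋

theorem sd_self (x : EuclideanSpace ℝ (Fin d)) : sd x x = 0 := by simp [sd]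

theorem sd_comm (x y : EuclideanSpace ℝ (Fin d)) : sd x y = sd y x := by simp [sd, dist_comm]

theorem sd_tri (x y z : EuclideanSpace ℝ (Fin d)) : sd x z ≤ sd x y + sd y z := dist_triangle _ _ _

theorem sd_pos {x y : EuclideanSpace ℝ (Fin d)} (h : x ≠ y) : 0 < sd x y := by
  apply dist_pos.2
  intro h1
  apply h
  ext t
  exact congrFun h1 t

theorem sd_le_iff {x y : EuclideanSpace ℝ (Fin d)} {r : ℝ} (hr : 0 ≤ r) :
    sd x y ≤ r ↔ ∀ t, |x t - y t| ≤ r := by
  unfold sd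
  rw [dist_pi_le_iff hr]
  simp only [Real.dist_eq]

theorem sd_lt_iff {x y : EuclideanSpace ℝ (Fin d)} {r : ℝ} (hr : 0 < r) :
    sd x y < r ↔ ∀ t, |x t - y t| < r := by
  unfold sd
  rw [dist_pi_lt_iff hr]
  simp only [Real.dist_eq]

/-- `sd ≤ dist ≤ √d sd` (`EuclideanSpace.dist_eq`). -/
theorem sd_le_dist (x y : EuclideanSpace ℝ (Fin d)) : sd x y ≤ dist x y := by
  rw [sd_le_iff dist_nonneg]
  intro t
  rw [EuclideanSpace.dist_eq]
  apply Real.le_sqrt_of_sq_le
  have h1 : |x t - y t| ^ 2 = dist (x t) (y t) ^ 2 := by rw [Real.dist_eq]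
  rw [h1]
  exact Finset.single_le_sum (f := fun t => dist (x t) (y t) ^ 2) (fun i _ => sq_nonneg _)
    (Finset.mem_univ t)

theorem dist_le_sd (x y : EuclideanSpace ℝ (Fin d)) : dist x y ≤ Real.sqrt d * sd x y := by
  have h0 : 0 ≤ sd x y := dist_nonneg
  rw [EuclideanSpace.dist_eq]
  apply Real.sqrt_le_iff.2
  refine ⟨by positivity, ?_⟩
  rw [mul_pow, Real.sq_sqrt (Nat.cast_nonneg d)]
  calc ∑ i, dist (x i) (y i) ^ 2 ≤ ∑ _i : Fin d, sd x y ^ 2 := by
        apply Finset.sum_le_sum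
        intro i _
        have h1 := (sd_le_iff h0).1 (le_refl (sd x y)) i
        rw [← Real.dist_eq] at h1
        exact pow_le_pow_left₀ dist_nonneg h1 2
    _ = d * sd x y ^ 2 := by simp

end gtFP
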