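import Pool.Agent.Lib.gtFP.GeoA

/-! Geometry of the cubes: floors. -/

open MeasureTheory ProbabilityTheory Filter Topology
open scoped NNReal ENNReal

namespace gtFP

variable {d : ℕ}

private theorem coord_le (x y : EuclideanSpace ℝ (Fin d)) (t : Fin d) :
    |x t - y t| ≤ sd x y := by
  have := dist_le_pi_dist x.ofLp y.ofLp t
  simpa [Real.dist_eq, sd] using this

/-- floors: `n^k sd x y ≤ K` gives `nd (fl x) (fl y) ≤ K` (`⌊u⌋ ≤ ⌊v + K⌋ = ⌊v⌋ + K`). -/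
theorem nd_fl_le {n k K : ℕ} {x y : EuclideanSpace ℝ (Fin d)} (h : (n : ℝ) ^ k * sd x y ≤ K) :
    nd (fl n k x) (fl n k y) ≤ K := by
  refine nd_le.2 fun t => ?_
  have hN : (0 : ℝ) ≤ (n : ℝ) ^ k := by positivity
  have h1 := coord_le x y t
  have h2 : |(n : ℝ) ^ k * x t - (n : ℝ) ^ k * y t| ≤ K := by
    rw [← mul_sub, abs_mul, abs_of_nonneg hN]
    exact (mul_le_mul_of_nonneg_left h1 hN).trans h
  obtain ⟨h3, h4⟩ := abs_le.1 h2
  have h5 : ⌊(n : ℝ) ^ k * x t⌋ ≤ ⌊(n : ℝ) ^ k * y t⌋ + K := by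
    have : ⌊(n : ℝ) ^ k * x t⌋ ≤ ⌊(n : ℝ) ^ k * y t + (K : ℤ)⌋ := by
      apply Int.floor_le_floor
      push_cast
      linarith
    rwa [Int.floor_add_intCast] at this
  have h6 : ⌊(n : ℝ) ^ k * y t⌋ ≤ ⌊(n : ℝ) ^ k * x t⌋ + K := by
    have : ⌊(n : ℝ) ^ k * y t⌋ ≤ ⌊(n : ℝ) ^ k * x t + (K : ℤ)⌋ := by
      apply Int.floor_le_floor
      push_cast
      linarith
    rwa [Int.floor_add_intCast] at this
  simp only [fl]
  omega

private theorem cube_mul {n k : ℕ} (hn : 1 ≤ n) {x : EuclideanSpace ℝ (Fin d)} {a : Fin d → ℤ}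
    (h : x ∈ cube n k a) (t : Fin d) :
    (a t : ℝ) ≤ (n : ℝ) ^ k * x t ∧ (n : ℝ) ^ k * x t ≤ (a t : ℝ) + 1 := by
  have hn' : (0 : ℝ) < (n : ℝ) := by exact_mod_cast hn
  have hN : (0 : ℝ) < (n : ℝ) ^ k := by positivity
  obtain ⟨h1, h2⟩ := h t
  rw [div_le_iff₀ hN] at h1
  rw [le_div_iff₀ hN] at h2
  exact ⟨by linarith [mul_comm ((n : ℝ) ^ k) (x t)], by linarith [mul_comm ((n : ℝ) ^ k) (x t)]⟩

theorem nd_fl_cube {n k : ℕ} (hn : 1 ≤ n) {x : EuclideanSpace ℝ (Fin d)} {a : Fin d → ℤ}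
    (h : x ∈ cube n k a) : nd (fl n k x) a ≤ 1 := by
  refine nd_le.2 fun t => ?_
  obtain ⟨h1, h2⟩ := cube_mul hn h t
  have h3 : a t ≤ ⌊(n : ℝ) ^ k * x t⌋ := Int.le_floor.2 h1
  have h4 : ⌊(n : ℝ) ^ k * x t⌋ ≤ a t + 1 := by
    have h5 := Int.floor_le ((n : ℝ) ^ k * x t)
    have h6 : ((⌊(n : ℝ) ^ k * x t⌋ : ℤ) : ℝ) ≤ ((a t + 1 : ℤ) : ℝ) := by
      push_cast
      linarith
    exact_mod_cast h6
  simp only [fl]
  omega

theorem sd_of_fl_eq {n k : ℕ} (hn : 1 ≤ n) {x y : EuclideanSpace ℝ (Fin d)}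
    (h : fl n k x = fl n k y) : sd x y ≤ 1 / (n : ℝ) ^ k := by
  have hn' : (0 : ℝ) < (n : ℝ) := by exact_mod_cast hn
  have hN : (0 : ℝ) < (n : ℝ) ^ k := by positivity
  refine (dist_pi_le_iff (by positivity)).2 fun t => ?_
  rw [Real.dist_eq, le_div_iff₀ hN, ← abs_of_pos hN, ← abs_mul]
  have h1 := congrFun h t
  simp only [fl] at h1
  have h2 := Int.floor_le ((n : ℝ) ^ k * x t)
  have h3 := Int.lt_floor_add_one ((n : ℝ) ^ k * x t)
  have h4 := Int.floor_le ((n : ℝ) ^ k * y t)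
  have h5 := Int.lt_floor_add_one ((n : ℝ) ^ k * y t)
  rw [h1] at h2 h3
  rw [abs_le]
  constructor
  · rw [sub_mul]
    simp only [abs_of_pos hN]
    linarith [mul_comm (x t) ((n : ℝ) ^ k), mul_comm (y t) ((n : ℝ) ^ k)]
  · rw [sub_mul]
    simp only [abs_of_pos hN]
    linarith [mul_comm (x t) ((n : ℝ) ^ k), mul_comm (y t) ((n : ℝ) ^ k)]

theorem anc_fl {n m k : ℕ} (hn : 1 ≤ n) (x : EuclideanSpace ℝ (Fin d)) :
    anc n m (fl n (k + m) x) = fl n k x := by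
  funext t
  simp only [anc, fl]
  have hn' : (0 : ℝ) < (n : ℝ) := by exact_mod_cast hn
  have hN : (0 : ℝ) < (n : ℝ) ^ m := by positivity
  have hpos : (0 : ℤ) < (n : ℤ) ^ m := by positivity
  have h0 : (n : ℝ) ^ (k + m) * x t = (n : ℝ) ^ m * ((n : ℝ) ^ k * x t) := by
    rw [pow_add]; ring
  rw [h0]
  set u := (n : ℝ) ^ k * x t with hu
  apply le_antisymm
  · rw [Int.le_floor]
    have h1 : ((⌊(n : ℝ) ^ m * u⌋ / (n : ℤ) ^ m : ℤ) : ℝ) * (n : ℝ) ^ m ≤ (⌊(n : ℝ) ^ m * u⌋ : ℝ) := by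
      have := Int.ediv_mul_le ⌊(n : ℝ) ^ m * u⌋ hpos.ne'
      have h2 : (((⌊(n : ℝ) ^ m * u⌋ / (n : ℤ) ^ m * (n : ℤ) ^ m : ℤ)) : ℝ)
          ≤ ((⌊(n : ℝ) ^ m * u⌋ : ℤ) : ℝ) := by exact_mod_cast this
      push_cast at h2
      exact h2
    have h2 := Int.floor_le ((n : ℝ) ^ m * u)
    have h3 : ((⌊(n : ℝ) ^ m * u⌋ / (n : ℤ) ^ m : ℤ) : ℝ) * (n : ℝ) ^ m ≤ u * (n : ℝ) ^ m := by
      linarith [mul_comm u ((n : ℝ) ^ m)]
    exact le_of_mul_le_mul_right h3 hN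
  · rw [Int.le_ediv_iff_mul_le hpos, Int.le_floor]
    push_cast
    have := Int.floor_le u
    nlinarith [mul_le_mul_of_nonneg_right this hN.le]

/-- two points of closed cubes with `n^k sd x y < K` have indices at distance at most `K` -/
theorem nd_cube_le {n k K : ℕ} (hn : 1 ≤ n) {x y : EuclideanSpace ℝ (Fin d)} {a b : Fin d → ℤ}
    (ha : x ∈ cube n k a) (hb : y ∈ cube n k b) (h : (n : ℝ) ^ k * sd x y < K) : nd a b ≤ K := by
  refine nd_le.2 fun t => ?_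
  have hN : (0 : ℝ) ≤ (n : ℝ) ^ k := by positivity
  have h1 := coord_le x y t
  have h2 : |(n : ℝ) ^ k * x t - (n : ℝ) ^ k * y t| < K := by
    rw [← mul_sub, abs_mul, abs_of_nonneg hN]
    exact (mul_le_mul_of_nonneg_left h1 hN).trans_lt h
  obtain ⟨h3, h4⟩ := abs_lt.1 h2
  obtain ⟨a1, a2⟩ := cube_mul hn ha t
  obtain ⟨b1, b2⟩ := cube_mul hn hb t
  have h5 : (a t : ℝ) < (b t : ℝ) + 1 + K := by linarith
  have h6 : (b t : ℝ) < (a t : ℝ) + 1 + K := by linarith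
  have h7 : a t < b t + 1 + K := by exact_mod_cast h5
  have h8 : b t < a t + 1 + K := by exact_mod_cast h6
  omega

/-- two points of closed cubes with `K ≤ n^k sd x y` have indices at distance at least `K - 1` -/
theorem le_nd_cube {n k K : ℕ} (hn : 1 ≤ n) {x y : EuclideanSpace ℝ (Fin d)} {a b : Fin d → ℤ}
    (ha : x ∈ cube n k a) (hb : y ∈ cube n k b) (h : (K : ℝ) ≤ (n : ℝ) ^ k * sd x y) :
    K ≤ nd a b + 1 := by
  have hn' : (0 : ℝ) < (n : ℝ) := by exact_mod_cast hn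
  have hN : (0 : ℝ) < (n : ℝ) ^ k := by positivity
  have hsd : sd x y ≤ ((nd a b : ℝ) + 1) / (n : ℝ) ^ k := by
    refine (dist_pi_le_iff (by positivity)).2 fun t => ?_
    rw [Real.dist_eq, le_div_iff₀ hN]
    obtain ⟨a1, a2⟩ := cube_mul hn ha t
    obtain ⟨b1, b2⟩ := cube_mul hn hb t
    have h1 := nd_le.1 (le_refl (nd a b)) t
    have h2 : |a t - b t| ≤ (nd a b : ℤ) := by
      rw [Int.abs_eq_natAbs]
      exact_mod_cast h1
    obtain ⟨h3, h4⟩ := abs_le.1 h2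
    have h3' : (-(nd a b : ℝ)) ≤ (a t : ℝ) - b t := by exact_mod_cast h3
    have h4' : (a t : ℝ) - b t ≤ (nd a b : ℝ) := by exact_mod_cast h4
    have e : |x t - y t| * (n : ℝ) ^ k = |(n : ℝ) ^ k * x t - (n : ℝ) ^ k * y t| := by
      rw [← mul_sub, abs_mul, abs_of_pos hN, mul_comm]
    rw [e, abs_le]
    constructor <;> linarith
  rw [le_div_iff₀ hN] at hsd
  have : (K : ℝ) ≤ (nd a b : ℝ) + 1 := by linarith [mul_comm (sd x y) ((n : ℝ) ^ k)]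
  exact_mod_cast this

/-- a point of `F` lies in a kept cube of every block level -/
theorem exists_Rf {n m j : ℕ} {ω : Cfg d} {x : EuclideanSpace ℝ (Fin d)} (hx : x ∈ perc n ω) :
    ∃ c ∈ Rf n m j ω, x ∈ cube n (m * j) c := by
  obtain ⟨a, h1, h2, h3⟩ := Set.mem_iInter.1 hx (m * j)
  exact ⟨a, mem_Rf.2 ⟨h1, h2⟩, h3⟩

/-- `F ⊆ [0,1]^d` -/
theorem perc_mem {n : ℕ} {ω : Cfg d} {x : EuclideanSpace ℝ (Fin d)} (hx : x ∈ perc n ω) (t : Fin d) :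
    0 ≤ x t ∧ x t ≤ 1 := by
  obtain ⟨a, h1, h2, h3⟩ := Set.mem_iInter.1 hx 0
  obtain ⟨h4, h5⟩ := h3 t
  obtain ⟨h6, h7⟩ := h1 t
  simp only [pow_zero, div_one] at h4 h5 h7
  have h8 : a t = 0 := by
    push_cast at h7
    omega
  rw [h8] at h4 h5
  simp at h4 h5
  exact ⟨h4, h5⟩

end gtFP
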