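import Pool.Agent.Lib.gtFP.Rec

/-! Chains: truncation, and two far apart bad cubes. -/

open MeasureTheory ProbabilityTheory Filter Topology
open scoped NNReal ENNReal

namespace gtFP

variable {d : ℕ}

/-- Truncation: a chain of cubes kept in the steps `k+1..k+m` from a child of `z` which reaches
distance at least `2 n^m` shows that `z` is bad (stop at the first index `i` with
`nd (f 0) (f i) ≥ 2 n^m`; then `nd (f 0) (f i) ≤ 2 n^m` because the steps are at most 1). -/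
theorem bad_of_chain {n m k : ℕ} (hn : 1 ≤ n) {ω : Cfg d} {z : Fin d → ℤ} {r : ℕ} {f : ℕ → Fin d → ℤ}
    (h0 : anc n m (f 0) = z) (h1 : ∀ i ≤ r, Loc n m k ω (f i))
    (h2 : ∀ i < r, nd (f i) (f (i + 1)) ≤ 1) (h3 : 2 * n ^ m ≤ nd (f 0) (f r)) :
    Bad n m k ω z := by
  classical
  have hpos : 1 ≤ n ^ m := Nat.one_le_pow _ _ hn
  have hex : ∃ i, 2 * n ^ m ≤ nd (f 0) (f i) := ⟨r, h3⟩
  obtain ⟨i₀, hi₀, hmin⟩ : ∃ i₀, 2 * n ^ m ≤ nd (f 0) (f i₀) ∧
      ∀ i < i₀, nd (f 0) (f i) < 2 * n ^ m :=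
    ⟨Nat.find hex, Nat.find_spec hex, fun i hi => not_le.1 (Nat.find_min hex hi)⟩
  have hle : i₀ ≤ r := by
    by_contra hc
    have := hmin r (by omega)
    omega
  refine ⟨i₀, f, h0, fun i hi => h1 i (hi.trans hle), fun i hi => h2 i (by omega),
    fun i hi => ?_, hi₀⟩
  rcases Nat.lt_or_ge i i₀ with hlt | hge
  · exact (hmin i hlt).le
  · have hii : i = i₀ := by omega
    rcases Nat.eq_zero_or_pos i with hz | hp
    · rw [hz, nd_self]
      omega
    · have e1 := hmin (i - 1) (by omega)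
      have e2 := h2 (i - 1) (by omega)
      have e3 : i - 1 + 1 = i := by omega
      rw [e3] at e2
      have e4 := nd_tri (f 0) (f (i - 1)) (f i)
      omega

/-- If `0` is bad for the depth `j + m` (chain `f` of level `j + m`), `n^j ≥ 8`, let `z₀` be the
ancestor of level `j` of `f 0` and `z₁` that of `f i`, `i` the first index with
`nd (f 0) (f i) ≥ 8 n^m`. Then `nd z₀ z₁ ≥ 7`, both are bad for the depth `m` (level `j`), by
`bad_of_chain` (the part of the chain from `f i` on reaches distance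
`≥ 2 n^(j+m) - (8 n^m) ≥ 2 n^m` from `f i`; `Loc n (j+m) 0 ω a` implies
`Loc n m j ω a`), and `z₀ ∈ boxF d (n^j)` (as `anc n (j+m) (f 0) = 0`), `nd z₀ z₁ ≤ 2 n^j`. -/
theorem bad_pair {n m j : ℕ} (hn : 1 ≤ n) (hj : 8 ≤ n ^ j) {ω : Cfg d}
    (h : Bad n (j + m) 0 ω 0) :
    ∃ z₀ ∈ boxF d (n ^ j), ∃ z₁, nd z₀ z₁ ≤ 2 * n ^ j ∧ 7 ≤ nd z₀ z₁ ∧
      Bad n m j ω z₀ ∧ Bad n m j ω z₁ := by
  classical
  obtain ⟨r, f, h0, h1, h2, -, h4⟩ := h
  have hpos : 1 ≤ n ^ m := Nat.one_le_pow _ _ hn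
  have hbig : 16 * n ^ m ≤ 2 * n ^ (j + m) := by
    rw [pow_add]
    nlinarith
  have hloc : ∀ i ≤ r, Loc n m j ω (f i) := by
    intro i hi s hs hsm
    have := h1 i hi (j + s) (by omega) (by omega)
    rwa [show 0 + (j + s) = j + s by omega, show j + m - (j + s) = m - s by omega] at this
  have hex : ∃ i, 8 * n ^ m ≤ nd (f 0) (f i) := ⟨r, by omega⟩
  obtain ⟨i₀, hi₀, hmin⟩ : ∃ i₀, 8 * n ^ m ≤ nd (f 0) (f i₀) ∧
      ∀ i < i₀, nd (f 0) (f i) < 8 * n ^ m :=
    ⟨Nat.find hex, Nat.find_spec hex, fun i hi => not_le.1 (Nat.find_min hex hi)⟩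
  have hle : i₀ ≤ r := by
    by_contra hc
    have := hmin r (by omega)
    omega
  have hup : nd (f 0) (f i₀) ≤ 8 * n ^ m := by
    rcases Nat.eq_zero_or_pos i₀ with hz | hp
    · rw [hz, nd_self]
      omega
    · have e1 := hmin (i₀ - 1) (by omega)
      have e2 := h2 (i₀ - 1) (by omega)
      have e3 : i₀ - 1 + 1 = i₀ := by omega
      rw [e3] at e2
      have e4 := nd_tri (f 0) (f (i₀ - 1)) (f i₀)
      omega
  have hpos' : (0 : ℤ) < (n : ℤ) ^ j := by positivity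
  refine ⟨anc n m (f 0), ?_, anc n m (f i₀), ?_, ?_, ?_, ?_⟩
  · rw [mem_boxF]
    intro t
    have e1 : anc n m (f 0) t / (n : ℤ) ^ j = 0 := by
      have e2 : anc n j (anc n m (f 0)) t = 0 := by
        rw [anc_anc, h0]
        rfl
      exact e2
    have e3 := Int.emod_add_mul_ediv (anc n m (f 0) t) ((n : ℤ) ^ j)
    rw [e1, mul_zero, add_zero] at e3
    have e4 := Int.emod_nonneg (anc n m (f 0) t) hpos'.ne'
    have e5 := Int.emod_lt_of_pos (anc n m (f 0) t) hpos'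
    push_cast
    constructor <;> linarith
  · refine nd_anc_mul hn (hup.trans ?_)
    have e1 : 2 * n ^ j * n ^ m = 2 * n ^ (j + m) := by rw [pow_add]; ring
    rw [e1]
    omega
  · have := nd_anc_ge hn hi₀
    omega
  · exact bad_of_chain hn rfl hloc h2 (by omega)
  · refine bad_of_chain (f := fun i => f (i₀ + i)) (r := r - i₀) hn rfl
      (fun i hi => hloc _ (by omega)) (fun i hi => ?_) ?_
    · exact h2 (i₀ + i) (by omega)
    · have e1 : i₀ + (r - i₀) = r := by omega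
      have e2 := nd_tri (f 0) (f i₀) (f r)
      simp only [add_zero, e1]
      omega

end gtFP
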