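import Pool.Agent.Lib.gtFP.LamP
import Pool.Agent.Lib.gtFP.LLb
import Pool.Agent.Lib.gtFP.SqA

/-! The crossing property of the weights. -/

open MeasureTheory ProbabilityTheory Filter Topology
open scoped NNReal ENNReal

namespace gtFP

variable {d : ℕ}

/-- Crossing property. Let `N = n^m`, `x_0, …, x_r ∈ F`, jumps `< N^{-(j+1)}`,
`sd x_0 x_i < 3 N^{-j}` for `i < r`, `sd x_0 x_r ≥ 3 N^{-j}`. Choose kept cubes `c_i ∋ x_i` of block
level `j+1` (`exists_Rf`). Then `nd c_i c_{i+1} ≤ 1` (`nd_cube_le` with `K = 1`),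
`nd c_0 c_r ≥ 3N - 1 ≥ 2N` (`le_nd_cube`), so the cube `anc n m c_0` is bad (`bad_of_chain`,
`kept_add`, `m*(j+1) = m*j+m`). For `i < r`: `nd c_0 c_i ≤ 3N` (`nd_cube_le`), so
`nd (anc c_0) (anc c_i) ≤ 3` and `wt (anc c_i) = 1/2`; by `LL_low` (with `a = fl x_i`,
`nd (fl x_i) c_i ≤ 1`) `Λ_{j+1}(x_i) ≥ 1/2 * LL j (anc c_i) * 2^{-M}`, and by `LL_har`
`Λ_j(x_0) ≤ (1 + nd (fl x_0) (anc c_i))^M LL j (anc c_i) ≤ 5^M LL j (anc c_i)`
(`fl n (m*j) x_0 = anc n m (fl n (m*(j+1)) x_0)` is at distance at most 1 from `anc c_0`).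
So `2 Λ_j(x_0) ≤ 4 * 10^M Λ_{j+1}(x_i)`. -/
theorem cross_perc {n m M : ℕ} (hn : 1 ≤ n) {δ : ℝ≥0} {ω : Cfg d} (hN : 4 * 10 ^ M ≤ n ^ m)
    (j : ℕ) (f : ℕ → EuclideanSpace ℝ (Fin d)) (r : ℕ) (hf : ∀ i ≤ r, f i ∈ perc n ω)
    (h1 : ∀ i < r, sd (f i) (f (i + 1)) < 1 / ((n ^ m : ℕ) : ℝ) ^ (j + 1))
    (h2 : ∀ i < r, sd (f 0) (f i) < 3 / ((n ^ m : ℕ) : ℝ) ^ j)
    (h3 : 3 / ((n ^ m : ℕ) : ℝ) ^ j ≤ sd (f 0) (f r)) :
    ∀ i < r, 2 * LamP n m M δ ω j (f 0) ≤ ((n ^ m : ℕ) : ℝ) * LamP n m M δ ω (j + 1) (f i) := by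
  have hc' : ∀ i, ∃ c : Fin d → ℤ, i ≤ r → c ∈ Rf n m (j + 1) ω ∧ f i ∈ cube n (m * (j + 1)) c := by
    intro i
    by_cases hi : i ≤ r
    · obtain ⟨c, hc1, hc2⟩ := exists_Rf (m := m) (j := j + 1) (hf i hi)
      exact ⟨c, fun _ => ⟨hc1, hc2⟩⟩
    · exact ⟨0, fun h => absurd h hi⟩
  choose c hc using hc'
  have hnpos : (0 : ℝ) < (n : ℝ) := by exact_mod_cast hn
  have hN0 : (0 : ℝ) < ((n ^ m : ℕ) : ℝ) := by
    push_cast
    positivity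
  have hpow : (n : ℝ) ^ (m * (j + 1)) = ((n ^ m : ℕ) : ℝ) ^ (j + 1) := by
    push_cast
    rw [pow_mul]
  have hN1 : 1 ≤ n ^ m := Nat.one_le_pow _ _ hn
  have hmj : m * (j + 1) = m * j + m := by ring
  -- the first cube is bad
  have hbad : Bad n m (m * j) ω (anc n m (c 0)) := by
    refine bad_of_chain hn (r := r) (f := c) rfl (fun i hi => ?_) (fun i hi => ?_) ?_
    · have h := (mem_Rf.1 (hc i hi).1).2
      rw [hmj] at h
      exact (kept_add.1 h).2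
    · refine nd_cube_le hn (hc i hi.le).2 (hc (i + 1) hi).2 ?_
      rw [hpow]
      have h := h1 i hi
      rw [lt_div_iff₀ (pow_pos hN0 _)] at h
      rw [mul_comm]
      exact_mod_cast h
    · have h := le_nd_cube (K := 3 * n ^ m) hn (hc 0 (Nat.zero_le _)).2 (hc r le_rfl).2 (by
        rw [hpow, pow_succ]
        have h := h3
        rw [div_le_iff₀ (pow_pos hN0 _)] at h
        calc ((3 * n ^ m : ℕ) : ℝ) = 3 * ((n ^ m : ℕ) : ℝ) := by push_cast; ring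
          _ ≤ (sd (f 0) (f r) * ((n ^ m : ℕ) : ℝ) ^ j) * ((n ^ m : ℕ) : ℝ) :=
            mul_le_mul_of_nonneg_right h hN0.le
          _ = ((n ^ m : ℕ) : ℝ) ^ j * ((n ^ m : ℕ) : ℝ) * sd (f 0) (f r) := by ring)
      omega
  intro i hi
  have hci := hc i hi.le
  have hnd : nd (c 0) (c i) ≤ 3 * n ^ m := by
    refine nd_cube_le hn (hc 0 (Nat.zero_le _)).2 hci.2 ?_
    rw [hpow, pow_succ]
    have h := h2 i hi
    rw [lt_div_iff₀ (pow_pos hN0 _)] at h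
    calc ((n ^ m : ℕ) : ℝ) ^ j * ((n ^ m : ℕ) : ℝ) * sd (f 0) (f i)
        = (sd (f 0) (f i) * ((n ^ m : ℕ) : ℝ) ^ j) * ((n ^ m : ℕ) : ℝ) := by ring
      _ < 3 * ((n ^ m : ℕ) : ℝ) := mul_lt_mul_of_pos_right h hN0
      _ = ((3 * n ^ m : ℕ) : ℝ) := by push_cast; ring
  have hnda : nd (anc n m (c 0)) (anc n m (c i)) ≤ 3 := nd_anc_mul hn hnd
  have hwt : wt n m j δ ω (anc n m (c i)) = 1 / 2 := by
    have : Nb n m j ω (anc n m (c i)) := ⟨anc n m (c 0), by rw [nd_comm]; exact hnda, hbad⟩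
    unfold wt
    rw [if_pos this]
  have hlow := LL_low (M := M) (δ := δ) (a := fl n (m * (j + 1)) (f i)) hci.1
  rw [hwt] at hlow
  have hnd1 : nd (fl n (m * (j + 1)) (f i)) (c i) ≤ 1 := nd_fl_cube hn hci.2
  have hhar := LL_har (M := M) (δ := δ) (ω := ω) (n := n) (m := m) j (fl n (m * j) (f 0))
    (anc n m (c i))
  have hnd4 : nd (fl n (m * j) (f 0)) (anc n m (c i)) ≤ 4 := by
    have h0 : nd (fl n (m * (j + 1)) (f 0)) (c 0) ≤ 1 := nd_fl_cube hn (hc 0 (Nat.zero_le _)).2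
    have h5 : nd (fl n (m * j) (f 0)) (anc n m (c 0)) ≤ 1 := by
      rw [← anc_fl (m := m) hn (f 0), ← hmj]
      exact (nd_anc_le hn _ _).trans h0
    have h6 := nd_tri (fl n (m * j) (f 0)) (anc n m (c 0)) (anc n m (c i))
    omega
  unfold LamP
  generalize LL n m M δ ω (j + 1) (fl n (m * (j + 1)) (f i)) = A at hlow ⊢
  generalize LL n m M δ ω j (fl n (m * j) (f 0)) = B at hhar ⊢
  generalize LL n m M δ ω j (anc n m (c i)) = L at hlow hhar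
  have hB : (B : ℝ) ≤ 5 ^ M * (L : ℝ) := by
    have h7 : (B : ℝ) ≤ (1 + (nd (fl n (m * j) (f 0)) (anc n m (c i)) : ℝ)) ^ M * (L : ℝ) := by
      exact_mod_cast hhar
    refine h7.trans (mul_le_mul_of_nonneg_right ?_ L.2)
    refine pow_le_pow_left₀ (by positivity) ?_ _
    have : (nd (fl n (m * j) (f 0)) (anc n m (c i)) : ℝ) ≤ 4 := by exact_mod_cast hnd4
    linarith
  have hA : 1 / 2 * (L : ℝ) * ((2 : ℝ) ^ M)⁻¹ ≤ (A : ℝ) := by
    have h8 : 1 / 2 * (L : ℝ) * ((1 + (nd (fl n (m * (j + 1)) (f i)) (c i) : ℝ)) ^ M)⁻¹ ≤ (A : ℝ) := by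
      exact_mod_cast hlow
    refine le_trans (mul_le_mul_of_nonneg_left ?_ (by have := L.2; positivity)) h8
    refine inv_anti₀ (by positivity) ?_
    refine pow_le_pow_left₀ (by positivity) ?_ _
    have : (nd (fl n (m * (j + 1)) (f i)) (c i) : ℝ) ≤ 1 := by exact_mod_cast hnd1
    linarith
  have hNr : 4 * (10 : ℝ) ^ M ≤ ((n ^ m : ℕ) : ℝ) := by exact_mod_cast hN
  have h2M : (0 : ℝ) < 2 ^ M := by positivity
  have h10 : (10 : ℝ) ^ M = 5 ^ M * 2 ^ M := by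
    rw [← mul_pow]
    norm_num
  have hL : (0 : ℝ) ≤ (L : ℝ) := L.2
  calc 2 * (B : ℝ) ≤ 2 * (5 ^ M * (L : ℝ)) := by linarith
    _ = 4 * (10 : ℝ) ^ M * (1 / 2 * (L : ℝ) * ((2 : ℝ) ^ M)⁻¹) := by
        rw [h10]
        field_simp
        ring
    _ ≤ ((n ^ m : ℕ) : ℝ) * (A : ℝ) :=
        mul_le_mul hNr hA (by positivity) hN0.le

end gtFP
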