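import Pool.Agent.Lib.gtFP.GeoC

/-! The weight function on points. -/

open MeasureTheory ProbabilityTheory Filter Topology
open scoped NNReal ENNReal

namespace gtFP

variable {d : ℕ}

/-- the weight function on points, block level `j` -/
noncomputable def LamP (n m M : ℕ) (δ : ℝ≥0) (ω : Cfg d) (j : ℕ)
    (x : EuclideanSpace ℝ (Fin d)) : ℝ := LL n m M δ ω j (fl n (m * j) x)

end gtFP
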