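import Pool.Agent.Lib.gtFP.Rec
import Pool.Agent.Lib.gtFP.MeasB

/-! If the dimension is less than one then `F` is totally disconnected. -/

open MeasureTheory ProbabilityTheory Filter Topology
open scoped NNReal ENNReal

namespace gtFP

variable {d : ℕ}

open Classical in
/-- the number of the kept cubes of level `k`, times their side -/
noncomputable def lowT (n k : ℕ) (ω : Cfg d) : ℝ≥0∞ :=
  ∑ a ∈ boxF d (n ^ k), if Kept n k ω a then ENNReal.ofReal (1 / (n : ℝ) ^ k) else 0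

private theorem low_prob (n k : ℕ) (a : Fin d → ℤ) (p : unitInterval) :
    percLaw d p {ω | Kept n k ω a} ≤ (ENNReal.ofReal p) ^ k := by
  classical
  set s : Finset (ℕ × (Fin d → ℤ)) := (Finset.Icc 1 k).image fun i => (i, anc n (k - i) a) with hs
  have hcard : s.card = k := by
    rw [hs, Finset.card_image_of_injective _ (fun i j hij => (Prod.ext_iff.1 hij).1)]
    simp
  have h1 : {ω : Cfg d | Kept n k ω a} = Set.pi (s : Set (ℕ × (Fin d → ℤ))) (fun _ => {true}) := by
    ext ω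
    simp only [Set.mem_ofPred_eq, Kept, Set.mem_pi, hs, Finset.coe_image, Set.mem_image,
      Finset.mem_coe, Finset.mem_Icc, Set.mem_singleton_iff]
    constructor
    · rintro h _ ⟨i, hi, rfl⟩
      exact h i hi.1 hi.2
    · intro h i h1 h2
      exact h _ ⟨i, ⟨h1, h2⟩, rfl⟩
  rw [h1, percLaw, Measure.infinitePi_pi _ (fun _ _ => MeasurableSet.of_discrete),
    Finset.prod_const, hcard]
  gcongr
  rw [bernoulliMeasure_apply_of_mem_of_notMem p MeasurableSet.of_discrete (by simp) (by simp)]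
  rw [ENNReal.ofReal, Real.toNNReal_of_nonneg p.2.1]
  exact le_of_eq rfl

private theorem low_meas (n k : ℕ) : Measurable (fun ω : Cfg d => lowT n k ω) := by
  classical
  unfold lowT
  refine Finset.measurable_fun_sum _ fun a _ => ?_
  exact Measurable.ite (sg_le _ _ (meas_kept a)) measurable_const measurable_const

private theorem card_boxF (K : ℕ) : (boxF d K).card = K ^ d := by
  simp [boxF, Fintype.card_piFinset]

private theorem low_lintegral {n : ℕ} (hd : 1 ≤ d) (hn : 2 ≤ n) (p : unitInterval) (k : ℕ) :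
    ∫⁻ ω, lowT n k ω ∂(percLaw d p) ≤ (ENNReal.ofReal ((p : ℝ) * (n : ℝ) ^ (d - 1))) ^ k := by
  classical
  have hn0 : (0 : ℝ) < n := by exact_mod_cast (by omega : 0 < n)
  have h1 : ∀ a : Fin d → ℤ, ∫⁻ ω, (if Kept n k ω a then ENNReal.ofReal (1 / (n : ℝ) ^ k) else 0)
      ∂(percLaw d p) ≤ ENNReal.ofReal (1 / (n : ℝ) ^ k) * (ENNReal.ofReal p) ^ k := by
    intro a
    have h2 : (fun ω : Cfg d => if Kept n k ω a then ENNReal.ofReal (1 / (n : ℝ) ^ k) else 0) =
        Set.indicator {ω | Kept n k ω a} (fun _ => ENNReal.ofReal (1 / (n : ℝ) ^ k)) := by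
      funext ω
      simp [Set.indicator_apply]
    rw [h2, lintegral_indicator (sg_le _ _ (meas_kept a)), setLIntegral_const]
    gcongr
    exact low_prob n k a p
  unfold lowT
  rw [lintegral_finsetSum _ fun a _ =>
    Measurable.ite (sg_le _ _ (meas_kept a)) measurable_const measurable_const]
  refine (Finset.sum_le_sum fun a _ => h1 a).trans ?_
  rw [Finset.sum_const, card_boxF, nsmul_eq_mul]
  have hp0 : (0 : ℝ) ≤ p := p.2.1
  rw [← ENNReal.ofReal_pow hp0, ← ENNReal.ofReal_mul (by positivity),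
    ← ENNReal.ofReal_natCast, ← ENNReal.ofReal_mul (by positivity),
    ← ENNReal.ofReal_pow (by positivity)]
  refine le_of_eq (congrArg ENNReal.ofReal ?_)
  push_cast
  obtain ⟨e, rfl⟩ : ∃ e, d = e + 1 := ⟨d - 1, by omega⟩
  rw [Nat.add_sub_cancel]
  have : (n : ℝ) ^ k ≠ 0 := by positivity
  field_simp
  ring

/-- a connected subset with two points needs many cubes -/
private theorem low_lower {n : ℕ} (hn : 2 ≤ n) (ω : Cfg d) (S : Set (EuclideanSpace ℝ (Fin d)))
    (hS : S ⊆ perc n ω) (hc : IsPreconnected S) (x y : EuclideanSpace ℝ (Fin d)) (hx : x ∈ S)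
    (hy : y ∈ S) (t : Fin d) (k : ℕ) :
    ENNReal.ofReal (y t - x t) ≤ lowT n k ω := by
  classical
  have hn0 : (0 : ℝ) < n := by exact_mod_cast (by omega : 0 < n)
  have hcont : Continuous fun z : EuclideanSpace ℝ (Fin d) => z t := by fun_prop
  have himg : IsPreconnected ((fun z : EuclideanSpace ℝ (Fin d) => z t) '' S) :=
    hc.image _ hcont.continuousOn
  have hsub : Set.Icc (x t) (y t) ⊆ ⋃ a ∈ (boxF d (n ^ k)).filter fun a => Kept n k ω a,
      Set.Icc ((a t : ℝ) / (n : ℝ) ^ k) (((a t : ℝ) + 1) / (n : ℝ) ^ k) := by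
    intro s hs
    obtain ⟨z, hz, hzs⟩ := himg.Icc_subset ⟨x, hx, rfl⟩ ⟨y, hy, rfl⟩ hs
    have h1 := Set.mem_iInter.1 (hS hz) k
    obtain ⟨a, ha1, ha2, ha3⟩ := h1
    refine Set.mem_iUnion₂.2 ⟨a, ?_, ?_⟩
    · rw [Finset.mem_filter, mem_boxF]
      exact ⟨ha1, ha2⟩
    · have h2 := ha3 t
      simp only at hzs
      rw [← hzs]
      exact ⟨h2.1, h2.2⟩
  calc ENNReal.ofReal (y t - x t) = volume (Set.Icc (x t) (y t)) := by rw [Real.volume_Icc]
    _ ≤ volume (⋃ a ∈ (boxF d (n ^ k)).filter fun a => Kept n k ω a,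
      Set.Icc ((a t : ℝ) / (n : ℝ) ^ k) (((a t : ℝ) + 1) / (n : ℝ) ^ k)) := measure_mono hsub
    _ ≤ ∑ a ∈ (boxF d (n ^ k)).filter fun a => Kept n k ω a,
      volume (Set.Icc ((a t : ℝ) / (n : ℝ) ^ k) (((a t : ℝ) + 1) / (n : ℝ) ^ k)) :=
        measure_biUnion_finset_le _ _
    _ = ∑ a ∈ (boxF d (n ^ k)).filter fun a => Kept n k ω a, ENNReal.ofReal (1 / (n : ℝ) ^ k) := by
        refine Finset.sum_congr rfl fun a _ => ?_
        rw [Real.volume_Icc]
        congr 1
        ring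
    _ = lowT n k ω := by
        unfold lowT
        rw [Finset.sum_filter]

theorem td_of_low {d n : ℕ} (hd : 1 ≤ d) (hn : 2 ≤ n) (p : unitInterval)
    (hp : (p : ℝ) * (n : ℝ) ^ (d - 1) < 1) :
    ∀ᵐ ω ∂(percLaw d p), IsTotallyDisconnected (perc n ω) := by
  have h1 : ∫⁻ ω, ∑' k, lowT n k ω ∂(percLaw d p) < ⊤ := by
    rw [lintegral_tsum fun k => (low_meas n k).aemeasurable]
    refine (ENNReal.tsum_le_tsum fun k => low_lintegral hd hn p k).trans_lt ?_
    rw [ENNReal.tsum_geometric]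
    refine ENNReal.inv_lt_top.2 (tsub_pos_of_lt ?_)
    rw [← ENNReal.ofReal_one]
    exact (ENNReal.ofReal_lt_ofReal_iff one_pos).2 hp
  have h2 : ∀ᵐ ω ∂(percLaw d p), ∑' k, lowT n k ω < ⊤ :=
    ae_lt_top (Measurable.tsum fun k => low_meas n k) h1.ne
  filter_upwards [h2] with ω hω
  intro S hS hc x hx y hy
  by_contra hxy
  have h3 : ∃ t, x t ≠ y t := by
    by_contra hcon
    push Not at hcon
    exact hxy (by ext t; exact hcon t)
  obtain ⟨t, ht⟩ := h3
  have h4 : ∀ x y : EuclideanSpace ℝ (Fin d), x ∈ S → y ∈ S → ¬ x t < y t := by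
    intro x y hx hy hlt
    have h5 : ∀ k, ENNReal.ofReal (y t - x t) ≤ lowT n k ω := fun k =>
      low_lower hn ω S hS hc x y hx hy t k
    have h6 : ∑' _ : ℕ, ENNReal.ofReal (y t - x t) ≤ ∑' k, lowT n k ω := ENNReal.tsum_le_tsum h5
    have h7 : ENNReal.ofReal (y t - x t) ≠ 0 := by
      rw [Ne, ENNReal.ofReal_eq_zero]
      linarith
    rw [ENNReal.tsum_const_eq_top_of_ne_zero h7] at h6
    exact absurd (lt_of_le_of_lt h6 hω) (lt_irrefl _)
  rcases lt_or_gt_of_ne ht with h | h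
  · exact h4 x y hx hy h
  · exact h4 y x hy hx h

end gtFP
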