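import Pool.Agent.Lib.gtFP.Shift

/-! Dimension one. -/

open MeasureTheory Filter Topology
open scoped NNReal ENNReal

namespace gtFP

private theorem one_prob_all (J : Finset (ℕ × (Fin 1 → ℤ))) (p : unitInterval) :
    percLaw 1 p {ω : Cfg 1 | ∀ i ∈ J, ω i = true} = (ENNReal.ofReal p) ^ J.card := by
  have h1 : {ω : Cfg 1 | ∀ i ∈ J, ω i = true} = Set.pi (J : Set (ℕ × (Fin 1 → ℤ))) (fun _ => {true}) := by
    ext ω
    simp [Set.mem_pi]
  have h2 : ∀ b : unitInterval, ProbabilityTheory.bernoulliMeasure true false b {true} =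
      ENNReal.ofReal b := by
    intro b
    rw [ProbabilityTheory.bernoulliMeasure_apply_of_mem_of_notMem b (measurableSet_singleton _)
      (by simp) (by simp), ENNReal.ofReal_eq_coe_nnreal b.2.1]
    rfl
  rw [h1, percLaw, Measure.infinitePi_pi _ (fun _ _ => measurableSet_singleton _)]
  simp [h2]

private theorem one_ivt (g : ℕ → ℤ) (a : ℤ) (r : ℕ) (hs : ∀ i < r, |g i - g (i + 1)| ≤ 1)
    (h0 : g 0 ≤ a) (hr : a ≤ g r) : ∃ i ≤ r, g i = a := by
  classical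
  have hex : ∃ i, a ≤ g i := ⟨r, hr⟩
  have h1 := Nat.find_spec hex
  have h2 : Nat.find hex ≤ r := Nat.find_min' hex hr
  refine ⟨Nat.find hex, h2, ?_⟩
  rcases Nat.eq_zero_or_pos (Nat.find hex) with h3 | h3
  · rw [h3] at h1 ⊢
    omega
  · have h4 := Nat.find_min hex (show Nat.find hex - 1 < Nat.find hex by omega)
    have h5 := hs (Nat.find hex - 1) (by omega)
    rw [show Nat.find hex - 1 + 1 = Nat.find hex by omega] at h5
    rw [abs_le] at h5
    omega

private noncomputable def oneJ (m : ℕ) (u v : ℤ) : Finset (ℕ × (Fin 1 → ℤ)) :=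
  (Finset.Ico u v).image fun a => (m, fun _ => a)

private theorem oneJ_card (m : ℕ) (u v : ℤ) : (oneJ m u v).card = (v - u).toNat := by
  rw [oneJ, Finset.card_image_of_injective, Int.card_Ico]
  intro a b h
  simpa using congrFun (Prod.ext_iff.1 h).2 0

private theorem one_loc {n m : ℕ} (hm : 1 ≤ m) {ω : Cfg 1} {a : Fin 1 → ℤ} (h : Loc n m 0 ω a) :
    ω (m, a) = true := by
  have h1 := h m hm le_rfl
  rwa [Nat.zero_add, Nat.sub_self, anc_zero] at h1

private theorem one_bad {n m : ℕ} (hn : 2 ≤ n) (hm : 1 ≤ m) {ω : Cfg 1} (h : Bad n m 0 ω 0) :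
    (∀ i ∈ oneJ m ((n : ℤ) ^ m) (2 * (n : ℤ) ^ m), ω i = true) ∨
      (∀ i ∈ oneJ m (-(n : ℤ) ^ m) 0, ω i = true) := by
  obtain ⟨r, f, h0, h1, h2, -, h4⟩ := h
  have hpos : (0 : ℤ) < (n : ℤ) ^ m := by positivity
  have hf0 := congrFun h0 0
  simp only [anc, Pi.zero_apply] at hf0
  have hlo : 0 ≤ f 0 0 := by
    by_contra hc
    have := (Int.ediv_lt_iff_lt_mul (a := f 0 0) (b := 0) hpos).2 (by simpa using hc)
    omega
  have hhi : f 0 0 < (n : ℤ) ^ m := by
    have := Int.lt_ediv_add_one_mul_self (f 0 0) hpos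
    rw [hf0] at this
    simpa using this
  have hs : ∀ i < r, |f i 0 - f (i + 1) 0| ≤ 1 := by
    intro i hi
    have := nd_le.1 (h2 i hi) 0
    rw [abs_le]
    omega
  obtain ⟨t, ht⟩ := exists_of_le_nd (K := 2 * n ^ m) (by have := Nat.pos_of_ne_zero (pow_ne_zero m (show n ≠ 0 by omega)); omega) h4
  have ht0 : t = 0 := Subsingleton.elim _ _
  subst ht0
  have ht' : (2 * (n : ℤ) ^ m) ≤ |f 0 0 - f r 0| := by
    have : ((2 * n ^ m : ℕ) : ℤ) ≤ ((f 0 0 - f r 0).natAbs : ℤ) := by exact_mod_cast ht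
    rw [Int.natCast_natAbs] at this
    push_cast at this
    exact this
  rcases le_abs.1 ht' with hc | hc
  · right
    intro i hi
    simp only [oneJ, Finset.mem_image, Finset.mem_Ico] at hi
    obtain ⟨a, ⟨ha1, ha2⟩, rfl⟩ := hi
    obtain ⟨j, hj, hja⟩ := one_ivt (fun i => -f i 0) (-a) r
      (fun i hi => by
        have := hs i hi
        rw [abs_le] at this ⊢
        constructor <;> linarith [this.1, this.2]) (by linarith) (by linarith)
    have h5 := one_loc hm (h1 j hj)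
    have h6 : f j = fun _ => a := by
      funext t
      rw [Subsingleton.elim t 0]
      simpa using hja
    rwa [h6] at h5
  · left
    intro i hi
    simp only [oneJ, Finset.mem_image, Finset.mem_Ico] at hi
    obtain ⟨a, ⟨ha1, ha2⟩, rfl⟩ := hi
    obtain ⟨j, hj, hja⟩ := one_ivt (fun i => f i 0) a r hs (by linarith) (by linarith)
    have h5 := one_loc hm (h1 j hj)
    have h6 : f j = fun _ => a := by
      funext t
      rw [Subsingleton.elim t 0]
      exact hja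
    rwa [h6] at h5

/-- Small probability in any dimension: a chain from the cube `0` to distance `2 n^m` contains ... in
dimension one the chain must contain all indices between `f 0` and `f r`, so either all of the
`n^m` cubes `n^m, …, 2 n^m - 1` or all of the cubes `-n^m, …, -1` are kept in the last step
(`ω (m, a) = true`, from `Loc` with `i = m`), hence `qq 1 n m p ≤ 2 p^(n^m)`. -/
theorem qq_one_le {n m : ℕ} (hn : 2 ≤ n) (hm : 1 ≤ m) (p : unitInterval) :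
    qq 1 n m p ≤ 2 * (ENNReal.ofReal p) ^ (n ^ m) := by
  have hsub : {ω : Cfg 1 | Bad n m 0 ω 0} ⊆
      {ω : Cfg 1 | ∀ i ∈ oneJ m ((n : ℤ) ^ m) (2 * (n : ℤ) ^ m), ω i = true} ∪
        {ω : Cfg 1 | ∀ i ∈ oneJ m (-(n : ℤ) ^ m) 0, ω i = true} :=
    fun ω hω => one_bad hn hm hω
  have hc1 : (oneJ m ((n : ℤ) ^ m) (2 * (n : ℤ) ^ m)).card = n ^ m := by
    rw [oneJ_card, show 2 * (n : ℤ) ^ m - (n : ℤ) ^ m = ((n ^ m : ℕ) : ℤ) by push_cast; ring,
      Int.toNat_natCast]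
  have hc2 : (oneJ m (-(n : ℤ) ^ m) 0).card = n ^ m := by
    rw [oneJ_card, show 0 - -(n : ℤ) ^ m = ((n ^ m : ℕ) : ℤ) by push_cast; ring,
      Int.toNat_natCast]
  calc qq 1 n m p ≤ percLaw 1 p ({ω : Cfg 1 | ∀ i ∈ oneJ m ((n : ℤ) ^ m) (2 * (n : ℤ) ^ m),
          ω i = true} ∪ {ω : Cfg 1 | ∀ i ∈ oneJ m (-(n : ℤ) ^ m) 0, ω i = true}) :=
        measure_mono hsub
    _ ≤ percLaw 1 p {ω : Cfg 1 | ∀ i ∈ oneJ m ((n : ℤ) ^ m) (2 * (n : ℤ) ^ m), ω i = true} +
          percLaw 1 p {ω : Cfg 1 | ∀ i ∈ oneJ m (-(n : ℤ) ^ m) 0, ω i = true} :=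
        measure_union_le _ _
    _ = 2 * (ENNReal.ofReal p) ^ (n ^ m) := by
        rw [one_prob_all, one_prob_all, hc1, hc2, two_mul]

/-- `n^m p^(n^m) → 0` for `p < 1`. -/
theorem one_small {n : ℕ} (hn : 2 ≤ n) {p : unitInterval} (hp : p < 1) (ε : ℝ≥0∞) (hε : 0 < ε)
    (m₁ : ℕ) : ∃ m, m₁ ≤ m ∧ (((n ^ m) ^ 1 : ℕ) : ℝ≥0∞) * qq 1 n m p ≤ ε := by
  have hp1 : (p : ℝ) < 1 := hp
  have h1 : Tendsto (fun k : ℕ => (k : ℝ) * (p : ℝ) ^ k) atTop (𝓝 0) :=
    tendsto_self_mul_const_pow_of_lt_one p.2.1 hp1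
  have h2 : Tendsto (fun m : ℕ => n ^ m) atTop atTop := tendsto_pow_atTop_atTop_of_one_lt (by omega)
  have h3 : Tendsto (fun m : ℕ => ENNReal.ofReal (2 * (((n ^ m : ℕ) : ℝ) * (p : ℝ) ^ (n ^ m))))
      atTop (𝓝 0) := by
    have h4 := (h1.comp h2).const_mul 2
    rw [mul_zero] at h4
    have h5 := (ENNReal.continuous_ofReal.tendsto 0).comp h4
    rw [ENNReal.ofReal_zero] at h5
    exact h5
  obtain ⟨m, hm1, hm2, hm3⟩ := ((h3.eventually (gt_mem_nhds hε)).and
    ((eventually_ge_atTop m₁).and (eventually_ge_atTop 1))).exists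
  refine ⟨m, hm2, ?_⟩
  refine le_trans ?_ hm1.le
  rw [pow_one]
  calc ((n ^ m : ℕ) : ℝ≥0∞) * qq 1 n m p
      ≤ ((n ^ m : ℕ) : ℝ≥0∞) * (2 * (ENNReal.ofReal p) ^ (n ^ m)) := by
        gcongr
        exact qq_one_le hn hm3 p
    _ = ENNReal.ofReal (2 * (((n ^ m : ℕ) : ℝ) * (p : ℝ) ^ (n ^ m))) := by
        rw [ENNReal.ofReal_mul (by norm_num), ENNReal.ofReal_mul (Nat.cast_nonneg _),
          ENNReal.ofReal_pow p.2.1, ENNReal.ofReal_natCast]
        rw [show ENNReal.ofReal 2 = 2 by norm_num]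
        ring

end gtFP
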