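import Pool.Agent.Lib.gtFP.Shift

/-! Explicit small `p` in every dimension: `p < 3^{-d}`. -/

open MeasureTheory ProbabilityTheory Filter Topology
open scoped NNReal ENNReal

namespace gtFP

variable {d : ℕ}

/-- The chains which are relevant for the first lemma. -/
def smallChain (n m : ℕ) (ω : Cfg d) (r : ℕ) : Prop :=
  ∃ f : ℕ → Fin d → ℤ, anc n m (f 0) = 0 ∧ (∀ i ≤ r, Loc n m 0 ω (f i)) ∧
    (∀ i < r, nd (f i) (f (i + 1)) ≤ 1) ∧ 2 * n ^ m ≤ nd (f 0) (f r)

/-- A chain with a loop can be shortened. -/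
theorem small_cut {n m : ℕ} {ω : Cfg d} {r i j : ℕ} {f : ℕ → Fin d → ℤ}
    (h0 : anc n m (f 0) = 0) (h1 : ∀ i ≤ r, Loc n m 0 ω (f i))
    (h2 : ∀ i < r, nd (f i) (f (i + 1)) ≤ 1) (h3 : 2 * n ^ m ≤ nd (f 0) (f r))
    (hij : i < j) (hjr : j ≤ r) (hf : f i = f j) : smallChain n m ω (r - (j - i)) := by
  refine ⟨fun k => if k ≤ i then f k else f (k + (j - i)), ?_, ?_, ?_, ?_⟩
  · dsimp only
    rw [if_pos (Nat.zero_le i)]
    exact h0
  · intro k hk
    dsimp only
    split_ifs with h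
    · exact h1 k (by omega)
    · exact h1 _ (by omega)
  · intro k hk
    dsimp only
    rcases lt_trichotomy k i with h | h | h
    · rw [if_pos (by omega), if_pos (by omega)]
      exact h2 k (by omega)
    · subst h
      rw [if_pos le_rfl, if_neg (by omega), hf, show k + 1 + (j - k) = j + 1 by omega]
      exact h2 j (by omega)
    · rw [if_neg (by omega), if_neg (by omega), show k + 1 + (j - i) = k + (j - i) + 1 by omega]
      exact h2 _ (by omega)
  · dsimp only
    rw [if_pos (Nat.zero_le i)]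
    split_ifs with h
    · have h4 : r = j := by omega
      have h5 : r - (j - i) = i := by omega
      rw [h5, hf, ← h4]
      exact h3
    · rw [show r - (j - i) + (j - i) = r by omega]
      exact h3

/-- A bad cube has an injective chain: take the chain of `Bad n m 0 ω 0` with the least possible `r`
(`Nat.find`; the condition on the distances `≤ 2 n^m` can be dropped or kept); if `f i = f j` with
`i < j ≤ r` then cut out the loop (`k ↦ f k` for `k ≤ i`, `f (k + j - i)` for `k > i`), a shorter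
chain. In an injective chain `2 n^m ≤ nd (f 0) (f r) ≤ r`, so the first `2 n^m + 1` cubes
`f 0, …, f (2 n^m)` are distinct, kept in the last step (`ω (m, f i) = true`, `Loc` with `i = m`),
and consecutive ones are touching. -/
theorem exists_inj_chain {n m : ℕ} (hn : 1 ≤ n) (hm : 1 ≤ m) {ω : Cfg d} (h : Bad n m 0 ω 0) :
    ∃ f : ℕ → Fin d → ℤ, f 0 ∈ boxF d (n ^ m) ∧
      (∀ i ≤ 2 * n ^ m, ω (m, f i) = true) ∧ (∀ i < 2 * n ^ m, nd (f i) (f (i + 1)) ≤ 1) ∧
      Set.InjOn f (Set.Iic (2 * n ^ m)) := by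
  classical
  have hex : ∃ r, smallChain n m ω r := by
    obtain ⟨r, f, h0, h1, h2, -, h4⟩ := h
    exact ⟨r, f, h0, h1, h2, h4⟩
  obtain ⟨f, h0, h1, h2, h3⟩ := Nat.find_spec hex
  have hinj : ∀ i j, i < j → j ≤ Nat.find hex → f i ≠ f j := by
    intro i j hij hj hf
    have h4 := Nat.find_min' hex (small_cut h0 h1 h2 h3 hij hj hf)
    omega
  generalize Nat.find hex = r at h1 h2 h3 hinj
  have hnd : ∀ i ≤ r, nd (f 0) (f i) ≤ i := by
    intro i
    induction i with
    | zero => intro _; exact (nd_self (f 0)).le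
    | succ i ih =>
      intro hi
      have h4 := ih (by omega)
      have h5 := h2 i (by omega)
      exact (nd_tri (f 0) (f i) (f (i + 1))).trans (by omega)
  have hr : 2 * n ^ m ≤ r := h3.trans (hnd r le_rfl)
  have hpos : (0 : ℤ) < (n : ℤ) ^ m := by positivity
  refine ⟨f, ?_, ?_, ?_, ?_⟩
  · rw [mem_boxF]
    intro t
    have h4 : f 0 t / (n : ℤ) ^ m = 0 := congrFun h0 t
    have h5 := Int.mul_ediv_add_emod (f 0 t) ((n : ℤ) ^ m)
    have h6 := Int.emod_nonneg (f 0 t) hpos.ne'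
    have h7 := Int.emod_lt_of_pos (f 0 t) hpos
    rw [h4] at h5
    push_cast
    constructor <;> linarith
  · intro i hi
    have h4 := h1 i (by omega) m hm le_rfl
    rw [Nat.sub_self, anc_zero, zero_add] at h4
    exact h4
  · intro i hi
    exact h2 i (by omega)
  · intro i hi j hj hf
    have hi' : i ≤ 2 * n ^ m := hi
    have hj' : j ≤ 2 * n ^ m := hj
    rcases lt_trichotomy i j with h4 | h4 | h4
    · exact absurd hf (hinj i j h4 (by omega))
    · exact h4
    · exact absurd hf.symm (hinj j i h4 (by omega))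

/-- The chain with starting point `a` and steps `s - 1`. -/
def smallPath {ℓ : ℕ} (a : Fin d → ℤ) (s : Fin ℓ → Fin d → Fin 3) : ℕ → Fin d → ℤ
  | 0 => a
  | (i + 1) => fun t => smallPath a s i t + if h : i < ℓ then ((s ⟨i, h⟩ t : ℕ) : ℤ) - 1 else 0

theorem smallPath_eq {ℓ : ℕ} {f : ℕ → Fin d → ℤ} (hf : ∀ i < ℓ, nd (f i) (f (i + 1)) ≤ 1) :
    ∃ s : Fin ℓ → Fin d → Fin 3, ∀ i ≤ ℓ, smallPath (f 0) s i = f i := by
  have h1 : ∀ (i : Fin ℓ) (t : Fin d), ∃ u : Fin 3, f (i + 1) t = f i t + (((u : ℕ) : ℤ) - 1) := by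
    intro i t
    have h2 := nd_le.1 (hf i i.2) t
    rcases (show f (i + 1) t = f i t - 1 ∨ f (i + 1) t = f i t ∨ f (i + 1) t = f i t + 1 by
      omega) with h3 | h3 | h3
    · exact ⟨0, by rw [h3]; simp; ring⟩
    · exact ⟨1, by rw [h3]; simp⟩
    · exact ⟨2, by rw [h3]; simp⟩
  choose s hs using h1
  refine ⟨s, fun i => ?_⟩
  induction i with
  | zero => intro _; rfl
  | succ i ih =>
    intro hi
    funext t
    have h2 := ih (by omega)
    show smallPath (f 0) s i t + (if h : i < ℓ then ((s ⟨i, h⟩ t : ℕ) : ℤ) - 1 else 0) = _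
    rw [h2, dif_pos (by omega)]
    exact (hs ⟨i, by omega⟩ t).symm

/-- The probability that the cubes of an injective chain are kept. -/
theorem small_prob (p : unitInterval) (m ℓ : ℕ) (g : ℕ → Fin d → ℤ)
    (hg : Set.InjOn g (Set.Iic ℓ)) :
    percLaw d p {ω | ∀ i ≤ ℓ, ω (m, g i) = true} ≤ ENNReal.ofReal p ^ ℓ := by
  classical
  have h1 : {ω : Cfg d | ∀ i ≤ ℓ, ω (m, g i) = true} = Set.pi
      (((Finset.range (ℓ + 1)).image fun i => (m, g i) : Finset (ℕ × (Fin d → ℤ))) :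
        Set (ℕ × (Fin d → ℤ))) (fun _ => {true}) := by
    ext ω
    simp only [Set.mem_ofPred_eq, Set.mem_pi, Finset.mem_coe, Finset.mem_image, Finset.mem_range,
      Set.mem_singleton_iff]
    constructor
    · rintro h _ ⟨i, hi, rfl⟩
      exact h i (by omega)
    · intro h i hi
      exact h (m, g i) ⟨i, by omega, rfl⟩
  rw [h1, percLaw, Measure.infinitePi_pi _ (fun _ _ => MeasurableSet.of_discrete)]
  have h2 : ∀ i ∈ (Finset.range (ℓ + 1)).image (fun i => (m, g i)),
      (bernoulliMeasure true false p) {true} = ENNReal.ofReal p := by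
    intro i _
    rw [bernoulliMeasure_apply_of_mem_of_notMem p MeasurableSet.of_discrete (by simp) (by simp)]
    rw [ENNReal.ofReal]
    congr 1
    exact (Real.toNNReal_of_nonneg p.2.1).symm
  rw [Finset.prod_congr rfl h2, Finset.prod_const, Finset.card_image_of_injOn, Finset.card_range,
    pow_succ]
  · have h3 : ENNReal.ofReal (p : ℝ) ≤ 1 := by
      rw [← ENNReal.ofReal_one]
      exact ENNReal.ofReal_le_ofReal p.2.2
    exact mul_le_of_le_one_right' h3
  · intro i hi j hj hij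
    have hi' := Finset.mem_range.1 (Finset.mem_coe.1 hi)
    have hj' := Finset.mem_range.1 (Finset.mem_coe.1 hj)
    exact hg (show i ≤ ℓ by omega) (show j ≤ ℓ by omega) (Prod.mk.inj hij).2

/-- Union bound over the `(n^m)^d` starting cubes and the `(3^d)^ℓ` sequences of steps in
`{-1,0,1}^d`, `ℓ = 2 n^m` (index type `boxF d (n^m) × (Fin ℓ → Fin d → Fin 3)` or a finset of
functions); for each of them (if injective) the probability that the `ℓ + 1` distinct coordinates are
`true` is `p^(ℓ+1) ≤ p^ℓ` (`Measure.infinitePi_pi` with a finset of coordinates). -/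
theorem qq_le_small {n m : ℕ} (hn : 1 ≤ n) (hm : 1 ≤ m) (p : unitInterval) :
    qq d n m p ≤ (((n ^ m) ^ d : ℕ) : ℝ≥0∞) * ((3 ^ d : ℕ) * ENNReal.ofReal p) ^ (2 * n ^ m) := by
  classical
  have hsub : {ω : Cfg d | Bad n m 0 ω 0} ⊆
      ⋃ x ∈ (boxF d (n ^ m)) ×ˢ (Finset.univ : Finset (Fin (2 * n ^ m) → Fin d → Fin 3)),
        {ω : Cfg d | Set.InjOn (smallPath x.1 x.2) (Set.Iic (2 * n ^ m)) ∧
          ∀ i ≤ 2 * n ^ m, ω (m, smallPath x.1 x.2 i) = true} := by
    intro ω hω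
    obtain ⟨f, h1, h2, h3, h4⟩ := exists_inj_chain hn hm (ω := ω) hω
    obtain ⟨s, hs⟩ := smallPath_eq h3
    simp only [Set.mem_iUnion, Set.mem_ofPred_eq]
    refine ⟨(f 0, s), Finset.mem_product.2 ⟨h1, Finset.mem_univ _⟩, ?_, ?_⟩
    · intro i hi j hj hij
      refine h4 hi hj ?_
      rw [hs i hi, hs j hj] at hij
      exact hij
    · intro i hi
      rw [hs i hi]
      exact h2 i hi
  unfold qq
  refine (measure_mono hsub).trans ((measure_biUnion_finset_le _ _).trans ?_)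
  have hb : ∀ x ∈ (boxF d (n ^ m)) ×ˢ (Finset.univ : Finset (Fin (2 * n ^ m) → Fin d → Fin 3)),
      percLaw d p {ω : Cfg d | Set.InjOn (smallPath x.1 x.2) (Set.Iic (2 * n ^ m)) ∧
          ∀ i ≤ 2 * n ^ m, ω (m, smallPath x.1 x.2 i) = true} ≤
        ENNReal.ofReal p ^ (2 * n ^ m) := by
    intro x _
    by_cases hx : Set.InjOn (smallPath x.1 x.2) (Set.Iic (2 * n ^ m))
    · refine (measure_mono ?_).trans (small_prob p m (2 * n ^ m) (smallPath x.1 x.2) hx)
      intro ω hω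
      exact hω.2
    · have : {ω : Cfg d | Set.InjOn (smallPath x.1 x.2) (Set.Iic (2 * n ^ m)) ∧
          ∀ i ≤ 2 * n ^ m, ω (m, smallPath x.1 x.2 i) = true} = ∅ := by
        ext ω
        simp only [Set.mem_ofPred_eq, Set.mem_empty_iff_false, iff_false]
        exact fun h => hx h.1
      rw [this, measure_empty]
      exact zero_le
  refine (Finset.sum_le_sum hb).trans ?_
  rw [Finset.sum_const, nsmul_eq_mul, Finset.card_product, mul_pow]
  have hc1 : (boxF d (n ^ m)).card = (n ^ m) ^ d := by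
    unfold boxF
    rw [Fintype.card_piFinset, Finset.prod_congr rfl fun _ _ =>
      show (Finset.Ico (0 : ℤ) ((n ^ m : ℕ) : ℤ)).card = n ^ m by
        rw [Int.card_Ico, sub_zero, Int.toNat_natCast]]
    simp
  have hc2 : (Finset.univ : Finset (Fin (2 * n ^ m) → Fin d → Fin 3)).card =
      (3 ^ d) ^ (2 * n ^ m) := by
    rw [Finset.card_univ, Fintype.card_fun, Fintype.card_fun, Fintype.card_fin, Fintype.card_fin,
      Fintype.card_fin]
  rw [hc1, hc2]
  push_cast
  rw [mul_assoc]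

/-- `(n^m)^(2d) (3^d p)^(2 n^m) → 0` for `3^d p < 1`. -/
theorem small_small {n : ℕ} (hn : 2 ≤ n) {p : unitInterval} (hp : (3 : ℝ) ^ d * p < 1)
    (ε : ℝ≥0∞) (hε : 0 < ε) (m₁ : ℕ) :
    ∃ m, m₁ ≤ m ∧ (((n ^ m) ^ d : ℕ) : ℝ≥0∞) * qq d n m p ≤ ε := by
  have hp0 : (0 : ℝ) ≤ p := p.2.1
  have hq0 : (0 : ℝ) ≤ (3 : ℝ) ^ d * p := by positivity
  have h1 : Tendsto (fun N : ℕ => (N : ℝ) ^ (2 * d) * (((3 : ℝ) ^ d * p) ^ 2) ^ N) atTop (𝓝 0) := by
    refine tendsto_pow_const_mul_const_pow_of_abs_lt_one (2 * d) ?_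
    rw [abs_of_nonneg (by positivity)]
    exact pow_lt_one₀ hq0 hp two_ne_zero
  have h2 : Tendsto (fun N : ℕ => ENNReal.ofReal ((N : ℝ) ^ (2 * d) *
      (((3 : ℝ) ^ d * p) ^ 2) ^ N)) atTop (𝓝 0) := by
    have := ENNReal.tendsto_ofReal h1
    rwa [ENNReal.ofReal_zero] at this
  have h3 : Tendsto (fun m : ℕ => n ^ m) atTop atTop :=
    tendsto_pow_atTop_atTop_of_one_lt (by omega)
  have h4 := (ENNReal.tendsto_nhds_zero.1 (h2.comp h3)) ε hε
  obtain ⟨m, hm1, hm2⟩ := (h4.and (eventually_ge_atTop (max m₁ 1))).exists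
  refine ⟨m, (le_max_left _ _).trans hm2, ?_⟩
  refine le_trans ?_ hm1
  refine (mul_le_mul' le_rfl (qq_le_small (by omega) ((le_max_right _ _).trans hm2) p)).trans
    (le_of_eq ?_)
  have e1 : ((3 ^ d : ℕ) : ℝ≥0∞) * ENNReal.ofReal p = ENNReal.ofReal ((3 : ℝ) ^ d * p) := by
    rw [ENNReal.ofReal_mul (by positivity), ENNReal.ofReal_pow (by norm_num)]
    push_cast
    simp
  have e2 : (((n ^ m) ^ d : ℕ) : ℝ≥0∞) = ENNReal.ofReal (((n ^ m : ℕ) : ℝ) ^ d) := by
    rw [ENNReal.ofReal_pow (by positivity), ENNReal.ofReal_natCast]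
    push_cast
    rfl
  rw [e1, e2, ← ENNReal.ofReal_pow hq0, ← ENNReal.ofReal_mul (by positivity),
    ← ENNReal.ofReal_mul (by positivity)]
  show _ = ENNReal.ofReal _
  congr 1
  rw [two_mul d, pow_add, pow_mul ((3 : ℝ) ^ d * (p : ℝ)) 2, mul_assoc]

end gtFP
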