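import Pool.Agent.Lib.gtFP.SqB

/-! Iteration. -/

open MeasureTheory ProbabilityTheory Filter Topology
open scoped NNReal ENNReal

namespace gtFP

variable {d : ℕ}

private theorem lin_le_two_pow (A B m₁ : ℕ) : ∃ i, m₁ ≤ i ∧ A * i + B ≤ 2 ^ i := by
  refine ⟨2 * (2 * A + B + m₁ + 1), by omega, ?_⟩
  set t := 2 * A + B + m₁ + 1 with ht
  have h1 : t < 2 ^ t := Nat.lt_two_pow_self
  have h2 : 2 ^ (2 * t) = 2 ^ t * 2 ^ t := by rw [two_mul, pow_add]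
  rw [h2]
  have h3 : t * t ≤ 2 ^ t * 2 ^ t := Nat.mul_le_mul h1.le h1.le
  have h4 : A * (2 * t) + B ≤ t * t := by
    have h5 : t * t = (2 * A + B + m₁ + 1) * t := by rw [← ht]
    have h6 : 1 ≤ t := by omega
    have h7 : B ≤ B * t := Nat.le_mul_of_pos_right _ (by omega)
    nlinarith
  omega

private theorem two_pow_mul_half_pow (a s b : ℕ) (h : a + s ≤ b) :
    (2 : ℝ≥0∞) ^ a * (2⁻¹ : ℝ≥0∞) ^ b ≤ (2⁻¹ : ℝ≥0∞) ^ s := by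
  obtain ⟨e, rfl⟩ := Nat.exists_eq_add_of_le h
  have h1 : (2 : ℝ≥0∞) ^ a * (2⁻¹ : ℝ≥0∞) ^ a = 1 := by
    rw [← mul_pow, ENNReal.mul_inv_cancel (by norm_num) (by norm_num), one_pow]
  have h2 : (2⁻¹ : ℝ≥0∞) ^ e ≤ 1 := pow_le_one₀ (by simp) (by
    rw [ENNReal.inv_le_one]; norm_num)
  calc (2 : ℝ≥0∞) ^ a * (2⁻¹ : ℝ≥0∞) ^ (a + s + e)
      = ((2 : ℝ≥0∞) ^ a * (2⁻¹ : ℝ≥0∞) ^ a) * (2⁻¹ : ℝ≥0∞) ^ s * (2⁻¹ : ℝ≥0∞) ^ e := by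
        rw [pow_add, pow_add]; ring
    _ = (2⁻¹ : ℝ≥0∞) ^ s * (2⁻¹ : ℝ≥0∞) ^ e := by rw [h1, one_mul]
    _ ≤ (2⁻¹ : ℝ≥0∞) ^ s * 1 := by gcongr
    _ = (2⁻¹ : ℝ≥0∞) ^ s := mul_one _

/-- Iteration: if `qq m → 0` then `qq m` is even `o(n^{-d m})` along a sequence.
Choose `j` with `n^j ≥ 8`, `K ≥ 1` from `qq_sq`, `m₀` with `K qq(m₀) ≤ 1/2`. Then
`K qq(m₀ + i j) ≤ (1/2)^(2^i)` by induction, and `n^{d (m₀ + i j)} (1/2)^(2^i) → 0`. -/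
theorem exists_small {n : ℕ} (hn : 2 ≤ n) (p : unitInterval)
    (hq : ∀ ε : ℝ≥0∞, 0 < ε → ∃ m, qq d n m p ≤ ε) (ε : ℝ≥0∞) (hε : 0 < ε) (m₁ : ℕ) :
    ∃ m, m₁ ≤ m ∧ (((n ^ m) ^ d : ℕ) : ℝ≥0∞) * qq d n m p ≤ ε := by
  have h8 : 8 ≤ n ^ 3 := by
    have : 2 ^ 3 ≤ n ^ 3 := Nat.pow_le_pow_left hn 3
    omega
  obtain ⟨K, hK⟩ := qq_sq (d := d) (n := n) (j := 3) (by omega) h8 p
  set K' : ℝ≥0∞ := (K : ℝ≥0∞) + 1 with hK'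
  have hK1 : (1 : ℝ≥0∞) ≤ K' := by rw [hK']; exact le_add_self
  have hK0 : K' ≠ 0 := (lt_of_lt_of_le one_pos hK1).ne'
  have hKt : K' ≠ ⊤ := by rw [hK']; simp
  obtain ⟨m₀, hm₀⟩ := hq ((2 * K')⁻¹) (ENNReal.inv_pos.2 (ENNReal.mul_ne_top (by norm_num) hKt))
  have iter : ∀ i : ℕ, K' * qq d n (m₀ + 3 * i) p ≤ (2⁻¹ : ℝ≥0∞) ^ (2 ^ i) := by
    intro i
    induction i with
    | zero =>
      rw [mul_zero, add_zero, pow_zero, pow_one]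
      calc K' * qq d n m₀ p ≤ K' * (2 * K')⁻¹ := by gcongr
        _ = 2⁻¹ := by
          rw [ENNReal.mul_inv (Or.inl (by norm_num)) (Or.inl (by norm_num)), ← mul_assoc,
            mul_comm K' 2⁻¹, mul_assoc, ENNReal.mul_inv_cancel hK0 hKt, mul_one]
    | succ i ih =>
      have h1 : m₀ + 3 * (i + 1) = 3 + (m₀ + 3 * i) := by ring
      rw [h1]
      calc K' * qq d n (3 + (m₀ + 3 * i)) p ≤ K' * (K * (qq d n (m₀ + 3 * i) p) ^ 2) := by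
            gcongr
            exact hK _
        _ ≤ K' * (K' * (qq d n (m₀ + 3 * i) p) ^ 2) := by
            gcongr
            rw [hK']; exact le_self_add
        _ = (K' * qq d n (m₀ + 3 * i) p) ^ 2 := by ring
        _ ≤ ((2⁻¹ : ℝ≥0∞) ^ (2 ^ i)) ^ 2 := by gcongr
        _ = (2⁻¹ : ℝ≥0∞) ^ (2 ^ (i + 1)) := by rw [← pow_mul, ← pow_succ]
  obtain ⟨s, hs⟩ : ∃ s : ℕ, (2⁻¹ : ℝ≥0∞) ^ s ≤ ε := by
    have h1 : Tendsto (fun s : ℕ => (2⁻¹ : ℝ≥0∞) ^ s) atTop (𝓝 0) :=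
      ENNReal.tendsto_pow_atTop_nhds_zero_of_lt_one (by
        rw [ENNReal.inv_lt_one]; norm_num)
    obtain ⟨s, hs⟩ := (h1.eventually (gt_mem_nhds hε)).exists
    exact ⟨s, hs.le⟩
  obtain ⟨i, hi, hi2⟩ := lin_le_two_pow (n * d * 3) (n * d * m₀ + s) m₁
  refine ⟨m₀ + 3 * i, by omega, ?_⟩
  have h2 : ((n ^ (m₀ + 3 * i)) ^ d : ℕ) ≤ 2 ^ (n * (m₀ + 3 * i) * d) := by
    have h3 : n ≤ 2 ^ n := Nat.lt_two_pow_self.le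
    calc (n ^ (m₀ + 3 * i)) ^ d ≤ ((2 ^ n) ^ (m₀ + 3 * i)) ^ d :=
          Nat.pow_le_pow_left (Nat.pow_le_pow_left h3 _) _
      _ = 2 ^ (n * (m₀ + 3 * i) * d) := by rw [← pow_mul, ← pow_mul, mul_assoc]
  have h4 : (((n ^ (m₀ + 3 * i)) ^ d : ℕ) : ℝ≥0∞) ≤ (2 : ℝ≥0∞) ^ (n * (m₀ + 3 * i) * d) := by
    exact_mod_cast h2
  have h5 : qq d n (m₀ + 3 * i) p ≤ (2⁻¹ : ℝ≥0∞) ^ (2 ^ i) := by
    refine le_trans ?_ (iter i)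
    calc qq d n (m₀ + 3 * i) p = 1 * qq d n (m₀ + 3 * i) p := (one_mul _).symm
      _ ≤ K' * qq d n (m₀ + 3 * i) p := by gcongr
  calc (((n ^ (m₀ + 3 * i)) ^ d : ℕ) : ℝ≥0∞) * qq d n (m₀ + 3 * i) p
      ≤ (2 : ℝ≥0∞) ^ (n * (m₀ + 3 * i) * d) * (2⁻¹ : ℝ≥0∞) ^ (2 ^ i) := by gcongr
    _ ≤ (2⁻¹ : ℝ≥0∞) ^ s := by
        apply two_pow_mul_half_pow
        calc n * (m₀ + 3 * i) * d + s = n * d * 3 * i + (n * d * m₀ + s) := by ring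
          _ ≤ 2 ^ i := hi2
    _ ≤ ε := hs

end gtFP
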