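import Pool.Agent.Lib.gtFP.DiscA

/-! Zero-one law, part D: on survival the number of kept cubes tends to infinity. -/

open MeasureTheory ProbabilityTheory Filter Topology
open scoped NNReal ENNReal

namespace gtFP

variable {d : ℕ}

/-- The event `{Rf n 1 k = S}` depends on the levels `1, …, k`. -/
theorem zeroD_meas_Rf (n k : ℕ) (S : Finset (Fin d → ℤ)) :
    MeasurableSet[sg (Lv d 0 k)] {ω : Cfg d | Rf n 1 k ω = S} := by
  have h1 : {ω : Cfg d | Rf n 1 k ω = S} =
      ⋂ a : Fin d → ℤ, {ω : Cfg d | (InBox (n ^ k) a ∧ Kept n k ω a) ↔ a ∈ S} := by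
    ext ω
    simp only [Set.mem_ofPred_eq, Set.mem_iInter, Finset.ext_iff, mem_Rf, one_mul]
  rw [h1]
  refine @MeasurableSet.iInter _ _ (sg (Lv d 0 k)) _ _ fun a => ?_
  by_cases ha : InBox (n ^ k) a
  · by_cases hS : a ∈ S
    · have h2 : {ω : Cfg d | (InBox (n ^ k) a ∧ Kept n k ω a) ↔ a ∈ S} =
          {ω : Cfg d | Kept n k ω a} := by
        ext ω
        simp [ha, hS]
      rw [h2]
      exact meas_kept a
    · have h2 : {ω : Cfg d | (InBox (n ^ k) a ∧ Kept n k ω a) ↔ a ∈ S} =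
          {ω : Cfg d | Kept n k ω a}ᶜ := by
        ext ω
        simp [ha, hS]
      rw [h2]
      exact @MeasurableSet.compl _ _ (sg (Lv d 0 k)) (meas_kept a)
  · by_cases hS : a ∈ S
    · have h2 : {ω : Cfg d | (InBox (n ^ k) a ∧ Kept n k ω a) ↔ a ∈ S} = ∅ := by
        ext ω
        simp [ha, hS]
      rw [h2]
      exact @MeasurableSet.empty _ (sg (Lv d 0 k))
    · have h2 : {ω : Cfg d | (InBox (n ^ k) a ∧ Kept n k ω a) ↔ a ∈ S} = Set.univ := by
        ext ω
        simp [ha, hS]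
      rw [h2]
      exact @MeasurableSet.univ _ (sg (Lv d 0 k))

/-- the children of the cubes of `S` -/
noncomputable def zeroD_ch (n : ℕ) (S : Finset (Fin d → ℤ)) : Finset (Fin d → ℤ) :=
  open Classical in S.biUnion fun Q => Fintype.piFinset fun t => Finset.Ico ((n : ℤ) * Q t) (n * Q t + n)

theorem zeroD_mem_ch {n : ℕ} (hn : 1 ≤ n) {S : Finset (Fin d → ℤ)} {a : Fin d → ℤ}
    (h : anc n 1 a ∈ S) : a ∈ zeroD_ch n S := by
  classical
  have hpos : (0 : ℤ) < (n : ℤ) := by exact_mod_cast hn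
  refine Finset.mem_biUnion.2 ⟨anc n 1 a, h, Fintype.mem_piFinset.2 fun t => ?_⟩
  rw [Finset.mem_Ico]
  simp only [anc, pow_one]
  have h4 := Int.mul_ediv_add_emod (a t) (n : ℤ)
  have h5 := Int.emod_nonneg (a t) hpos.ne'
  have h6 := Int.emod_lt_of_pos (a t) hpos
  constructor <;> linarith

theorem zeroD_card_ch (n : ℕ) (S : Finset (Fin d → ℤ)) : (zeroD_ch n S).card ≤ n ^ d * S.card := by
  classical
  refine Finset.card_biUnion_le.trans ?_
  rw [mul_comm, ← smul_eq_mul, ← Finset.sum_const]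
  refine Finset.sum_le_sum fun Q _ => ?_
  rw [Fintype.card_piFinset, Finset.prod_congr rfl fun t _ =>
    show (Finset.Ico ((n : ℤ) * Q t) (n * Q t + n)).card = n by
      rw [Int.card_Ico, add_sub_cancel_left, Int.toNat_natCast]]
  simp

/-- the probability that all coordinates of a finite set are `false` -/
theorem zeroD_prob_false (p : unitInterval) (T : Finset (ℕ × (Fin d → ℤ))) :
    percLaw d p {ω | ∀ i ∈ T, ω i = false} = (1 - ENNReal.ofReal p) ^ T.card := by
  have h1 : {ω : Cfg d | ∀ i ∈ T, ω i = false} =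
      Set.pi (T : Set (ℕ × (Fin d → ℤ))) (fun _ => {false}) := by
    ext ω
    simp [Set.mem_pi]
  rw [h1, percLaw, Measure.infinitePi_pi _ (fun _ _ => MeasurableSet.of_discrete)]
  have h2 : ∀ i ∈ T, (bernoulliMeasure true false p) {false} = 1 - ENNReal.ofReal p := by
    intro i _
    rw [bernoulliMeasure_apply_of_notMem_of_mem p MeasurableSet.of_discrete (by simp) (by simp)]
    have h3 : (1 : ℝ≥0∞) - ENNReal.ofReal p = ENNReal.ofReal (1 - p) := by
      rw [ENNReal.ofReal_sub _ p.2.1, ENNReal.ofReal_one]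
    rw [h3, ENNReal.ofReal]
    congr 1
    exact (Real.toNNReal_of_nonneg (sub_nonneg.2 p.2.2)).symm
  rw [Finset.prod_congr rfl h2, Finset.prod_const]

/-- For a set `S` of cubes of level `k` in the box: `{Rf n 1 k = S}` (levels `≤ k`) is independent of
the event that no child of a cube of `S` is kept in step `k + 1` (the `(n^d) |S|` coordinates
`(k+1, b)`, `anc n 1 b ∈ S`), which has probability `(1-p)^(n^d |S|)`
(`Measure.infinitePi_pi`); on the intersection `Rf n 1 (k+1) ω = ∅`. -/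
theorem prob_die {n k L : ℕ} (hn : 2 ≤ n) (p : unitInterval) (S : Finset (Fin d → ℤ))
    (hS : S.card ≤ L) :
    percLaw d p {ω | Rf n 1 k ω = S} * (1 - ENNReal.ofReal p) ^ (n ^ d * L) ≤
      percLaw d p {ω | Rf n 1 k ω = S ∧ Rf n 1 (k + 1) ω = ∅} := by
  classical
  set T : Finset (ℕ × (Fin d → ℤ)) := (zeroD_ch n S).image fun b => (k + 1, b) with hT
  have hTc : T.card ≤ n ^ d * L :=
    Finset.card_image_le.trans ((zeroD_card_ch n S).trans (Nat.mul_le_mul_left _ hS))
  have hB : MeasurableSet[sg (Lv d k 1)] {ω : Cfg d | ∀ i ∈ T, ω i = false} := by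
    have h1 : {ω : Cfg d | ∀ i ∈ T, ω i = false} = ⋂ i ∈ T, {ω : Cfg d | ω i = false} := by
      ext ω
      simp
    rw [h1]
    refine Finset.measurableSet_biInter _ fun i hi => ?_
    obtain ⟨b, -, rfl⟩ := Finset.mem_image.1 hi
    refine meas_coord (I := Lv d k 1) ⟨?_, ?_⟩ false
    · show k < k + 1
      omega
    · show k + 1 ≤ k + 1
      exact le_rfl
  have hdis : Disjoint (Lv d 0 k) (Lv d k 1) := by
    rw [Set.disjoint_left]
    rintro i ⟨-, h1⟩ ⟨h2, -⟩
    omega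
  have hind := (Indep_iff _ _ _).1 (sg_indep (d := d) (p := p) hdis) _ _
    (zeroD_meas_Rf (d := d) n k S) hB
  have h1 : (1 - ENNReal.ofReal p) ^ (n ^ d * L) ≤
      percLaw d p {ω : Cfg d | ∀ i ∈ T, ω i = false} := by
    rw [zeroD_prob_false]
    exact pow_le_pow_right_of_le_one' tsub_le_self hTc
  refine (mul_le_mul' le_rfl h1).trans ?_
  rw [← hind]
  refine measure_mono ?_
  rintro ω ⟨h2, h3⟩
  refine ⟨h2, ?_⟩
  rw [Finset.eq_empty_iff_forall_notMem]
  intro a ha
  rw [mem_Rf, one_mul] at ha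
  obtain ⟨h4, h5⟩ := ha
  have h6 := kept_add.1 h5
  have h7 : anc n 1 a ∈ Rf n 1 k ω := by
    rw [mem_Rf, one_mul]
    exact ⟨inBox_anc (by omega) h4, h6.1⟩
  have h2' : Rf n 1 k ω = S := h2
  rw [h2'] at h7
  have h8 := h3 (k + 1, a) (Finset.mem_image.2 ⟨a, zeroD_mem_ch (by omega) h7, rfl⟩)
  have h9 := h6.2 1 le_rfl le_rfl
  rw [Nat.sub_self, anc_zero, h8] at h9
  exact absurd h9 (by simp)

/-- If no cube is kept at level `k`, none is kept later. -/
theorem zeroD_mono {n k l : ℕ} (hn : 1 ≤ n) (hkl : k ≤ l) {ω : Cfg d} (h : Rf n 1 k ω = ∅) :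
    Rf n 1 l ω = ∅ := by
  rw [Finset.eq_empty_iff_forall_notMem]
  intro a ha
  rw [mem_Rf, one_mul] at ha
  obtain ⟨h4, h5⟩ := ha
  obtain ⟨s, rfl⟩ := Nat.exists_eq_add_of_le hkl
  have h7 : anc n s a ∈ Rf n 1 k ω := by
    rw [mem_Rf, one_mul]
    exact ⟨inBox_anc hn h4, (kept_add.1 h5).1⟩
  rw [h] at h7
  exact absurd h7 (Finset.notMem_empty _)

/-- With `κ = (1-p)^(n^d L) > 0`: `κ P(1 ≤ |R_k| ≤ L) ≤ P(R_k ≠ ∅, R_{k+1} = ∅)` (sum of `prob_die`
over the finitely many `S ⊆ boxF`), and the events `{R_k ≠ ∅, R_{k+1} = ∅}` are disjoint for different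
`k` (`R_{k+1} = ∅` implies `R_l = ∅` for `l > k`), so the sum over `k` of the probabilities is at most
one, and the terms tend to `0`. -/
theorem tendsto_few {n : ℕ} (hn : 2 ≤ n) {p : unitInterval} (hp : p < 1) (L : ℕ) :
    Tendsto (fun k => percLaw d p {ω | (Rf n 1 k ω).Nonempty ∧ (Rf n 1 k ω).card ≤ L}) atTop
      (𝓝 0) := by
  classical
  have : IsProbabilityMeasure (percLaw d p) := by
    unfold percLaw
    infer_instance
  have hmS : ∀ k (S : Finset (Fin d → ℤ)), MeasurableSet {ω : Cfg d | Rf n 1 k ω = S} :=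
    fun k S => sg_le _ _ (zeroD_meas_Rf n k S)
  set κ : ℝ≥0∞ := (1 - ENNReal.ofReal p) ^ (n ^ d * L) with hκ
  have hp1 : (p : ℝ) < 1 := hp
  have hκ0 : κ ≠ 0 := by
    refine pow_ne_zero _ ?_
    rw [Ne, tsub_eq_zero_iff_le, not_le, ← ENNReal.ofReal_one]
    exact (ENNReal.ofReal_lt_ofReal_iff one_pos).2 hp1
  have hκt : κ ≠ ⊤ := ENNReal.pow_ne_top (ENNReal.sub_ne_top ENNReal.one_ne_top)
  set Dd : ℕ → Set (Cfg d) := fun k => {ω | (Rf n 1 k ω).Nonempty ∧ Rf n 1 (k + 1) ω = ∅} with hD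
  have hDm : ∀ k, MeasurableSet (Dd k) := by
    intro k
    have h1 : Dd k = {ω : Cfg d | Rf n 1 k ω = ∅}ᶜ ∩ {ω : Cfg d | Rf n 1 (k + 1) ω = ∅} := by
      ext ω
      simp [hD, Finset.nonempty_iff_ne_empty]
    rw [h1]
    exact (hmS k ∅).compl.inter (hmS (k + 1) ∅)
  have hDd : Pairwise (fun i j => Disjoint (Dd i) (Dd j)) := by
    have key : ∀ i j, i < j → Disjoint (Dd i) (Dd j) := by
      intro i j hij
      rw [Set.disjoint_left]
      rintro ω ⟨-, h1⟩ ⟨h2, -⟩
      have h3 := zeroD_mono (by omega) (show i + 1 ≤ j by omega) h1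
      rw [h3] at h2
      exact absurd h2 Finset.not_nonempty_empty
    intro i j hij
    rcases lt_or_gt_of_ne hij with h | h
    · exact key i j h
    · exact (key j i h).symm
  have hsum : ∑' k, percLaw d p (Dd k) ≠ ⊤ :=
    ((tsum_meas_le_meas_iUnion_of_disjoint (percLaw d p) hDm hDd).trans_lt
      (measure_lt_top _ _)).ne
  have hlim := ENNReal.tendsto_atTop_zero_of_tsum_ne_top hsum
  have hbound : ∀ k, percLaw d p {ω | (Rf n 1 k ω).Nonempty ∧ (Rf n 1 k ω).card ≤ L} ≤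
      κ⁻¹ * percLaw d p (Dd k) := by
    intro k
    set I : Finset (Finset (Fin d → ℤ)) := ((boxF d (n ^ (1 * k))).powerset).filter
      fun S => S.Nonempty ∧ S.card ≤ L with hI
    have hcov : {ω : Cfg d | (Rf n 1 k ω).Nonempty ∧ (Rf n 1 k ω).card ≤ L} ⊆
        ⋃ S ∈ I, {ω : Cfg d | Rf n 1 k ω = S} := by
      rintro ω ⟨h1, h2⟩
      simp only [Set.mem_iUnion, Set.mem_ofPred_eq]
      exact ⟨Rf n 1 k ω, Finset.mem_filter.2 ⟨Finset.mem_powerset.2 (Finset.filter_subset _ _),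
        h1, h2⟩, rfl⟩
    have h1 : percLaw d p {ω | (Rf n 1 k ω).Nonempty ∧ (Rf n 1 k ω).card ≤ L} * κ ≤
        percLaw d p (Dd k) := by
      refine (mul_le_mul' ((measure_mono hcov).trans (measure_biUnion_finset_le _ _)) le_rfl).trans ?_
      rw [Finset.sum_mul]
      refine (Finset.sum_le_sum fun S hS =>
        prob_die hn p S (Finset.mem_filter.1 hS).2.2).trans ?_
      rw [← measure_biUnion_finset]
      · refine measure_mono ?_
        intro ω hω
        simp only [Set.mem_iUnion, Set.mem_ofPred_eq] at hω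
        obtain ⟨S, hS, h2, h3⟩ := hω
        refine ⟨?_, h3⟩
        rw [h2]
        exact (Finset.mem_filter.1 hS).2.1
      · intro S _ S' _ hne
        show Disjoint _ _
        rw [Set.disjoint_left]
        rintro ω ⟨h2, -⟩ ⟨h3, -⟩
        exact hne (h2.symm.trans h3)
      · intro S _
        exact (hmS k S).inter (hmS (k + 1) ∅)
    rw [mul_comm κ⁻¹, ← div_eq_mul_inv]
    exact (ENNReal.le_div_iff_mul_le (Or.inl hκ0) (Or.inl hκt)).2 h1
  refine tendsto_of_tendsto_of_tendsto_of_le_of_le tendsto_const_nhds ?_ (fun _ => zero_le) hbound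
  have := ENNReal.Tendsto.const_mul hlim (Or.inr (ENNReal.inv_ne_top.2 hκ0))
  rwa [mul_zero] at this

end gtFP
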