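import Pool.Agent.Lib.gtFP.ZeroB
import Pool.Agent.Lib.gtFP.ZeroC
import Pool.Agent.Lib.gtFP.ZeroD
import Pool.Agent.Lib.gtFP.FinC
import Pool.Agent.Lib.gtFP.SqC
import Pool.Agent.Lib.gtFP.DiscB
import Pool.Agent.Lib.gtFP.Conv

/-! Zero-one law and dichotomy. -/

open MeasureTheory ProbabilityTheory Filter Topology
open scoped NNReal ENNReal

namespace gtFP

variable {d : ℕ}

private theorem zeroE_meas_Rf (n k : ℕ) (S : Finset (Fin d → ℤ)) :
    MeasurableSet {ω : Cfg d | Rf n 1 k ω = S} := by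
  have h1 : {ω : Cfg d | Rf n 1 k ω = S} =
      ⋂ a : Fin d → ℤ, {ω : Cfg d | a ∈ S ↔ (InBox (n ^ k) a ∧ Kept n k ω a)} := by
    ext ω
    simp only [Set.mem_ofPred_eq, Set.mem_iInter, Finset.ext_iff, mem_Rf, one_mul]
    exact forall_congr' fun a => Iff.comm
  rw [h1]
  refine MeasurableSet.iInter fun a => ?_
  have h2 : MeasurableSet {ω : Cfg d | Kept n k ω a} := sg_le _ _ (meas_kept a)
  by_cases hb : InBox (n ^ k) a
  · by_cases hS : a ∈ S
    · convert h2 using 2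
      ext ω
      simp [hb, hS]
    · convert h2.compl using 2
      ext ω
      simp [hb, hS]
  · convert (MeasurableSet.const (¬ a ∈ S) : MeasurableSet {_ω : Cfg d | ¬ a ∈ S}) using 2
    ext ω
    simp [hb]

private theorem zeroE_bound {n : ℕ} (hn : 2 ≤ n) (p : unitInterval) (k L : ℕ) :
    percLaw d p {ω | (perc n ω).Nonempty ∧ IsTotallyDisconnected (perc n ω)} ≤
      percLaw d p {ω | (Rf n 1 k ω).Nonempty ∧ (Rf n 1 k ω).card ≤ L} +
        (1 - percLaw d p {ω | Evt n 0 3 ω 0}) ^ L := by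
  classical
  have : IsProbabilityMeasure (percLaw d p) := by
    unfold percLaw
    infer_instance
  have h5 : 5 ≤ n ^ 3 := by
    calc 5 ≤ 2 ^ 3 := by norm_num
      _ ≤ n ^ 3 := Nat.pow_le_pow_left hn 3
  set c := percLaw d p {ω : Cfg d | Evt n 0 3 ω 0} with hc
  set P : Finset (Finset (Fin d → ℤ)) := (boxF d (n ^ (1 * k))).powerset.filter fun S => L ≤ S.card
    with hP
  have hsub : {ω : Cfg d | (perc n ω).Nonempty ∧ IsTotallyDisconnected (perc n ω)} ⊆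
      {ω | (Rf n 1 k ω).Nonempty ∧ (Rf n 1 k ω).card ≤ L} ∪
        ⋃ S ∈ P, {ω | Rf n 1 k ω = S ∧ ∀ Q ∈ S, ¬ Evt n k 3 ω Q} := by
    rintro ω ⟨⟨x, hx⟩, h2⟩
    have h3 : x ∈ percStep n (1 * k) ω := Set.mem_iInter.1 hx _
    obtain ⟨a, ha1, ha2, -⟩ := h3
    have h4 : a ∈ Rf n 1 k ω := mem_Rf.2 ⟨ha1, ha2⟩
    rcases le_or_gt (Rf n 1 k ω).card L with h6 | h6
    · exact Or.inl ⟨⟨a, h4⟩, h6⟩
    · refine Or.inr ?_
      simp only [Set.mem_iUnion]
      refine ⟨Rf n 1 k ω, ?_, rfl, fun Q hQ hE => not_td_of_evt hn h5 hQ hE h2⟩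
      rw [hP, Finset.mem_filter, Finset.mem_powerset]
      exact ⟨fun b hb => mem_boxF.2 (mem_Rf.1 hb).1, h6.le⟩
  refine (measure_mono hsub).trans ((measure_union_le _ _).trans ?_)
  refine add_le_add le_rfl ?_
  refine (measure_biUnion_finset_le _ _).trans ?_
  calc ∑ S ∈ P, percLaw d p {ω | Rf n 1 k ω = S ∧ ∀ Q ∈ S, ¬ Evt n k 3 ω Q}
      = ∑ S ∈ P, percLaw d p {ω | Rf n 1 k ω = S} * (1 - c) ^ S.card :=
        Finset.sum_congr rfl fun S _ => prob_no_evt hn h5 p S S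
    _ ≤ ∑ S ∈ P, percLaw d p {ω | Rf n 1 k ω = S} * (1 - c) ^ L := by
        refine Finset.sum_le_sum fun S hS => ?_
        refine mul_le_mul' le_rfl ?_
        exact pow_le_pow_right_of_le_one' tsub_le_self (Finset.mem_filter.1 hS).2
    _ = (∑ S ∈ P, percLaw d p {ω | Rf n 1 k ω = S}) * (1 - c) ^ L := by rw [Finset.sum_mul]
    _ ≤ 1 * (1 - c) ^ L := by
        refine mul_le_mul' ?_ le_rfl
        rw [← measure_univ (μ := percLaw d p)]
        refine sum_measure_le_measure_univ (fun S _ => (zeroE_meas_Rf n k S).nullMeasurableSet) ?_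
        intro S _ S' _ hSS
        refine Disjoint.aedisjoint ?_
        rw [Set.disjoint_left]
        intro ω h1 h2
        exact hSS (h1.symm.trans h2)
    _ = _ := one_mul _

/-- Let `c = P(Evt n 0 k₀ 0) > 0` (`prob_evt_pos`, `n^k₀ ≥ 5`). For all `k`, `L`:
`{F ≠ ∅, F totally disconnected} ⊆ {R_k ≠ ∅, ∀ Q ∈ R_k, ¬ Evt Q}` (`not_td_of_evt`; a point of `F`
gives a kept cube), which is contained in
`{1 ≤ |R_k| ≤ L} ∪ ⋃_{S ⊆ box, |S| > L} {R_k = S, ∀ Q ∈ S, ¬ Evt Q}`, so its measure is at most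
`P(1 ≤ |R_k| ≤ L) + (1-c)^L` (`prob_no_evt` with `S' = S`, sum over the disjoint events
`{R_k = S}`). Let `k → ∞` (`tendsto_few`), then `L → ∞`. -/
theorem ae_not_td {n : ℕ} (hn : 2 ≤ n) {p : unitInterval} (hp0 : 0 < p) (hp : p < 1)
    {ε : ℝ≥0∞} (hε : 0 < ε) (h : ∀ m, ε ≤ qq d n m p) :
    ∀ᵐ ω ∂(percLaw d p), (perc n ω).Nonempty → ¬ IsTotallyDisconnected (perc n ω) := by
  have hc : 0 < percLaw d p {ω : Cfg d | Evt n 0 3 ω 0} := prob_evt_pos (by omega) hp0 hε h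
  set c := percLaw d p {ω : Cfg d | Evt n 0 3 ω 0} with hcd
  have h1 : ∀ L, percLaw d p {ω | (perc n ω).Nonempty ∧ IsTotallyDisconnected (perc n ω)} ≤
      (1 - c) ^ L := by
    intro L
    have h2 := (tendsto_few (d := d) hn hp L).add_const ((1 - c) ^ L)
    rw [zero_add] at h2
    exact ge_of_tendsto h2 (Eventually.of_forall fun k => zeroE_bound hn p k L)
  have h3 : (1 - c) < 1 := ENNReal.sub_lt_self (by norm_num) (by norm_num) hc.ne'
  have h4 : percLaw d p {ω | (perc n ω).Nonempty ∧ IsTotallyDisconnected (perc n ω)} ≤ 0 :=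
    ge_of_tendsto (ENNReal.tendsto_pow_atTop_nhds_zero_of_lt_one h3)
      (Eventually.of_forall fun L => h1 L)
  rw [ae_iff]
  refine le_antisymm ((measure_mono ?_).trans h4) zero_le
  intro ω hω
  simp only [Set.mem_ofPred_eq, Classical.not_imp, not_not] at hω ⊢
  exact hω

/-- For `p = 0` the set `F` is almost surely empty (`F_1 = ∅`). -/
theorem ae_empty_zero {n : ℕ} (hn : 2 ≤ n) {p : unitInterval} (hp : p = 0) :
    ∀ᵐ ω ∂(percLaw d p), perc n ω = ∅ := by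
  subst hp
  rw [ae_iff]
  have h1 : {ω : Cfg d | ¬ perc n ω = ∅} ⊆ ⋃ a : Fin d → ℤ, {ω : Cfg d | ω (1, a) = true} := by
    intro ω hω
    obtain ⟨x, hx⟩ := Set.nonempty_iff_ne_empty.2 (show perc n ω ≠ ∅ from hω)
    have h2 : x ∈ percStep n 1 ω := Set.mem_iInter.1 hx 1
    obtain ⟨a, -, ha, -⟩ := h2
    exact Set.mem_iUnion.2 ⟨anc n (1 - 1) a, ha 1 le_rfl le_rfl⟩
  refine measure_mono_null h1 (measure_iUnion_null fun a => ?_)
  have h2 : {ω : Cfg d | ω (1, a) = true} = Set.pi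
      (({(1, a)} : Finset (ℕ × (Fin d → ℤ))) : Set (ℕ × (Fin d → ℤ))) (fun _ => {true}) := by
    ext ω
    simp
  rw [h2, percLaw, Measure.infinitePi_pi _ (fun _ _ => MeasurableSet.of_discrete)]
  rw [Finset.prod_singleton,
    bernoulliMeasure_apply_of_mem_of_notMem 0 MeasurableSet.of_discrete (by simp) (by simp)]
  simp

end gtFP
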