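import Pool.Agent.Lib.gtFP.FinC
import Pool.Agent.Lib.gtFP.DiscB
import Pool.Agent.Lib.gtFP.SqC
import Pool.Agent.Lib.gtFP.One
import Pool.Agent.Lib.gtFP.Small
import Pool.Agent.Lib.gtFP.ZeroE

/-! Main theorem. -/

open MeasureTheory Filter Topology
open scoped NNReal ENNReal

namespace gtFP

theorem main (d n : ℕ) (hd : 1 ≤ d) (hn : 2 ≤ n) (p : unitInterval)
    (h : ∀ᵐ ω ∂(percLaw d p), IsTotallyDisconnected (perc n ω)) :
    ∀ᵐ ω ∂(percLaw d p), confDimB (perc n ω) = 0 ∧ confDimH (perc n ω) = 0 :=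
  ae_confDim_eq hn hd p (exists_small hn p (qq_tendsto hn hd p h))

theorem main_one (n : ℕ) (hn : 2 ≤ n) (p : unitInterval) (hp : p < 1) :
    ∀ᵐ ω ∂(percLaw 1 p), confDimB (perc n ω) = 0 ∧ confDimH (perc n ω) = 0 :=
  ae_confDim_eq hn le_rfl p (one_small hn hp)

theorem main_small (d n : ℕ) (hd : 1 ≤ d) (hn : 2 ≤ n) (p : unitInterval)
    (hp : (3 : ℝ) ^ d * p < 1) :
    ∀ᵐ ω ∂(percLaw d p), confDimB (perc n ω) = 0 ∧ confDimH (perc n ω) = 0 :=
  ae_confDim_eq hn hd p (small_small hn hp)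

/-- Dichotomy: either `F` is a.s. totally disconnected and both conformal dimensions are a.s. `0`, or
a.s. on `F ≠ ∅` the set `F` is not totally disconnected and `1 ≤ C dim_H F`. -/
theorem main_dich (d n : ℕ) (hd : 1 ≤ d) (hn : 2 ≤ n) (p : unitInterval) (hp : p < 1) :
    (∀ᵐ ω ∂(percLaw d p), IsTotallyDisconnected (perc n ω) ∧
      confDimB (perc n ω) = 0 ∧ confDimH (perc n ω) = 0) ∨
    (∀ᵐ ω ∂(percLaw d p), (perc n ω).Nonempty →
      ¬ IsTotallyDisconnected (perc n ω) ∧ 1 ≤ confDimH (perc n ω)) := by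
  rcases eq_or_ne p 0 with hp0 | hp0
  · right
    filter_upwards [ae_empty_zero (d := d) hn hp0] with ω hω hne
    rw [hω] at hne
    exact absurd hne Set.not_nonempty_empty
  by_cases hq : ∀ ε : ℝ≥0∞, 0 < ε → ∃ m, qq d n m p ≤ ε
  · left
    filter_upwards [ae_confDim_eq hn hd p (exists_small hn p hq)] with ω hω
    refine ⟨?_, hω⟩
    by_contra hc
    have := one_le_confDimH_perc hc
    rw [hω.2] at this
    exact absurd this (by simp)
  · right
    push Not at hq
    obtain ⟨ε, hε, hq⟩ := hq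
    filter_upwards [ae_not_td (d := d) hn (unitInterval.pos_iff_ne_zero.2 hp0) hp hε
      (fun m => (hq m).le)] with ω hω hne
    exact ⟨hω hne, one_le_confDimH_perc (hω hne)⟩

end gtFP
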