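import Pool.Agent.Lib.gtFP.Rec

/-! Measurability and independence of the events of different levels. -/

open MeasureTheory ProbabilityTheory
open scoped NNReal ENNReal

namespace gtFP

variable {d : ℕ}

/-- the σ-algebra generated by the coordinates in `I` -/
def sg (I : Set (ℕ × (Fin d → ℤ))) : MeasurableSpace (Cfg d) :=
  ⨆ i ∈ I, MeasurableSpace.comap (fun ω : Cfg d => ω i) ⊤

theorem sg_mono {I J : Set (ℕ × (Fin d → ℤ))} (h : I ⊆ J) : sg I ≤ sg J :=
  biSup_mono h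

theorem sg_le (I : Set (ℕ × (Fin d → ℤ))) : sg I ≤ (inferInstance : MeasurableSpace (Cfg d)) :=
  iSup₂_le fun i _ => (measurable_pi_apply i : Measurable (fun ω : Cfg d => ω i)).comap_le

theorem meas_coord {I : Set (ℕ × (Fin d → ℤ))} {i : ℕ × (Fin d → ℤ)} (hi : i ∈ I) (b : Bool) :
    MeasurableSet[sg I] {ω : Cfg d | ω i = b} := by
  have h1 : MeasurableSpace.comap (fun ω : Cfg d => ω i) ⊤ ≤ sg I :=
    le_iSup₂ (f := fun (i : ℕ × (Fin d → ℤ)) (_ : i ∈ I) =>
      MeasurableSpace.comap (fun ω : Cfg d => ω i) ⊤) i hi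
  exact h1 _ ⟨{b}, trivial, rfl⟩

/-- Independence of disjoint sets of coordinates: `iIndepFun_infinitePi` (with `X i = id`) and
`indep_iSup_of_disjoint`. -/
theorem sg_indep {p : unitInterval} {I J : Set (ℕ × (Fin d → ℤ))} (h : Disjoint I J) :
    Indep (sg I) (sg J) (percLaw d p) := by
  have h1 : iIndepFun (fun (i : ℕ × (Fin d → ℤ)) (ω : Cfg d) => ω i) (percLaw d p) :=
    iIndepFun_infinitePi (X := fun _ (x : Bool) => x) (fun _ => measurable_id)
  have h2 := (iIndepFun_iff_iIndep _ _ _).1 h1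
  exact indep_iSup_of_disjoint
    (fun i => (measurable_pi_apply i : Measurable (fun ω : Cfg d => ω i)).comap_le) h2 h

/-- the coordinates of the levels in `(k, k + m]` -/
def Lv (d k m : ℕ) : Set (ℕ × (Fin d → ℤ)) := {i | k < i.1 ∧ i.1 ≤ k + m}

/-- the coordinates of the levels in `(k, k + m]` with ancestor of level `k` at distance at most 2
from `z` -/
def LvN (n k m : ℕ) (z : Fin d → ℤ) : Set (ℕ × (Fin d → ℤ)) :=
  {i | k < i.1 ∧ i.1 ≤ k + m ∧ nd (anc n (i.1 - k) i.2) z ≤ 2}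

private theorem meas_loc_aux {I : Set (ℕ × (Fin d → ℤ))} {n m k : ℕ} {a : Fin d → ℤ}
    (h : ∀ i, 1 ≤ i → i ≤ m → (k + i, anc n (m - i) a) ∈ I) :
    MeasurableSet[sg I] {ω : Cfg d | Loc n m k ω a} := by
  have h1 : {ω : Cfg d | Loc n m k ω a} =
      ⋂ i ∈ {i : ℕ | 1 ≤ i ∧ i ≤ m}, {ω : Cfg d | ω (k + i, anc n (m - i) a) = true} := by
    ext ω
    simp only [Loc, Set.mem_ofPred_eq, Set.mem_iInter, and_imp]
  rw [h1]
  exact @MeasurableSet.biInter _ _ (sg I) _ _ (Set.to_countable _)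
    fun i hi => meas_coord (h i hi.1 hi.2) true

/-- `{Loc a}` is the finite intersection of the events `ω (k+i, anc n (m-i) a) = true`. The ancestor
of level `k` of the cube `(k+i, anc n (m-i) a)` is `anc n m a` (`anc_anc`). -/
theorem meas_loc {n m k : ℕ} {a z : Fin d → ℤ} (h : nd (anc n m a) z ≤ 2) :
    MeasurableSet[sg (LvN n k m z)] {ω : Cfg d | Loc n m k ω a} := by
  refine meas_loc_aux fun i h1 h2 => ⟨by simp only; omega, by simp only; omega, ?_⟩
  simp only
  rw [anc_anc, show k + i - k + (m - i) = m by omega]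
  exact h

/-- `Bad n m k ω z ↔ ∃ l : List (Fin d → ℤ), P l ∧ ∀ a ∈ l, Loc n m k ω a`, where `P l` says that
`l = (List.range (r+1)).map f` for some `r, f` with the conditions of `Bad` which do not involve `ω`.
So the event is a countable union (over lists, a countable type) of finite intersections of events
`{Loc a}`; all cubes `a` of the chain satisfy `nd (anc n m a) z ≤ 2` (`nd_anc_mul` with `K = 2`). -/
theorem meas_bad {n m k : ℕ} (hn : 1 ≤ n) (z : Fin d → ℤ) :
    MeasurableSet[sg (LvN n k m z)] {ω : Cfg d | Bad n m k ω z} := by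
  have h1 : {ω : Cfg d | Bad n m k ω z} =
      ⋃ l ∈ {l : List (Fin d → ℤ) | ∃ (r : ℕ) (f : ℕ → Fin d → ℤ),
          l = (List.range (r + 1)).map f ∧ anc n m (f 0) = z ∧
          (∀ i < r, nd (f i) (f (i + 1)) ≤ 1) ∧ (∀ i ≤ r, nd (f 0) (f i) ≤ 2 * n ^ m) ∧
          2 * n ^ m ≤ nd (f 0) (f r)},
        ⋂ a ∈ {a : Fin d → ℤ | a ∈ l}, {ω : Cfg d | Loc n m k ω a} := by
    ext ω
    simp only [Set.mem_ofPred_eq, Set.mem_iUnion, Set.mem_iInter, Bad, exists_prop]
    constructor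
    · rintro ⟨r, f, h0, h1, h2, h3, h4⟩
      refine ⟨(List.range (r + 1)).map f, ⟨r, f, rfl, h0, h2, h3, h4⟩, fun a ha => ?_⟩
      obtain ⟨i, hi, rfl⟩ := List.mem_map.1 ha
      exact h1 i (by have := List.mem_range.1 hi; omega)
    · rintro ⟨l, ⟨r, f, rfl, h0, h2, h3, h4⟩, h⟩
      exact ⟨r, f, h0, fun i hi => h _ (List.mem_map.2 ⟨i, List.mem_range.2 (by omega), rfl⟩),
        h2, h3, h4⟩
  rw [h1]
  refine @MeasurableSet.biUnion _ _ (sg (LvN n k m z)) _ _ (Set.to_countable _) fun l hl => ?_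
  refine @MeasurableSet.biInter _ _ (sg (LvN n k m z)) _ _ (Set.to_countable _) fun a ha => ?_
  obtain ⟨r, f, rfl, h0, h2, h3, h4⟩ := hl
  obtain ⟨i, hi, rfl⟩ := List.mem_map.1 ha
  refine meas_loc ?_
  rw [← h0, nd_comm]
  exact nd_anc_mul hn (h3 i (by have := List.mem_range.1 hi; omega))

theorem meas_bad' {n m k : ℕ} (hn : 1 ≤ n) (z : Fin d → ℤ) :
    MeasurableSet[sg (Lv d k m)] {ω : Cfg d | Bad n m k ω z} :=
  sg_mono (show LvN n k m z ⊆ Lv d k m from fun _ hi => ⟨hi.1, hi.2.1⟩) _ (meas_bad hn z)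

theorem meas_kept {n k : ℕ} (a : Fin d → ℤ) :
    MeasurableSet[sg (Lv d 0 k)] {ω : Cfg d | Kept n k ω a} := by
  simp_rw [kept_iff_loc]
  exact meas_loc_aux fun i h1 h2 => ⟨by simp only; omega, by simp only; omega⟩

end gtFP
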