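import Pool.Agent.Lib.gtFP.MetA

/-! The abstract metric construction, part 2: the lower bound for chains. -/

open scoped NNReal ENNReal

namespace gtFP

variable {X : Type} {s : X → X → ℝ} {N : ℕ} {Λ : ℕ → X → ℝ} {δ H : ℝ}

private theorem LamSys.s_nonneg' (h : LamSys s N Λ δ H) (x y : X) : 0 ≤ s x y := by
  by_cases hxy : x = y
  · rw [hxy, h.s_self]
  · exact (h.s_pos x y hxy).le

private theorem LamSys.δ_le (h : LamSys s N Λ δ H) (x : X) : δ ≤ 1 / 2 := by
  have h1 := h.low 0 x
  have h2 := h.dec 0 x
  have h3 := h.pos 0 x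
  have : δ * Λ 0 x ≤ 1 / 2 * Λ 0 x := h1.trans h2
  exact le_of_mul_le_mul_right this h3

private theorem LamSys.exists_fine (h : LamSys s N Λ δ H) (f : ℕ → X) (r : ℕ) :
    ∃ K : ℕ, ∀ i < r, f i = f (i + 1) ∨ 1 / (N : ℝ) ^ K < s (f i) (f (i + 1)) := by
  induction r with
  | zero => exact ⟨0, fun i hi => absurd hi (by omega)⟩
  | succ r ih =>
    obtain ⟨K, hK⟩ := ih
    have hN : (1 : ℝ) ≤ N := by exact_mod_cast le_trans (by norm_num) h.hN
    by_cases hr : f r = f (r + 1)
    · refine ⟨K, fun i hi => ?_⟩
      rcases Nat.lt_succ_iff_lt_or_eq.1 hi with hi | rfl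
      · exact hK i hi
      · exact Or.inl hr
    · obtain ⟨k, hk⟩ := h.exists_kk hr
      refine ⟨max K (k + 1), fun i hi => ?_⟩
      rcases Nat.lt_succ_iff_lt_or_eq.1 hi with hi | rfl
      · rcases hK i hi with h1 | h1
        · exact Or.inl h1
        · refine Or.inr (lt_of_le_of_lt ?_ h1)
          exact one_div_le_one_div_of_le (by positivity)
            (pow_le_pow_right₀ hN (le_max_left _ _))
      · refine Or.inr (lt_of_le_of_lt ?_ hk)
        exact one_div_le_one_div_of_le (by positivity)
          (pow_le_pow_right₀ hN (le_max_right _ _))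

private theorem LamSys.chain_aux (h : LamSys s N Λ δ H) (K D : ℕ) :
    ∀ j, K ≤ j + D → ∀ (f : ℕ → X) (r : ℕ),
      (∀ i < r, f i = f (i + 1) ∨ 1 / (N : ℝ) ^ K < s (f i) (f (i + 1))) →
      3 / (N : ℝ) ^ j ≤ s (f 0) (f r) →
      δ / H * Λ j (f 0) ≤ ∑ i ∈ Finset.range r, qd s N Λ (f i) (f (i + 1)) := by
  have hN4 : (4 : ℝ) ≤ N := by exact_mod_cast h.hN
  have hN1 : (1 : ℝ) ≤ N := by linarith
  have hN0 : (0 : ℝ) < N := by linarith
  have hH0 : 0 < H := by linarith [h.H1]
  have hδH : 0 < δ / H := div_pos h.δpos hH0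
  have hle1 : ∀ x : X, δ / H ≤ 1 := fun x => by
    rw [div_le_one hH0]
    linarith [h.δ_le x, h.H1]
  induction D with
  | zero =>
    intro j hj f r hf hd
    have hex : ∃ i, f i ≠ f 0 := by
      refine ⟨r, fun hr => ?_⟩
      rw [hr, h.s_self] at hd
      have : (0 : ℝ) < 3 / (N : ℝ) ^ j := by positivity
      linarith
    classical
    have hfind := Nat.find_spec hex
    have hmin := fun i (hi : i < Nat.find hex) => Nat.find_min hex hi
    set i₁ := Nat.find hex with hi₁
    have hi₁pos : i₁ ≠ 0 := by
      intro h0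
      rw [h0] at hfind
      exact hfind rfl
    obtain ⟨i, hi⟩ : ∃ i, i₁ = i + 1 := ⟨i₁ - 1, by omega⟩
    have h0 : f i = f 0 := by
      by_contra hc
      exact hmin i (by omega) hc
    have hne : f i ≠ f (i + 1) := by
      rw [← hi, h0]
      exact fun hc => hfind hc.symm
    have hir : i < r := by
      by_contra hc
      have : r < i₁ := by omega
      have := not_not.1 (hmin r this)
      rw [this, h.s_self] at hd
      have : (0 : ℝ) < 3 / (N : ℝ) ^ j := by positivity
      linarith
    have hj1 : 1 / (N : ℝ) ^ (j + 1) < s (f i) (f (i + 1)) := by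
      rcases hf i hir with h1 | h1
      · exact absurd h1 hne
      · refine lt_of_le_of_lt ?_ h1
        exact one_div_le_one_div_of_le (by positivity) (pow_le_pow_right₀ hN1 (by omega))
    have hjump := h.jump hne hj1
    calc δ / H * Λ j (f 0) ≤ 1 * Λ j (f 0) :=
          mul_le_mul_of_nonneg_right (hle1 (f 0)) (h.pos _ _).le
      _ = Λ j (f i) := by rw [one_mul, h0]
      _ ≤ qd s N Λ (f i) (f (i + 1)) := hjump
      _ ≤ _ := Finset.single_le_sum (f := fun i => qd s N Λ (f i) (f (i + 1)))
          (fun i _ => h.qd_nonneg _ _) (Finset.mem_range.2 hir)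
  | succ D ih =>
    intro j hj f r hf hd
    have hex : ∃ i, 3 / (N : ℝ) ^ j ≤ s (f 0) (f i) := ⟨r, hd⟩
    classical
    have hfind := Nat.find_spec hex
    have hmin := fun i (hi : i < Nat.find hex) => Nat.find_min hex hi
    have hr' : Nat.find hex ≤ r := Nat.find_min' hex hd
    set r' := Nat.find hex with hr'def
    have hmono : ∑ i ∈ Finset.range r', qd s N Λ (f i) (f (i + 1)) ≤
        ∑ i ∈ Finset.range r, qd s N Λ (f i) (f (i + 1)) :=
      Finset.sum_le_sum_of_subset_of_nonneg (Finset.range_mono hr')
        (fun i _ _ => h.qd_nonneg _ _)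
    refine le_trans ?_ hmono
    have hlt : ∀ i < r', s (f 0) (f i) < 3 / (N : ℝ) ^ j := fun i hi => not_le.1 (hmin i hi)
    by_cases hbig : ∃ i < r', 1 / (N : ℝ) ^ (j + 1) ≤ s (f i) (f (i + 1))
    · obtain ⟨i, hi, hs⟩ := hbig
      have hne : f i ≠ f (i + 1) := by
        intro hc
        rw [← hc, h.s_self] at hs
        have : (0 : ℝ) < 1 / (N : ℝ) ^ (j + 1) := by positivity
        linarith
      have h2 : 1 / (N : ℝ) ^ (j + 1 + 1) < s (f i) (f (i + 1)) := by
        refine lt_of_lt_of_le ?_ hs
        exact one_div_lt_one_div_of_lt (by positivity)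
          (pow_lt_pow_right₀ (by linarith) (by omega))
      have hjump := h.jump hne h2
      have hhar := h.har j (f 0) (f i) (hlt i hi).le
      have hlow := h.low j (f i)
      calc δ / H * Λ j (f 0) ≤ δ / H * (H * Λ j (f i)) :=
            mul_le_mul_of_nonneg_left hhar hδH.le
        _ = δ * Λ j (f i) := by field_simp
        _ ≤ Λ (j + 1) (f i) := hlow
        _ ≤ qd s N Λ (f i) (f (i + 1)) := hjump
        _ ≤ _ := Finset.single_le_sum (f := fun i => qd s N Λ (f i) (f (i + 1)))
            (fun i _ => h.qd_nonneg _ _) (Finset.mem_range.2 hi)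
    · push Not at hbig
      have hcross := h.cross j f r' hbig hlt hfind
      set u : ℝ := 1 / (N : ℝ) ^ (j + 1) with hu
      have hupos : 0 < u := by positivity
      set m : ℝ := 2 / N * Λ j (f 0) with hm
      have hmle : ∀ i < r', m ≤ Λ (j + 1) (f i) := by
        intro i hi
        have := hcross i hi
        rw [hm, div_mul_eq_mul_div, div_le_iff₀ hN0]
        linarith
      have inner : ∀ S : ℕ, ∀ a ≤ r', s (f 0) (f a) + 4 * S * u ≤ s (f 0) (f r') →
          S * (δ / H * m) ≤ ∑ i ∈ Finset.Ico a r', qd s N Λ (f i) (f (i + 1)) := by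
        intro S
        induction S with
        | zero =>
          intro a _ _
          simp only [Nat.cast_zero, zero_mul]
          exact Finset.sum_nonneg fun i _ => h.qd_nonneg _ _
        | succ S ihS =>
          intro a ha hs
          push_cast at hs ⊢
          have hexb : ∃ b, a ≤ b ∧ s (f 0) (f a) + 3 * u ≤ s (f 0) (f b) :=
            ⟨r', ha, by nlinarith [hupos, (Nat.cast_nonneg S : (0 : ℝ) ≤ S)]⟩
          have hbs := Nat.find_spec hexb
          have hbmin := fun i (hi : i < Nat.find hexb) => Nat.find_min hexb hi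
          have hbr : Nat.find hexb ≤ r' := Nat.find_min' hexb
            ⟨ha, by nlinarith [hupos, (Nat.cast_nonneg S : (0 : ℝ) ≤ S)]⟩
          set b := Nat.find hexb with hb
          have hab : a < b := by
            rcases lt_or_eq_of_le hbs.1 with h1 | h1
            · exact h1
            · rw [← h1] at hbs
              linarith [hbs.2]
          obtain ⟨b', hb'⟩ : ∃ b', b = b' + 1 := ⟨b - 1, by omega⟩
          have h1 : s (f 0) (f b') < s (f 0) (f a) + 3 * u := by
            by_contra hc
            exact hbmin b' (by omega) ⟨by omega, not_lt.1 hc⟩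
          have h2 : s (f b') (f (b' + 1)) < u := hbig b' (by omega)
          have h3 : s (f 0) (f b) < s (f 0) (f a) + 4 * u := by
            have := h.s_tri (f 0) (f b') (f (b' + 1))
            rw [hb']
            linarith
          have h4 : 3 * u ≤ s (f a) (f b) := by
            have := h.s_tri (f 0) (f a) (f b)
            linarith [hbs.2]
          have hsub := ih (j + 1) (by omega) (fun i => f (a + i)) (b - a)
            (fun i hi => by
              have := hf (a + i) (by omega)
              simpa [add_assoc] using this)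
            (by
              simp only [add_zero]
              rw [show a + (b - a) = b by omega, hu] at *
              calc 3 / (N : ℝ) ^ (j + 1) = 3 * (1 / (N : ℝ) ^ (j + 1)) := by ring
                _ ≤ _ := h4)
          have hsum1 : ∑ i ∈ Finset.range (b - a), qd s N Λ (f (a + i)) (f (a + (i + 1))) =
              ∑ i ∈ Finset.Ico a b, qd s N Λ (f i) (f (i + 1)) := by
            rw [Finset.sum_Ico_eq_sum_range]
            rfl
          have hsub' : δ / H * Λ (j + 1) (f a) ≤
              ∑ i ∈ Finset.Ico a b, qd s N Λ (f i) (f (i + 1)) := by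
            rw [← hsum1]
            simpa using hsub
          have hnext := ihS b hbr (by nlinarith)
          rw [← Finset.sum_Ico_consecutive _ hab.le hbr]
          have hm1 : δ / H * m ≤ δ / H * Λ (j + 1) (f a) :=
            mul_le_mul_of_nonneg_left (hmle a (by omega)) hδH.le
          linarith
      have hfin := inner ((N + 1) / 2) 0 (Nat.zero_le _) (by
        rw [h.s_self]
        have hS : (4 * ((N + 1) / 2 : ℕ) : ℝ) ≤ 3 * N := by
          have : 4 * ((N + 1) / 2) ≤ 3 * N := by
            have := h.hN
            omega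
          exact_mod_cast this
        have : 3 / (N : ℝ) ^ j = 3 * N * u := by
          rw [hu, pow_succ]
          field_simp
        rw [zero_add]
        calc 4 * (((N + 1) / 2 : ℕ) : ℝ) * u ≤ 3 * N * u :=
              mul_le_mul_of_nonneg_right hS hupos.le
          _ = 3 / (N : ℝ) ^ j := this.symm
          _ ≤ _ := hfind)
      rw [Finset.range_eq_Ico]
      refine le_trans ?_ hfin
      have hS2 : (N : ℝ) ≤ 2 * ((N + 1) / 2 : ℕ) := by
        have : N ≤ 2 * ((N + 1) / 2) := by omega
        exact_mod_cast this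
      have hΛ := (h.pos j (f 0))
      have : δ / H * Λ j (f 0) = N / 2 * (δ / H * m) := by
        rw [hm]
        field_simp
      rw [this]
      apply mul_le_mul_of_nonneg_right
      · linarith
      · have : 0 ≤ m := by
          rw [hm]
          positivity
        positivity

/-- Every chain of displacement at least `3 N^{-j}` costs at least `(δ/H) Λ_j(f 0)`.
(helper13 proves this file.) -/
theorem LamSys.chain_lower (h : LamSys s N Λ δ H) (j : ℕ) (f : ℕ → X) (r : ℕ)
    (hd : 3 / (N : ℝ) ^ j ≤ s (f 0) (f r)) :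
    δ / H * Λ j (f 0) ≤ ∑ i ∈ Finset.range r, qd s N Λ (f i) (f (i + 1)) := by
  obtain ⟨K, hK⟩ := h.exists_fine f r
  exact h.chain_aux K K j (by omega) f r hK hd

end gtFP
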