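import Pool.Agent.Lib.gtFP.MetB

/-! The abstract metric construction, part 3: the metric. -/

open scoped NNReal ENNReal

namespace gtFP

variable {X : Type} {s : X → X → ℝ} {N : ℕ} {Λ : ℕ → X → ℝ} {δ H : ℝ}

private theorem metC_chain_list {Y : Type} (d : Y → Y → ℝ≥0) (y : Y) (l : List Y) :
    ∀ x : Y, ∃ (f : ℕ → Y) (r : ℕ), f 0 = x ∧ f r = y ∧
      ((x :: l).zipWith d (l ++ [y])).sum = ∑ i ∈ Finset.range r, d (f i) (f (i + 1)) := by
  induction l with
  | nil =>
    intro x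
    exact ⟨fun i => if i = 0 then x else y, 1, by simp, by simp, by simp⟩
  | cons a l ih =>
    intro x
    obtain ⟨f, r, h0, hr, hs⟩ := ih a
    refine ⟨fun i => Nat.casesOn i x f, r + 1, rfl, hr, ?_⟩
    rw [Finset.sum_range_succ']
    change (d x a :: (a :: l).zipWith d (l ++ [y])).sum = ∑ i ∈ Finset.range r, d (f i) (f (i + 1)) +
      d x (f 0)
    rw [List.sum_cons, hs, h0, add_comm]

/-- Every chain from `x` to `y` costs at least `δ^3 / (H (1 + H)) * qd x y`.
For `x = y` trivial. Otherwise `k = kk x y`, `s x y > N^{-(k+1)} ≥ 3 N^{-(k+2)}` (`N ≥ 4`), so by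
`chain_lower` the cost is at least `δ/H Λ_{k+2}(x) ≥ δ^3/H Λ_k(x)` (`low` twice), and
`Λ_k(y) ≤ H Λ_k(x)` (`har`, `kk_le`, `s_symm`). -/
theorem LamSys.chain_ge (h : LamSys s N Λ δ H) (f : ℕ → X) (r : ℕ) :
    δ ^ 3 / (H * (1 + H)) * qd s N Λ (f 0) (f r) ≤
      ∑ i ∈ Finset.range r, qd s N Λ (f i) (f (i + 1)) := by
  have hH0 : 0 < H := lt_of_lt_of_le one_pos h.H1
  have hδ := h.δpos
  have hsum : 0 ≤ ∑ i ∈ Finset.range r, qd s N Λ (f i) (f (i + 1)) :=
    Finset.sum_nonneg fun i _ => h.qd_nonneg _ _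
  by_cases hxy : f 0 = f r
  · have e : qd s N Λ (f 0) (f r) = 0 := by
      unfold qd
      rw [if_pos hxy]
    rw [e, mul_zero]
    exact hsum
  · set x := f 0 with hx
    set y := f r with hy
    set k := kk s N x y with hk
    have hN4 : (4 : ℝ) ≤ N := by exact_mod_cast h.hN
    have hN0 : (0 : ℝ) < N := by linarith
    have h1 := h.kk_lt hxy
    have h2 := h.kk_le hxy
    rw [← hk] at h1 h2
    have hp1 : (0 : ℝ) < (N : ℝ) ^ (k + 1) := pow_pos hN0 _
    have hp0 : (0 : ℝ) < (N : ℝ) ^ k := pow_pos hN0 _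
    have h3 : 3 / (N : ℝ) ^ (k + 2) ≤ s x y := by
      refine le_trans ?_ h1.le
      rw [div_le_div_iff₀ (pow_pos hN0 _) hp1, one_mul, pow_succ (N : ℝ) (k + 1)]
      nlinarith
    have h4 := h.chain_lower (k + 2) f r (by rw [← hx, ← hy]; exact h3)
    rw [← hx] at h4
    have h5 : δ * (δ * Λ k x) ≤ Λ (k + 2) x :=
      (mul_le_mul_of_nonneg_left (h.low k x) hδ.le).trans (h.low (k + 1) x)
    have h6 : Λ k y ≤ H * Λ k x := by
      refine h.har k y x ?_
      rw [h.s_symm]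
      refine h2.trans ?_
      gcongr
      norm_num
    have e : qd s N Λ x y = Λ k x + Λ k y := by
      unfold qd
      rw [if_neg hxy]
    have hΛ := h.pos k x
    calc δ ^ 3 / (H * (1 + H)) * qd s N Λ x y
        ≤ δ ^ 3 / (H * (1 + H)) * ((1 + H) * Λ k x) := by
          rw [e]
          refine mul_le_mul_of_nonneg_left ?_ (by positivity)
          linarith
      _ = δ / H * (δ * (δ * Λ k x)) := by
          have : (1 + H) ≠ 0 := by positivity
          field_simp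
      _ ≤ δ / H * Λ (k + 2) x := mul_le_mul_of_nonneg_left h5 (by positivity)
      _ ≤ _ := h4

/-- The chain metric, `PseudoMetricSpace.ofPreNNDist` for `qd` (as a function to `ℝ≥0`); the infimum
over lists `l` of `((x :: l).zipWith d (l ++ [y])).sum` is bounded below with `chain_ge` (for the
list `l` take `f i = (x :: l ++ [y]).getD i x`, induction on `l`). -/
theorem LamSys.exists_metric (h : LamSys s N Λ δ H) :
    ∃ (ρ : X → X → ℝ) (c : ℝ), 0 < c ∧ (∀ x, ρ x x = 0) ∧ (∀ x y, ρ x y = ρ y x) ∧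
      (∀ x y z, ρ x z ≤ ρ x y + ρ y z) ∧ (∀ x y, c * qd s N Λ x y ≤ ρ x y) ∧
      (∀ x y, ρ x y ≤ qd s N Λ x y) := by
  have hH0 : 0 < H := lt_of_lt_of_le one_pos h.H1
  have hδ := h.δpos
  set d : X → X → ℝ≥0 := fun x y => ⟨qd s N Λ x y, h.qd_nonneg x y⟩ with hd
  have hcoe : ∀ x y, ((d x y : ℝ≥0) : ℝ) = qd s N Λ x y := fun x y => rfl
  have d0 : ∀ x, d x x = 0 := by
    intro x
    apply NNReal.coe_injective
    rw [hcoe, NNReal.coe_zero]
    unfold qd
    rw [if_pos rfl]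
  have dc : ∀ x y, d x y = d y x := by
    intro x y
    apply NNReal.coe_injective
    rw [hcoe, hcoe, h.qd_symm]
  let P := PseudoMetricSpace.ofPreNNDist d d0 dc
  refine ⟨fun x y => @dist X P.toDist x y, δ ^ 3 / (H * (1 + H)), by positivity,
    fun x => P.dist_self x, fun x y => P.dist_comm x y, fun x y z => P.dist_triangle x y z, ?_,
    fun x y => PseudoMetricSpace.dist_ofPreNNDist_le d d0 dc x y⟩
  intro x y
  have hc0 : 0 ≤ δ ^ 3 / (H * (1 + H)) := by positivity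
  set c0 : ℝ≥0 := ⟨δ ^ 3 / (H * (1 + H)), hc0⟩ with hc0'
  have hcc : (c0 : ℝ) = δ ^ 3 / (H * (1 + H)) := rfl
  have key : c0 * d x y ≤ ⨅ l : List X, ((x :: l).zipWith d (l ++ [y])).sum := by
    refine le_ciInf fun l => ?_
    obtain ⟨f, r, h0, hr, hs⟩ := metC_chain_list d y l x
    rw [hs, ← NNReal.coe_le_coe, NNReal.coe_mul, NNReal.coe_sum, ← h0, ← hr]
    exact h.chain_ge f r
  rw [← NNReal.coe_le_coe] at key
  exact key

end gtFP
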