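import Pool.Agent.Lib.gtFP.Defs

/-! Sup-distance of indices and ancestors. -/

namespace gtFP

variable {d : ℕ}

/-- sup-distance of two indices -/
def nd (a b : Fin d → ℤ) : ℕ := Finset.univ.sup fun t => (a t - b t).natAbs

theorem nd_le {a b : Fin d → ℤ} {K : ℕ} : nd a b ≤ K ↔ ∀ t, (a t - b t).natAbs ≤ K := by
  simp [nd]

theorem nd_self (a : Fin d → ℤ) : nd a a = 0 := by
  have : nd a a ≤ 0 := nd_le.2 fun t => by simp
  omega

theorem nd_comm (a b : Fin d → ℤ) : nd a b = nd b a := by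
  apply le_antisymm
  · refine nd_le.2 fun t => ?_
    have := nd_le.1 (le_refl (nd b a)) t
    omega
  · refine nd_le.2 fun t => ?_
    have := nd_le.1 (le_refl (nd a b)) t
    omega

theorem nd_tri (a b c : Fin d → ℤ) : nd a c ≤ nd a b + nd b c := by
  refine nd_le.2 fun t => ?_
  have h1 := nd_le.1 (le_refl (nd a b)) t
  have h2 := nd_le.1 (le_refl (nd b c)) t
  omega

theorem exists_of_le_nd {a b : Fin d → ℤ} {K : ℕ} (hK : 1 ≤ K) (h : K ≤ nd a b) :
    ∃ t, K ≤ (a t - b t).natAbs := by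
  by_contra hc
  push Not at hc
  have : nd a b ≤ K - 1 := nd_le.2 fun t => by have := hc t; omega
  omega

theorem anc_anc (n s t : ℕ) (a : Fin d → ℤ) : anc n s (anc n t a) = anc n (s + t) a := by
  funext i
  simp only [anc]
  rw [Int.ediv_ediv_of_nonneg (by positivity), pow_add, mul_comm]

theorem anc_zero (n : ℕ) (a : Fin d → ℤ) : anc n 0 a = a := by
  funext i
  simp [anc]

/-- Index distances do not increase by passing to ancestors; more precisely
`nd a b ≤ K n^s` implies `nd (anc a) (anc b) ≤ K`. -/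
theorem nd_anc_mul {n s K : ℕ} (hn : 1 ≤ n) {a b : Fin d → ℤ} (h : nd a b ≤ K * n ^ s) :
    nd (anc n s a) (anc n s b) ≤ K := by
  refine nd_le.2 fun t => ?_
  have h1 := nd_le.1 h t
  have hpos : (0 : ℤ) < (n : ℤ) ^ s := by positivity
  have h2 : a t ≤ b t + K * (n : ℤ) ^ s := by
    have : ((a t - b t).natAbs : ℤ) ≤ ((K * n ^ s : ℕ) : ℤ) := by exact_mod_cast h1
    push_cast at this
    have := le_trans (le_abs_self (a t - b t)) (by simpa using this)
    linarith
  have h3 : b t ≤ a t + K * (n : ℤ) ^ s := by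
    have : ((a t - b t).natAbs : ℤ) ≤ ((K * n ^ s : ℕ) : ℤ) := by exact_mod_cast h1
    push_cast at this
    have := le_trans (neg_abs_le (a t - b t) |> fun h => neg_le.1 h) (by simpa using this)
    linarith
  have h4 : a t / (n : ℤ) ^ s ≤ b t / (n : ℤ) ^ s + K := by
    calc a t / (n : ℤ) ^ s ≤ (b t + K * (n : ℤ) ^ s) / (n : ℤ) ^ s :=
          Int.ediv_le_ediv hpos h2
      _ = _ := Int.add_mul_ediv_right _ _ hpos.ne'
  have h5 : b t / (n : ℤ) ^ s ≤ a t / (n : ℤ) ^ s + K := by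
    calc b t / (n : ℤ) ^ s ≤ (a t + K * (n : ℤ) ^ s) / (n : ℤ) ^ s :=
          Int.ediv_le_ediv hpos h3
      _ = _ := Int.add_mul_ediv_right _ _ hpos.ne'
  simp only [anc]
  omega

theorem nd_anc_le {n s : ℕ} (hn : 1 ≤ n) (a b : Fin d → ℤ) :
    nd (anc n s a) (anc n s b) ≤ nd a b := by
  apply nd_anc_mul hn
  exact Nat.le_mul_of_pos_right _ (by positivity)

theorem nd_anc_ge {n s K : ℕ} (hn : 1 ≤ n) {a b : Fin d → ℤ} (h : K * n ^ s ≤ nd a b) :
    K ≤ nd (anc n s a) (anc n s b) := by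
  rcases Nat.eq_zero_or_pos K with hK | hK
  · omega
  have hK' : 1 ≤ K * n ^ s := Nat.mul_pos hK (by positivity)
  obtain ⟨t, ht⟩ := exists_of_le_nd hK' h
  have hpos : (0 : ℤ) < (n : ℤ) ^ s := by positivity
  have h0 : ((K * n ^ s : ℕ) : ℤ) ≤ |a t - b t| := by
    have : ((K * n ^ s : ℕ) : ℤ) ≤ ((a t - b t).natAbs : ℤ) := by exact_mod_cast ht
    simpa using this
  push_cast at h0
  have key : (K : ℤ) ≤ |a t / (n : ℤ) ^ s - b t / (n : ℤ) ^ s| := by
    rcases le_abs.1 h0 with h | h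
    · have h4 : b t / (n : ℤ) ^ s + K ≤ a t / (n : ℤ) ^ s := by
        calc b t / (n : ℤ) ^ s + K = (b t + K * (n : ℤ) ^ s) / (n : ℤ) ^ s :=
              (Int.add_mul_ediv_right _ _ hpos.ne').symm
          _ ≤ _ := Int.ediv_le_ediv hpos (by linarith)
      exact le_abs.2 (Or.inl (by linarith))
    · have h4 : a t / (n : ℤ) ^ s + K ≤ b t / (n : ℤ) ^ s := by
        calc a t / (n : ℤ) ^ s + K = (a t + K * (n : ℤ) ^ s) / (n : ℤ) ^ s :=
              (Int.add_mul_ediv_right _ _ hpos.ne').symm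
          _ ≤ _ := Int.ediv_le_ediv hpos (by linarith)
      exact le_abs.2 (Or.inr (by linarith))
  have h6 := nd_le.1 (le_refl (nd (anc n s a) (anc n s b))) t
  have h7 : K ≤ (anc n s a t - anc n s b t).natAbs := by
    have : (K : ℤ) ≤ ((anc n s a t - anc n s b t).natAbs : ℤ) := by
      rw [Int.natCast_natAbs]; exact key
    exact_mod_cast this
  exact h7.trans h6

theorem anc_add_mul {n s : ℕ} (hn : 1 ≤ n) (a b : Fin d → ℤ) :
    anc n s (fun t => (n : ℤ) ^ s * b t + a t) = fun t => b t + anc n s a t := by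
  funext t
  have hpos : (0 : ℤ) < (n : ℤ) ^ s := by positivity
  simp only [anc]
  rw [Int.add_ediv_of_dvd_left (Dvd.intro _ rfl), Int.mul_ediv_cancel_left _ hpos.ne']

theorem inBox_anc {n k s : ℕ} (hn : 1 ≤ n) {a : Fin d → ℤ} (h : InBox (n ^ (k + s)) a) :
    InBox (n ^ k) (anc n s a) := by
  intro t
  have hpos : (0 : ℤ) < (n : ℤ) ^ s := by positivity
  obtain ⟨h1, h2⟩ := h t
  refine ⟨Int.ediv_nonneg h1 hpos.le, ?_⟩
  push_cast at h2 ⊢
  rw [anc, Int.ediv_lt_iff_lt_mul hpos, ← pow_add]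
  exact h2

/-- the level-(k+m) cube `a` is kept in the steps `k+1, …, k+m` -/
def Loc (n m k : ℕ) (ω : Cfg d) (a : Fin d → ℤ) : Prop :=
  ∀ i, 1 ≤ i → i ≤ m → ω (k + i, anc n (m - i) a) = true

theorem kept_add {n k m : ℕ} {ω : Cfg d} {a : Fin d → ℤ} :
    Kept n (k + m) ω a ↔ Kept n k ω (anc n m a) ∧ Loc n m k ω a := by
  constructor
  · intro h
    refine ⟨fun i h1 h2 => ?_, fun i h1 h2 => ?_⟩
    · have := h i h1 (by omega)
      rw [anc_anc]
      rwa [show k - i + m = k + m - i by omega]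
    · have := h (k + i) (by omega) (by omega)
      rwa [show k + m - (k + i) = m - i by omega] at this
  · rintro ⟨h1, h2⟩ i hi hik
    rcases le_or_gt i k with h | h
    · have := h1 i hi h
      rw [anc_anc] at this
      rwa [show k - i + m = k + m - i by omega] at this
    · have := h2 (i - k) (by omega) (by omega)
      rwa [show k + (i - k) = i by omega, show m - (i - k) = k + m - i by omega] at this

theorem kept_iff_loc {n k : ℕ} {ω : Cfg d} {a : Fin d → ℤ} : Kept n k ω a ↔ Loc n k 0 ω a := by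
  simp [Kept, Loc]

end gtFP
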