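import Pool.Agent.Lib.gtFP.Nd

/-! Bad cubes, the weights `LL` and their sums `YY`.

Block scale: `N = n^m`. A cube of block level `j` is a cube of level `m * j`; its children of block
level `j + 1` are the cubes `c` of level `m * (j + 1)` with `anc n m c` = the cube. -/

open MeasureTheory
open scoped NNReal ENNReal

namespace gtFP

variable {d : ℕ}

/-- `Bad n m k ω z`: for the cube `z` of level `k` there is a chain of touching cubes of level
`k + m`, all kept in the steps `k+1, …, k+m`, which starts in `z` and reaches sup-distance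
`2 n^m` from its starting point (without leaving the ball of this radius). -/
def Bad (n m k : ℕ) (ω : Cfg d) (z : Fin d → ℤ) : Prop :=
  ∃ (r : ℕ) (f : ℕ → Fin d → ℤ), anc n m (f 0) = z ∧ (∀ i ≤ r, Loc n m k ω (f i)) ∧
    (∀ i < r, nd (f i) (f (i + 1)) ≤ 1) ∧ (∀ i ≤ r, nd (f 0) (f i) ≤ 2 * n ^ m) ∧
    2 * n ^ m ≤ nd (f 0) (f r)

/-- the indices of the cubes in `[0,1]^d` of side `1/K` -/
noncomputable def boxF (d K : ℕ) : Finset (Fin d → ℤ) := Fintype.piFinset fun _ => Finset.Ico (0 : ℤ) K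

theorem mem_boxF {K : ℕ} {a : Fin d → ℤ} : a ∈ boxF d K ↔ InBox K a := by
  simp [boxF, InBox, Fintype.mem_piFinset]

open Classical in
/-- the kept cubes of block level `j` -/
noncomputable def Rf (n m j : ℕ) (ω : Cfg d) : Finset (Fin d → ℤ) :=
  (boxF d (n ^ (m * j))).filter fun a => Kept n (m * j) ω a

theorem mem_Rf {n m j : ℕ} {ω : Cfg d} {a : Fin d → ℤ} :
    a ∈ Rf n m j ω ↔ InBox (n ^ (m * j)) a ∧ Kept n (m * j) ω a := by
  classical
  simp [Rf, mem_boxF]

/-- the cube `Q` of block level `j` is near a bad cube -/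
def Nb (n m j : ℕ) (ω : Cfg d) (Q : Fin d → ℤ) : Prop :=
  ∃ z, nd Q z ≤ 3 ∧ Bad n m (m * j) ω z

open Classical in
/-- weight factor of the children of `Q` -/
noncomputable def wt (n m j : ℕ) (δ : ℝ≥0) (ω : Cfg d) (Q : Fin d → ℤ) : ℝ≥0 :=
  if Nb n m j ω Q then 1 / 2 else δ

/-- The weights: `LL 0 = 1`,
`LL (j+1) a = max over kept c of block level j+1 of wt(parent c) LL j (parent c) (1+nd a c)^{-M}`. -/
noncomputable def LL (n m M : ℕ) (δ : ℝ≥0) (ω : Cfg d) : ℕ → (Fin d → ℤ) → ℝ≥0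
  | 0 => fun _ => 1
  | (j + 1) => fun a => (Rf n m (j + 1) ω).sup fun c =>
      wt n m j δ ω (anc n m c) * LL n m M δ ω j (anc n m c) * ((1 + (nd a c : ℝ≥0)) ^ M)⁻¹

/-- the sum of the `t`-th powers of the weights of the kept cubes of block level `j` -/
noncomputable def YY (n m M : ℕ) (δ : ℝ≥0) (t : ℝ) (j : ℕ) (ω : Cfg d) : ℝ≥0∞ :=
  ∑ c ∈ Rf n m j ω, (LL n m M δ ω j c : ℝ≥0∞) ^ t

/-- the decay constant `∑_z (1 + |z|)^{-M t}` -/
noncomputable def CC (d M : ℕ) (t : ℝ) : ℝ≥0∞ :=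
  ∑' z : Fin d → ℤ, (((1 + (nd z 0 : ℝ≥0∞)) ^ M)⁻¹) ^ t

/-- the cubes at index distance at most 3 from `Q` -/
noncomputable def nbF (Q : Fin d → ℤ) : Finset (Fin d → ℤ) :=
  Fintype.piFinset fun t => Finset.Icc (Q t - 3) (Q t + 3)

theorem mem_nbF {Q z : Fin d → ℤ} : z ∈ nbF Q ↔ nd Q z ≤ 3 := by
  simp only [nbF, Fintype.mem_piFinset, Finset.mem_Icc, nd_le]
  refine forall_congr' fun t => ?_
  omega

theorem card_nbF (Q : Fin d → ℤ) : (nbF Q).card = 7 ^ d := by
  simp only [nbF, Fintype.card_piFinset, Int.card_Icc]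
  rw [Finset.prod_congr rfl fun t _ => show (Q t + 3 + 1 - (Q t - 3)).toNat = 7 by
    rw [show Q t + 3 + 1 - (Q t - 3) = 7 by ring]; rfl]
  simp

/-- the probability that the cube `0` is bad -/
noncomputable def qq (d n m : ℕ) (p : unitInterval) : ℝ≥0∞ :=
  percLaw d p {ω | Bad n m 0 ω 0}

end gtFP
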