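import Pool.Agent.Lib.gtFP.SqA
import Pool.Agent.Lib.gtFP.Shift

/-! `qq (m + j) ≤ K qq(m)^2`. -/

open MeasureTheory ProbabilityTheory Filter Topology
open scoped NNReal ENNReal

namespace gtFP

variable {d : ℕ}

private noncomputable def nbR (R : ℕ) (Q : Fin d → ℤ) : Finset (Fin d → ℤ) :=
  Fintype.piFinset fun t => Finset.Icc (Q t - R) (Q t + R)

private theorem mem_nbR {R : ℕ} {Q z : Fin d → ℤ} : z ∈ nbR R Q ↔ nd Q z ≤ R := by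
  simp only [nbR, Fintype.mem_piFinset, Finset.mem_Icc, nd_le]
  refine forall_congr' fun t => ?_
  omega

private theorem card_nbR (R : ℕ) (Q : Fin d → ℤ) : (nbR R Q).card = (2 * R + 1) ^ d := by
  simp only [nbR, Fintype.card_piFinset, Int.card_Icc]
  rw [Finset.prod_congr rfl fun t _ => show (Q t + R + 1 - (Q t - R)).toNat = 2 * R + 1 by omega]
  simp

private theorem pair_le {n j : ℕ} (hn : 1 ≤ n) (p : unitInterval) (m : ℕ) (z₀ z₁ : Fin d → ℤ) :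
    percLaw d p {ω | 7 ≤ nd z₀ z₁ ∧ Bad n m j ω z₀ ∧ Bad n m j ω z₁} ≤ (qq d n m p) ^ 2 := by
  rcases Nat.lt_or_ge (nd z₀ z₁) 7 with h | h
  · have : {ω : Cfg d | 7 ≤ nd z₀ z₁ ∧ Bad n m j ω z₀ ∧ Bad n m j ω z₁} = ∅ := by
      ext ω
      simp only [Set.mem_ofPred_eq, Set.mem_empty_iff_false, iff_false]
      rintro ⟨h1, -⟩
      omega
    rw [this]
    simp
  · have hdis : Disjoint (LvN n j m z₀) (LvN n j m z₁) := by
      rw [Set.disjoint_left]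
      rintro i ⟨-, -, h1⟩ ⟨-, -, h2⟩
      have h3 := nd_tri z₀ (anc n (i.1 - j) i.2) z₁
      have h4 := nd_comm z₀ (anc n (i.1 - j) i.2)
      omega
    have hind := (Indep_iff _ _ _).1 (sg_indep (p := p) hdis)
    have := hind _ _ (meas_bad (k := j) (m := m) hn z₀) (meas_bad (k := j) (m := m) hn z₁)
    rw [prob_bad hn, prob_bad hn] at this
    have hset : {ω : Cfg d | 7 ≤ nd z₀ z₁ ∧ Bad n m j ω z₀ ∧ Bad n m j ω z₁} =
        {ω | Bad n m j ω z₀} ∩ {ω | Bad n m j ω z₁} := by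
      ext ω
      simp [h]
    rw [hset, this, sq]

/-- Union bound over the pairs; the events `Bad z₀`, `Bad z₁` are independent by `meas_bad`,
`sg_indep` (the sets `LvN n j m z₀`, `LvN n j m z₁` are disjoint since `nd z₀ z₁ ≥ 7 > 4`), both have
probability `qq m` (`prob_bad`). -/
theorem qq_sq {n j : ℕ} (hn : 1 ≤ n) (hj : 8 ≤ n ^ j) (p : unitInterval) :
    ∃ K : ℝ≥0, ∀ m, qq d n (j + m) p ≤ K * (qq d n m p) ^ 2 := by
  classical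
  refine ⟨(((boxF d (n ^ j)).card * (2 * (2 * n ^ j) + 1) ^ d : ℕ) : ℝ≥0), fun m => ?_⟩
  have hsub : {ω : Cfg d | Bad n (j + m) 0 ω 0} ⊆
      ⋃ z₀ ∈ boxF d (n ^ j), ⋃ z₁ ∈ nbR (2 * n ^ j) z₀,
        {ω | 7 ≤ nd z₀ z₁ ∧ Bad n m j ω z₀ ∧ Bad n m j ω z₁} := by
    intro ω hω
    obtain ⟨z₀, hz₀, z₁, h1, h2, h3, h4⟩ := bad_pair hn hj hω
    simp only [Set.mem_iUnion]
    exact ⟨z₀, hz₀, z₁, mem_nbR.2 h1, h2, h3, h4⟩
  calc qq d n (j + m) p ≤ percLaw d p (⋃ z₀ ∈ boxF d (n ^ j), ⋃ z₁ ∈ nbR (2 * n ^ j) z₀,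
        {ω | 7 ≤ nd z₀ z₁ ∧ Bad n m j ω z₀ ∧ Bad n m j ω z₁}) := measure_mono hsub
    _ ≤ ∑ z₀ ∈ boxF d (n ^ j), percLaw d p (⋃ z₁ ∈ nbR (2 * n ^ j) z₀,
        {ω | 7 ≤ nd z₀ z₁ ∧ Bad n m j ω z₀ ∧ Bad n m j ω z₁}) := measure_biUnion_finset_le _ _
    _ ≤ ∑ z₀ ∈ boxF d (n ^ j), ∑ z₁ ∈ nbR (2 * n ^ j) z₀, percLaw d p
        {ω | 7 ≤ nd z₀ z₁ ∧ Bad n m j ω z₀ ∧ Bad n m j ω z₁} :=
          Finset.sum_le_sum fun z₀ _ => measure_biUnion_finset_le _ _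
    _ ≤ ∑ z₀ ∈ boxF d (n ^ j), ∑ z₁ ∈ nbR (2 * n ^ j) z₀, (qq d n m p) ^ 2 :=
          Finset.sum_le_sum fun z₀ _ => Finset.sum_le_sum fun z₁ _ => pair_le hn p m z₀ z₁
    _ = _ := by
        simp only [Finset.sum_const, card_nbR, nsmul_eq_mul]
        push_cast
        ring

end gtFP
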