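import Pool.Agent.Lib.gtFP.CCf

/-! The sums `YY`: one step, deterministic. -/

open scoped NNReal ENNReal

namespace gtFP

variable {d : ℕ}

/-- A supremum over a finset to the power `t > 0` is at most the sum of the `t`-th powers. -/
theorem sumB_sup_rpow_le {ι : Type*} {t : ℝ} (ht : 0 < t) (s : Finset ι) (F : ι → ℝ≥0) :
    ((s.sup F : ℝ≥0) : ℝ≥0∞) ^ t ≤ ∑ c ∈ s, (F c : ℝ≥0∞) ^ t := by
  rcases s.eq_empty_or_nonempty with h | h
  · subst h
    simp [ENNReal.zero_rpow_of_pos ht]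
  · obtain ⟨c, hc, hsup⟩ := Finset.exists_mem_eq_sup s h F
    rw [hsup]
    exact Finset.single_le_sum (f := fun c => (F c : ℝ≥0∞) ^ t) (fun _ _ => zero_le) hc

/-- (P4) `LL (j+1) a ^ t ≤ ∑_{c ∈ Rf (j+1)} (wt (anc c) LL j (anc c) (1+nd a c)^{-M})^t` (a
supremum over a finset to the power `t` is at most the sum of the `t`-th powers), then sum over `a`,
exchange the sums and use `tsum_decay` (`ENNReal.sum_le_tsum`). -/
theorem YY_succ_le {n m M : ℕ} {δ : ℝ≥0} {t : ℝ} (ht : 0 < t) (j : ℕ) (ω : Cfg d) :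
    YY n m M δ t (j + 1) ω ≤ CC d M t * ∑ c ∈ Rf n m (j + 1) ω,
      ((wt n m j δ ω (anc n m c) * LL n m M δ ω j (anc n m c) : ℝ≥0) : ℝ≥0∞) ^ t := by
  unfold YY
  have h1 : ∀ a ∈ Rf n m (j + 1) ω, ((LL n m M δ ω (j + 1) a : ℝ≥0) : ℝ≥0∞) ^ t ≤
      ∑ c ∈ Rf n m (j + 1) ω,
        ((wt n m j δ ω (anc n m c) * LL n m M δ ω j (anc n m c) : ℝ≥0) : ℝ≥0∞) ^ t *
          (((1 + (nd a c : ℝ≥0∞)) ^ M)⁻¹) ^ t := by
    intro a _
    have h2 := sumB_sup_rpow_le ht (Rf n m (j + 1) ω) (fun c =>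
      wt n m j δ ω (anc n m c) * LL n m M δ ω j (anc n m c) * ((1 + (nd a c : ℝ≥0)) ^ M)⁻¹)
    refine (show ((LL n m M δ ω (j + 1) a : ℝ≥0) : ℝ≥0∞) ^ t ≤ _ from h2).trans
      (le_of_eq (Finset.sum_congr rfl fun c _ => ?_))
    rw [ENNReal.coe_mul (wt n m j δ ω (anc n m c) * LL n m M δ ω j (anc n m c)),
      ENNReal.mul_rpow_of_nonneg _ _ ht.le, ENNReal.coe_inv (by positivity), ENNReal.coe_pow,
      ENNReal.coe_add, ENNReal.coe_one, ENNReal.coe_natCast]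
  refine (Finset.sum_le_sum h1).trans ?_
  rw [Finset.sum_comm, Finset.mul_sum]
  refine Finset.sum_le_sum fun c _ => ?_
  rw [← Finset.mul_sum, mul_comm]
  refine mul_le_mul' ?_ le_rfl
  rw [← tsum_decay (d := d) (M := M) (t := t) c]
  exact ENNReal.sum_le_tsum _

/-- (P5) A kept cube `c` of block level `j+1` has its parent `anc n m c` in `Rf n m j ω`
(`kept_add`, `inBox_anc`, `m * (j+1) = m * j + m`), and at most `(n^m)^d` cubes have a given parent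
(the `a` with `anc n m a = Q` are the `a` with `N Q_t ≤ a_t < N Q_t + N`, `N = n^m`). -/
theorem sum_children_le {n m : ℕ} (hn : 1 ≤ n) (j : ℕ) (ω : Cfg d) (g : (Fin d → ℤ) → ℝ≥0∞) :
    ∑ c ∈ Rf n m (j + 1) ω, g (anc n m c) ≤ ((n ^ m) ^ d : ℕ) * ∑ Q ∈ Rf n m j ω, g Q := by
  classical
  have hmaps : ∀ c ∈ Rf n m (j + 1) ω, anc n m c ∈ Rf n m j ω := by
    intro c hc
    rw [mem_Rf] at hc ⊢
    obtain ⟨h1, h2⟩ := hc
    rw [show m * (j + 1) = m * j + m by ring] at h1 h2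
    exact ⟨inBox_anc hn h1, (kept_add.1 h2).1⟩
  rw [← Finset.sum_fiberwise_of_maps_to hmaps, Finset.mul_sum]
  refine Finset.sum_le_sum fun Q _ => ?_
  have h1 : ∑ x ∈ (Rf n m (j + 1) ω).filter (fun x => anc n m x = Q), g (anc n m x) =
      ((Rf n m (j + 1) ω).filter (fun x => anc n m x = Q)).card * g Q := by
    rw [Finset.sum_congr rfl (g := fun _ => g Q), Finset.sum_const, nsmul_eq_mul]
    intro x hx
    rw [(Finset.mem_filter.1 hx).2]
  rw [h1]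
  refine mul_le_mul' ?_ le_rfl
  have hpos : (0 : ℤ) < (n : ℤ) ^ m := by positivity
  have hsub : (Rf n m (j + 1) ω).filter (fun x => anc n m x = Q) ⊆
      Fintype.piFinset fun s : Fin d => Finset.Ico ((n : ℤ) ^ m * Q s) ((n : ℤ) ^ m * Q s +
        (n : ℤ) ^ m) := by
    intro x hx
    have hx2 := (Finset.mem_filter.1 hx).2
    rw [Fintype.mem_piFinset]
    intro s
    have h3 : x s / (n : ℤ) ^ m = Q s := congrFun hx2 s
    have h4 := Int.mul_ediv_add_emod (x s) ((n : ℤ) ^ m)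
    have h5 := Int.emod_nonneg (x s) hpos.ne'
    have h6 := Int.emod_lt_of_pos (x s) hpos
    rw [h3] at h4
    rw [Finset.mem_Ico]
    constructor <;> linarith
  have hcard : (Fintype.piFinset fun s : Fin d => Finset.Ico ((n : ℤ) ^ m * Q s)
      ((n : ℤ) ^ m * Q s + (n : ℤ) ^ m)).card = (n ^ m) ^ d := by
    rw [Fintype.card_piFinset]
    rw [Finset.prod_congr rfl fun s _ => show (Finset.Ico ((n : ℤ) ^ m * Q s)
      ((n : ℤ) ^ m * Q s + (n : ℤ) ^ m)).card = n ^ m by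
        rw [Int.card_Ico, add_sub_cancel_left]
        have : ((n : ℤ) ^ m) = ((n ^ m : ℕ) : ℤ) := by push_cast; rfl
        rw [this, Int.toNat_natCast]]
    simp
  have := Finset.card_le_card hsub
  rw [hcard] at this
  exact_mod_cast this

open Classical in
/-- `wt^t ≤ δ^t + ∑_{z ∈ nbF Q} 1_{Bad z}` (`mem_nbF`, `(1/2)^t ≤ 1`). -/
theorem wt_rpow_le {n m : ℕ} {δ : ℝ≥0} {t : ℝ} (ht : 0 < t) (j : ℕ) (ω : Cfg d)
    (Q : Fin d → ℤ) :
    (wt n m j δ ω Q : ℝ≥0∞) ^ t ≤ (δ : ℝ≥0∞) ^ t +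
      ∑ z ∈ nbF Q, if Bad n m (m * j) ω z then 1 else 0 := by
  unfold wt
  split_ifs with h
  · obtain ⟨z, hz1, hz2⟩ := h
    have h1 : (((1 / 2 : ℝ≥0) : ℝ≥0∞)) ^ t ≤ 1 := by
      refine ENNReal.rpow_le_one ?_ ht.le
      rw [ENNReal.coe_le_one_iff]
      exact half_le_self zero_le_one
    have h2 : (1 : ℝ≥0∞) ≤ ∑ z ∈ nbF Q, if Bad n m (m * j) ω z then 1 else 0 := by
      refine le_trans ?_ (Finset.single_le_sum
        (f := fun z => if Bad n m (m * j) ω z then (1 : ℝ≥0∞) else 0) (fun _ _ => zero_le)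
        (mem_nbF.2 hz1))
      rw [if_pos hz2]
    exact h1.trans (h2.trans le_add_self)
  · exact le_self_add

open Classical in
/-- The one step inequality in the form needed for the expectations; from the three lemmas above. -/
theorem YY_succ_le' {n m M : ℕ} (hn : 1 ≤ n) {δ : ℝ≥0} {t : ℝ} (ht : 0 < t) (j : ℕ)
    (ω : Cfg d) :
    YY n m M δ t (j + 1) ω ≤ CC d M t * (((n ^ m) ^ d : ℕ) *
      ∑ Q ∈ boxF d (n ^ (m * j)), (if Kept n (m * j) ω Q then (LL n m M δ ω j Q : ℝ≥0∞) ^ t else 0) *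
        ((δ : ℝ≥0∞) ^ t + ∑ z ∈ nbF Q, if Bad n m (m * j) ω z then 1 else 0)) := by
  refine (YY_succ_le ht j ω).trans (mul_le_mul' le_rfl ?_)
  refine (sum_children_le hn j ω (fun Q =>
    ((wt n m j δ ω Q * LL n m M δ ω j Q : ℝ≥0) : ℝ≥0∞) ^ t)).trans (mul_le_mul' le_rfl ?_)
  have h1 : ∑ Q ∈ Rf n m j ω, ((wt n m j δ ω Q * LL n m M δ ω j Q : ℝ≥0) : ℝ≥0∞) ^ t =
      ∑ Q ∈ boxF d (n ^ (m * j)), if Kept n (m * j) ω Q then
        ((wt n m j δ ω Q * LL n m M δ ω j Q : ℝ≥0) : ℝ≥0∞) ^ t else 0 := by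
    unfold Rf
    rw [Finset.sum_filter]
  rw [h1]
  refine Finset.sum_le_sum fun Q _ => ?_
  split_ifs with h
  · rw [ENNReal.coe_mul, ENNReal.mul_rpow_of_nonneg _ _ ht.le, mul_comm]
    exact mul_le_mul' le_rfl (wt_rpow_le ht j ω Q)
  · exact zero_le

end gtFP
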