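import Pool.Agent.Lib.gtFP.DiscA

/-! Zero-one law, part A: the event `Evt Q` inside a cube `Q` which forces a nondegenerate
component. -/

open MeasureTheory ProbabilityTheory Filter Topology
open scoped NNReal ENNReal

namespace gtFP

variable {d : ℕ}

/-- All descendants of the cube `Q` of level `k` in the levels `k+1, …, k+k₀` are kept (when they are
examined) and its descendant `n^k₀ Q + (2,…,2)` of level `k + k₀` is bad for every depth `m`. -/
def Evt (n k k₀ : ℕ) (ω : Cfg d) (Q : Fin d → ℤ) : Prop :=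
  (∀ i, 1 ≤ i → i ≤ k₀ → ∀ b, anc n i b = Q → ω (k + i, b) = true) ∧
    ∀ m, Bad n m (k + k₀) ω (fun t => (n : ℤ) ^ k₀ * Q t + 2)

/-- the coordinates of the proper descendants of the cube `Q` of level `k` -/
def Desc (n k : ℕ) (Q : Fin d → ℤ) : Set (ℕ × (Fin d → ℤ)) :=
  {i | k < i.1 ∧ anc n (i.1 - k) i.2 = Q}

private theorem shift_shift (n k k₀ : ℕ) (Q : Fin d → ℤ) (ω : Cfg d) :
    shiftCfg n (0 + k₀) (fun t => (n : ℤ) ^ k₀ * (0 : Fin d → ℤ) t + 2) (shiftCfg n k Q ω) =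
      shiftCfg n (k + k₀) (fun t => (n : ℤ) ^ k₀ * Q t + 2) ω := by
  funext i
  unfold shiftCfg
  simp only [Pi.zero_apply]
  have h1 : k + (0 + k₀ + i.1) = k + k₀ + i.1 := by ring
  have h2 : (fun t => (n : ℤ) ^ (0 + k₀ + i.1) * Q t + ((n : ℤ) ^ i.1 * ((n : ℤ) ^ k₀ * 0 + 2) +
      i.2 t)) = fun t => (n : ℤ) ^ i.1 * ((n : ℤ) ^ k₀ * Q t + 2) + i.2 t := by
    funext t
    rw [zero_add, pow_add]
    ring
  rw [h1, h2]

/-- Like `bad_shift` (apply `bad_shift` to both sides, or directly). -/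
theorem evt_shift {n k k₀ : ℕ} (hn : 1 ≤ n) (Q : Fin d → ℤ) (ω : Cfg d) :
    Evt n k k₀ ω Q ↔ Evt n 0 k₀ (shiftCfg n k Q ω) 0 := by
  have h1 : (∀ m, Bad n m (k + k₀) ω (fun t => (n : ℤ) ^ k₀ * Q t + 2)) ↔
      ∀ m, Bad n m (0 + k₀) (shiftCfg n k Q ω)
        (fun t => (n : ℤ) ^ k₀ * (0 : Fin d → ℤ) t + 2) := by
    refine forall_congr' fun m => ?_
    rw [bad_shift hn, bad_shift hn (k := 0 + k₀), shift_shift]
  have h2 : (∀ i, 1 ≤ i → i ≤ k₀ → ∀ b, anc n i b = Q → ω (k + i, b) = true) ↔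
      ∀ i, 1 ≤ i → i ≤ k₀ → ∀ b, anc n i b = 0 → shiftCfg n k Q ω (0 + i, b) = true := by
    refine forall_congr' fun i => forall_congr' fun _ => forall_congr' fun _ => ?_
    have h3 : ∀ b, shiftCfg n k Q ω (0 + i, b) = ω (k + i, fun t => (n : ℤ) ^ i * Q t + b t) := by
      intro b
      unfold shiftCfg
      simp only [zero_add]
    constructor
    · intro h b hb
      rw [h3]
      apply h
      rw [anc_add_mul hn b Q, hb]
      funext t
      simp
    · intro h b hb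
      have h4 : (fun t => (n : ℤ) ^ i * Q t + (fun t => b t - (n : ℤ) ^ i * Q t) t) = b := by
        funext t
        ring
      have h5 := anc_add_mul (s := i) hn (fun t => b t - (n : ℤ) ^ i * Q t) Q
      rw [h4, hb] at h5
      have h6 := h (fun t => b t - (n : ℤ) ^ i * Q t) (by
        funext t
        have := congrFun h5 t
        simp only [Pi.zero_apply]
        linarith)
      rw [h3, h4] at h6
      exact h6
  unfold Evt
  rw [h1, h2]

/-- For `n^k₀ ≥ 5` the event depends only on the descendants of `Q`: the coordinates of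
`LvN n (k+k₀) m z`, `z = n^k₀ Q + 2`, have an ancestor of level `k + k₀` at distance at most 2 from
`z`, i.e. with coordinates in `[n^k₀ Q_t, n^k₀ Q_t + 4]`, whose ancestor of level `k` is `Q`
(`meas_bad`, `sg_mono`, `anc_anc`). -/
theorem meas_evt {n k k₀ : ℕ} (hn : 1 ≤ n) (hk : 5 ≤ n ^ k₀) (Q : Fin d → ℤ) :
    MeasurableSet[sg (Desc n k Q)] {ω : Cfg d | Evt n k k₀ ω Q} := by
  have h1 : {ω : Cfg d | Evt n k k₀ ω Q} =
      (⋂ i ∈ {i : ℕ | 1 ≤ i ∧ i ≤ k₀}, ⋂ b ∈ {b : Fin d → ℤ | anc n i b = Q},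
        {ω : Cfg d | ω (k + i, b) = true}) ∩
      ⋂ m : ℕ, {ω : Cfg d | Bad n m (k + k₀) ω (fun t => (n : ℤ) ^ k₀ * Q t + 2)} := by
    ext ω
    simp only [Evt, Set.mem_ofPred_eq, Set.mem_inter_iff, Set.mem_iInter, and_imp]
  rw [h1]
  refine @MeasurableSet.inter _ (sg (Desc n k Q)) _ _ ?_ ?_
  · refine @MeasurableSet.biInter _ _ (sg (Desc n k Q)) _ _ (Set.to_countable _) fun i hi => ?_
    refine @MeasurableSet.biInter _ _ (sg (Desc n k Q)) _ _ (Set.to_countable _) fun b hb => ?_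
    refine meas_coord (I := Desc n k Q) ⟨?_, ?_⟩ true
    · show k < k + i
      have := hi.1
      omega
    · show anc n (k + i - k) b = Q
      rw [show k + i - k = i by omega]
      exact hb
  · refine @MeasurableSet.iInter _ _ (sg (Desc n k Q)) _ _ fun m => ?_
    refine sg_mono ?_ _ (meas_bad (m := m) hn (fun t => (n : ℤ) ^ k₀ * Q t + 2))
    rintro ⟨i, b⟩ ⟨hi1, hi2, hi3⟩
    simp only at hi1 hi2 hi3
    refine ⟨?_, ?_⟩
    · show k < i
      omega
    · show anc n (i - k) b = Q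
      have h2 : anc n (i - k) b = anc n k₀ (anc n (i - (k + k₀)) b) := by
        rw [anc_anc, show k₀ + (i - (k + k₀)) = i - k by omega]
      rw [h2]
      funext t
      have h3 := nd_le.1 hi3 t
      have hpos : (0 : ℤ) < (n : ℤ) ^ k₀ := by positivity
      have h5 : (5 : ℤ) ≤ (n : ℤ) ^ k₀ := by exact_mod_cast hk
      obtain ⟨w, hw⟩ : ∃ w, w = anc n (i - (k + k₀)) b t := ⟨_, rfl⟩
      rw [← hw] at h3
      show anc n (i - (k + k₀)) b t / (n : ℤ) ^ k₀ = Q t
      rw [← hw]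
      have h6 : w = (w - (n : ℤ) ^ k₀ * Q t) + Q t * (n : ℤ) ^ k₀ := by ring
      rw [h6, Int.add_mul_ediv_right _ _ hpos.ne', Int.ediv_eq_zero_of_lt (by omega) (by omega),
        zero_add]

theorem prob_evt {n k k₀ : ℕ} (hn : 1 ≤ n) (hk : 5 ≤ n ^ k₀) (p : unitInterval) (Q : Fin d → ℤ) :
    percLaw d p {ω | Evt n k k₀ ω Q} = percLaw d p {ω | Evt n 0 k₀ ω 0} := by
  have hmeas : Measurable (shiftCfg (d := d) n k Q) :=
    measurable_pi_lambda _ fun i => measurable_pi_apply _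
  have h1 : {ω | Evt n k k₀ ω Q} = shiftCfg n k Q ⁻¹' {ω | Evt n 0 k₀ ω 0} := by
    ext ω
    exact evt_shift hn Q ω
  rw [h1, ← Measure.map_apply hmeas (sg_le _ _ (meas_evt hn hk 0)), map_shiftCfg]

private theorem prob_inter_evt {n m k : ℕ} (hn : 1 ≤ n) (z : Fin d → ℤ) (p : unitInterval) :
    percLaw d p (allKept d n k ∩ {ω | Bad n m k ω z}) =
      percLaw d p (allKept d n k) * qq d n m p := by
  have h1 : Disjoint (Lv d 0 k) (Lv d k m) := by
    refine Set.disjoint_left.2 fun i hi hj => ?_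
    have h2 : i.1 ≤ 0 + k := hi.2
    have h3 : k < i.1 := hj.1
    omega
  rw [(Indep_iff _ _ _).1 (sg_indep (p := p) h1) _ _ (allKept_meas n k) (meas_bad' hn z),
    prob_bad hn z p]

/-- For `k = 0`, `Q = 0` the first condition is `ω ∈ allKept d n k₀` (`anc n i b = 0` iff
`InBox (n^i) b`); it is independent of the `Bad` events (levels `> k₀`: `Lv d 0 k₀` and
`{i | k₀ < i.1}`); `P(⋂_m Bad_m) = lim qq m ≥ ε` (`bad_succ`, continuity from above, `prob_bad`). -/
theorem prob_evt_pos {n k₀ : ℕ} (hn : 1 ≤ n) {p : unitInterval} (hp : 0 < p) {ε : ℝ≥0∞}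
    (hε : 0 < ε) (h : ∀ m, ε ≤ qq d n m p) :
    0 < percLaw d p {ω | Evt n 0 k₀ ω 0} := by
  have : IsProbabilityMeasure (percLaw d p) := by
    unfold percLaw
    infer_instance
  obtain ⟨z, hz⟩ : ∃ z : Fin d → ℤ, z = fun t => (n : ℤ) ^ k₀ * (0 : Fin d → ℤ) t + 2 := ⟨_, rfl⟩
  obtain ⟨A, hA⟩ : ∃ A : ℕ → Set (Cfg d), A = fun m => allKept d n k₀ ∩ {ω | Bad n m k₀ ω z} :=
    ⟨_, rfl⟩
  have hanti : Antitone A := by
    rw [hA]
    exact antitone_nat_of_succ_le fun m ω hω => ⟨hω.1, bad_succ hn hω.2⟩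
  have hmeas : ∀ m, MeasurableSet (A m) := fun m => by
    rw [hA]
    exact (sg_le _ _ (allKept_meas n k₀)).inter (sg_le _ _ (meas_bad' hn z))
  have hsub : (⋂ m, A m) ⊆ {ω | Evt n 0 k₀ ω 0} := by
    intro ω hω
    rw [hA] at hω
    have h1 : ∀ m, ω ∈ allKept d n k₀ ∩ {ω | Bad n m k₀ ω z} := fun m => Set.mem_iInter.1 hω m
    refine ⟨fun i hi1 hi2 b hb => ?_, fun m => ?_⟩
    · rw [zero_add]
      refine (h1 0).1 i hi1 hi2 b fun t => ?_
      have hpos : (0 : ℤ) < (n : ℤ) ^ i := by positivity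
      have h3 : b t / (n : ℤ) ^ i = 0 := congrFun hb t
      have h4 := Int.emod_add_mul_ediv (b t) ((n : ℤ) ^ i)
      rw [h3, mul_zero, add_zero] at h4
      refine ⟨?_, ?_⟩
      · rw [← h4]
        exact Int.emod_nonneg _ hpos.ne'
      · rw [← h4]
        push_cast
        exact Int.emod_lt_of_pos _ hpos
    · rw [zero_add, ← hz]
      exact (h1 m).2
  have hlim : Tendsto (fun m => percLaw d p (A m)) atTop (𝓝 (percLaw d p (⋂ m, A m))) :=
    tendsto_measure_iInter_atTop (fun m => (hmeas m).nullMeasurableSet) hanti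
      ⟨0, measure_ne_top _ _⟩
  have hpos : 0 < percLaw d p (allKept d n k₀) * ε :=
    ENNReal.mul_pos (allKept_pos n k₀ hp).ne' hε.ne'
  have hge : ∀ m, percLaw d p (allKept d n k₀) * ε ≤ percLaw d p (A m) := by
    intro m
    rw [hA]
    simp only
    rw [prob_inter_evt hn z p]
    exact mul_le_mul_right (h m) _
  have h5 := ge_of_tendsto' hlim hge
  exact lt_of_lt_of_le hpos (h5.trans (measure_mono hsub))

end gtFP
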