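import Pool.Agent.Lib.gtFP.ZeroA
import Pool.Agent.Lib.gtFP.TopA
import Pool.Agent.Lib.gtFP.TopB
import Pool.Agent.Lib.gtFP.TopC

/-! Zero-one law, part B. -/

open MeasureTheory ProbabilityTheory Filter Topology
open scoped NNReal ENNReal

namespace gtFP

variable {d : ℕ}

private theorem zb_corner_mem (n k : ℕ) (a : Fin d → ℤ) :
    (WithLp.toLp 2 (fun t => (a t : ℝ) / (n : ℝ) ^ k) : EuclideanSpace ℝ (Fin d)) ∈ cube n k a := by
  intro t
  refine ⟨le_refl _, ?_⟩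
  exact div_le_div_of_nonneg_right (by linarith) (by positivity)

private theorem zb_abs_coord_le_dist (x y : EuclideanSpace ℝ (Fin d)) (t : Fin d) :
    |x t - y t| ≤ dist x y := by
  rw [dist_eq_norm, ← Real.norm_eq_abs]
  exact PiLp.norm_apply_le (x - y) t

private theorem zb_inBox_of_anc {n k s : ℕ} (hn : 1 ≤ n) {a : Fin d → ℤ}
    (h : InBox (n ^ k) (anc n s a)) : InBox (n ^ (k + s)) a := by
  intro t
  have hpos : (0 : ℤ) < (n : ℤ) ^ s := by positivity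
  obtain ⟨h1, h2⟩ := h t
  simp only [anc] at h1 h2
  push_cast at h2 ⊢
  constructor
  · by_contra hc
    push Not at hc
    have := Int.ediv_neg_of_neg_of_pos hc hpos
    omega
  · rw [Int.ediv_lt_iff_lt_mul hpos] at h2
    rw [pow_add]
    exact h2

/-- a cube at distance at most 2 from `n^k₀ Q + 2` has the ancestor `Q` -/
private theorem zb_anc_eq {n k₀ : ℕ} (hk : 5 ≤ n ^ k₀) {Q b : Fin d → ℤ}
    (h : nd (fun t => (n : ℤ) ^ k₀ * Q t + 2) b ≤ 2) : anc n k₀ b = Q := by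
  funext t
  have h1 := nd_le.1 h t
  have h5 : (5 : ℤ) ≤ (n : ℤ) ^ k₀ := by exact_mod_cast hk
  have hpos : (0 : ℤ) < (n : ℤ) ^ k₀ := by linarith
  show b t / (n : ℤ) ^ k₀ = Q t
  generalize (n : ℤ) ^ k₀ = N at *
  generalize hM : N * Q t = M at *
  obtain ⟨c, hc, hc0, hc4⟩ : ∃ c, b t = M + c ∧ 0 ≤ c ∧ c ≤ 4 := ⟨b t - M, by ring, by omega, by omega⟩
  rw [hc, ← hM, Int.add_comm, Int.add_mul_ediv_left _ _ hpos.ne',
    Int.ediv_eq_zero_of_lt hc0 (by linarith), zero_add]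

private theorem zb_connected {n k k₀ m : ℕ} (hn : 1 ≤ n) (hk : 5 ≤ n ^ k₀) {ω : Cfg d}
    {Q : Fin d → ℤ} (hQ : Q ∈ Rf n 1 k ω) (h : Evt n k k₀ ω Q) :
    ∃ K : Set (EuclideanSpace ℝ (Fin d)), IsPreconnected K ∧ K ⊆ percStep n (k + k₀ + m) ω ∧
      ∃ x ∈ K, ∃ y ∈ K, 1 / (n : ℝ) ^ (k + k₀) ≤ dist x y := by
  obtain ⟨hall, hbad⟩ := h
  obtain ⟨hQ1, hQ2⟩ := mem_Rf.1 hQ
  rw [one_mul] at hQ1 hQ2
  obtain ⟨r, f, h0, hloc, hadj, hball, hfar⟩ := hbad m
  refine ⟨⋃ i ∈ Finset.range (r + 1), cube n (k + k₀ + m) (f i),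
    isPreconnected_chain hn r f hadj, ?_, ?_⟩
  · intro x hx
    obtain ⟨i, hi, hxi⟩ := Set.mem_iUnion₂.1 hx
    have hir : i ≤ r := Nat.lt_succ_iff.1 (Finset.mem_range.1 hi)
    have hA : anc n k₀ (anc n m (f i)) = Q := by
      refine zb_anc_eq hk ?_
      have := nd_anc_mul hn (hball i hir)
      rwa [h0] at this
    refine ⟨f i, zb_inBox_of_anc hn (zb_inBox_of_anc hn ?_), kept_add.2 ⟨kept_add.2 ⟨?_, ?_⟩,
      hloc i hir⟩, hxi⟩
    · rw [hA]
      exact hQ1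
    · rw [hA]
      exact hQ2
    · intro j hj1 hjk
      refine hall j hj1 hjk _ ?_
      rw [anc_anc, show j + (k₀ - j) = k₀ by omega]
      exact hA
  · have hK : 1 ≤ 2 * n ^ m := by
      have : 1 ≤ n ^ m := Nat.one_le_pow _ _ hn
      omega
    obtain ⟨t, ht⟩ := exists_of_le_nd hK hfar
    refine ⟨_, Set.mem_iUnion₂.2 ⟨0, Finset.mem_range.2 (Nat.succ_pos r),
        zb_corner_mem n (k + k₀ + m) (f 0)⟩,
      _, Set.mem_iUnion₂.2 ⟨r, Finset.mem_range.2 (Nat.lt_succ_self r),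
        zb_corner_mem n (k + k₀ + m) (f r)⟩, ?_⟩
    refine le_trans ?_ (zb_abs_coord_le_dist _ _ t)
    have hn' : (0 : ℝ) < (n : ℝ) := by exact_mod_cast hn
    have hpk : (0 : ℝ) < (n : ℝ) ^ (k + k₀) := by positivity
    have hpm : (0 : ℝ) < (n : ℝ) ^ m := by positivity
    have hpkm : (0 : ℝ) < (n : ℝ) ^ (k + k₀ + m) := by positivity
    have h1 : (2 : ℝ) * (n : ℝ) ^ m ≤ |(f 0 t : ℝ) - (f r t : ℝ)| := by
      have h2 : ((2 * n ^ m : ℕ) : ℤ) ≤ |f 0 t - f r t| := by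
        have : ((2 * n ^ m : ℕ) : ℤ) ≤ ((f 0 t - f r t).natAbs : ℤ) := by exact_mod_cast ht
        simpa using this
      have h3 : (((2 * n ^ m : ℕ) : ℤ) : ℝ) ≤ ((|f 0 t - f r t| : ℤ) : ℝ) := by exact_mod_cast h2
      push_cast at h3
      exact h3
    show 1 / (n : ℝ) ^ (k + k₀) ≤
      |(f 0 t : ℝ) / (n : ℝ) ^ (k + k₀ + m) - (f r t : ℝ) / (n : ℝ) ^ (k + k₀ + m)|
    rw [← sub_div, abs_div, abs_of_pos hpkm, le_div_iff₀ hpkm, pow_add (n : ℝ) (k + k₀) m,
      ← mul_assoc, one_div, inv_mul_cancel₀ hpk.ne', one_mul]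
    linarith

/-- If a kept cube `Q` of level `k` satisfies `Evt` (`n^k₀ ≥ 5`) then `F` is not totally
disconnected. As in `exists_connected_of_bad`: for every `m` the cubes of the chain for the bad cube
`z = n^k₀ Q + 2` at depth `m` have their ancestors of level `k + k₀` at distance at most 2 from `z`
(`nd_anc_mul`), hence are descendants of `Q`; they are kept (`kept_add` twice: `Q` is kept, the levels
`k+1..k+k₀` by the first part of `Evt`, the levels `> k+k₀` by `Loc`), so `F_{k+k₀+m}` contains a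
preconnected set with two points at distance at least `n^{-(k+k₀)}` (`isPreconnected_chain`); then
`not_totallyDisconnected_iInter` for `m ↦ F_{k+k₀+m}` and `⋂_m F_{k+k₀+m} = F`. -/
theorem not_td_of_evt {n k k₀ : ℕ} (hn : 2 ≤ n) (hk : 5 ≤ n ^ k₀) {ω : Cfg d} {Q : Fin d → ℤ}
    (hQ : Q ∈ Rf n 1 k ω) (h : Evt n k k₀ ω Q) : ¬ IsTotallyDisconnected (perc n ω) := by
  have hn1 : 1 ≤ n := by omega
  have hanti : Antitone fun j => percStep n j ω :=
    antitone_nat_of_succ_le fun j => percStep_succ_subset hn1 j ω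
  have hEq : (⋂ m, percStep n (k + k₀ + m) ω) = perc n ω := by
    apply subset_antisymm
    · intro x hx
      refine Set.mem_iInter.2 fun j => ?_
      exact hanti (Nat.le_add_left j (k + k₀)) (Set.mem_iInter.1 hx j)
    · intro x hx
      exact Set.mem_iInter.2 fun m => Set.mem_iInter.1 hx _
  rw [← hEq]
  have hn' : (0 : ℝ) < (n : ℝ) := by exact_mod_cast hn1
  exact not_totallyDisconnected_iInter (fun m => isCompact_percStep hn1 _ ω)
    (fun m => percStep_succ_subset hn1 _ ω) (η := 1 / (n : ℝ) ^ (k + k₀)) (by positivity)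
    (fun m => zb_connected hn1 hk hQ h)

end gtFP
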